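import Mathlib
import Pool.Agent.Y91.P.Ten3

/-!
# Lie algebras of skew operators with two dual summands
-/

set_option linter.unusedSectionVars false

namespace Pool.Agent.Y91.G

open Module LinearMap Pool.Agent.W548.Odd Pool.Agent.Y91.JP Pool.Agent.Y91.P

variable {K : Type*} [Field K] [CharZero K] {V : Type*} [AddCommGroup V] [Module K V]
  [FiniteDimensional K V]

/-- Two dual irreducible summands; the Lie algebra contains the difference of the projections. -/
structure Blk (G : Submodule K (End K V)) (st : End K V →ₗ[K] End K V) (ε : End K V) : Prop where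
  idem : ε * ε = ε
  comm : ∀ y ∈ G, ε * y = y * ε
  st : st ε = 1 - ε
  com : ∀ c : End K V, (∀ y ∈ G, c * y = y * c) → ∃ a b : K, c = a • ε + b • (1 - ε)
  th : ε - (1 - ε) ∈ G
  ne : ε ≠ 0
  ne' : 1 - ε ≠ 0

variable {G I : Submodule K (End K V)} {st : End K V →ₗ[K] End K V} (h : Setup G st)
  {ε : End K V} (b : Blk G st ε)

namespace Blk

include b

theorem e0 : ε * (1 - ε) = 0 := by rw [mul_sub, mul_one, b.idem, sub_self]

theorem e0' : (1 - ε) * ε = 0 := by rw [sub_mul, one_mul, b.idem, sub_self]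

theorem idem' : (1 - ε) * (1 - ε) = 1 - ε := by
  rw [mul_sub, mul_one, b.e0', sub_zero]

theorem th_sq : (ε - (1 - ε)) * (ε - (1 - ε)) = 1 := by
  have h1 : (ε - (1 - ε)) * (ε - (1 - ε)) = (4 : K) • (ε * ε) - (4 : K) • ε + 1 := by
    have h2 : ∀ x : End K V, (4 : K) • x = x + x + x + x := by
      intro x
      rw [show (4 : K) = 1 + 1 + 1 + 1 by norm_num, add_smul, add_smul, add_smul, one_smul]
    rw [h2, h2]
    noncomm_ring
  rw [h1, b.idem, sub_self, zero_add]

theorem comm' (y : End K V) (hy : y ∈ G) : (1 - ε) * y = y * (1 - ε) := by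
  rw [sub_mul, mul_sub, one_mul, mul_one, b.comm y hy]

include h in
theorem st1 : st 1 = 1 := st_one h b.th b.th_sq

include h in
theorem symm : Blk G st (1 - ε) where
  idem := b.idem'
  comm := b.comm'
  st := by rw [map_sub, b.st1 h, b.st]
  com c hc := by
    obtain ⟨s, t, rfl⟩ := b.com c hc
    exact ⟨t, s, by rw [sub_sub_cancel, add_comm]⟩
  th := by
    have h1 := G.neg_mem b.th
    have h2 : -(ε - (1 - ε)) = 1 - ε - (1 - (1 - ε)) := by abel
    rwa [h2] at h1
  ne := b.ne'
  ne' := by rw [sub_sub_cancel]; exact b.ne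

include h in
theorem zero_of {y : End K V} (hy : y ∈ G) (h0 : ε * y = 0) : y = 0 := by
  have h1 : st (ε * y) = 0 := by rw [h0, map_zero]
  rw [h.st_mul, h.skew y hy, b.st, neg_mul, neg_eq_zero, mul_sub, mul_one, ← b.comm y hy, h0,
    sub_zero] at h1
  exact h1

include h in
theorem central {y : End K V} (hy : y ∈ G) (hc : ∀ z ∈ G, y * z = z * y) :
    ∃ s : K, y = s • (ε - (1 - ε)) := by
  obtain ⟨s, t, hst⟩ := b.com y hc
  have h1 := h.skew y hy
  rw [hst, map_add, map_smul, map_smul, b.st, map_sub, b.st1 h, b.st, sub_sub_cancel] at h1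
  have h2 : (s + t) • ε = 0 := by
    have h3 := congrArg (fun z => ε * z) h1
    simp only [mul_add, mul_neg, mul_smul_comm, b.idem, b.e0, smul_zero, add_zero, zero_add] at h3
    rw [add_smul, ← neg_eq_zero, neg_add, ← h3]
    abel
  have h3 : t = -s := by
    have h4 := (smul_eq_zero.1 h2).resolve_right b.ne
    linear_combination h4
  refine ⟨s, ?_⟩
  rw [hst, h3]
  module

include h in
/-- Irreducibility of the first summand. -/
theorem irr {M : Submodule K V} (hM : ∀ y ∈ G, ∀ w ∈ M, y w ∈ M) (hε : ∀ w ∈ M, ε w = w)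
    (hne : M ≠ ⊥) {v : V} (hv : ε v = v) : v ∈ M := by
  obtain ⟨π, hπ, hπM, hπ'⟩ := h.cr M hM
  obtain ⟨s, t, hst⟩ := b.com π fun y hy => hπ y hy
  obtain ⟨w, hw, hw0⟩ := Submodule.exists_mem_ne_zero_of_ne_bot hne
  have hev : ∀ u, ε u = u → π u = s • u := by
    intro u hu
    have e1 : (1 - ε) u = 0 := by rw [LinearMap.sub_apply, hu, Module.End.one_apply, sub_self]
    rw [hst, LinearMap.add_apply, LinearMap.smul_apply, LinearMap.smul_apply, hu, e1, smul_zero,
      add_zero]
  have h1 : s • w = w := by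
    rw [← hev w (hε w hw)]
    exact hπ' w hw
  have h2 : s = 1 := by
    have h3 : (s - 1) • w = 0 := by rw [sub_smul, one_smul, h1, sub_self]
    exact sub_eq_zero.1 ((smul_eq_zero.1 h3).resolve_right hw0)
  have h3 := hπM v
  rw [hev v hv, h2, one_smul] at h3
  exact h3

include h in
/-- Commutative ideals are central. -/
theorem abelian (hI : IsIdl G I) (hab : ∀ x ∈ I, ∀ y ∈ I, x * y = y * x) {x : End K V}
    (hx : x ∈ I) : ∃ s : K, x = s • (ε - (1 - ε)) := by
  have key : ∀ D ∈ G, D * D = 1 → ∀ u ∈ I, D * u = u → u * D = -u → u = 0 := by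
    intro D hD hD2 u hu h1 h2
    obtain ⟨f, hf, -, -, hufu, -⟩ := h.partner hD hD2 (hI.le hu) h1 h2
    have h3 : u * (u * f - f * u) = (u * f - f * u) * u := hab u hu _ (hI.br' hu hf)
    rw [← hufu, quad_eq (sq_zero_of_up h1 h2), h3, sub_self, smul_zero]
  refine b.central h (hI.le hx) (comm_of_invol h fun D hD hD2 => ?_)
  have e1 := key D hD hD2 _ (hI.up hD hD2 hx) (up_left hD2 x) (up_right hD2 x)
  have e2 := key (-D) (G.neg_mem hD) (by rw [neg_mul_neg, hD2]) _ (hI.dn hD hD2 hx)
    (by rw [neg_mul, dn_left hD2, neg_neg]) (by rw [mul_neg, dn_right hD2])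
  have e3 : (2 : K) • (D * x - x * D) = 0 := by
    have : (2 : K) • (D * x - x * D) = (1 + D) * x * (1 - D) - (1 - D) * x * (1 + D) := by
      rw [two_smul]
      noncomm_ring
    rw [this, e1, e2, sub_zero]
  exact sub_eq_zero.1 ((smul_eq_zero.1 e3).resolve_left two_ne_zero)

include h in
/-- The trace form is nondegenerate on ideals that contain the difference of the projections. -/
theorem nondeg (hI : IsIdl G I) (hθ : ε - (1 - ε) ∈ I) :
    ∀ c ∈ I, (∀ z ∈ I, trace K V (c * z) = 0) → c = 0 := by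
  let C : Submodule K (End K V) :=
    { carrier := {c | c ∈ I ∧ ∀ z ∈ I, trace K V (c * z) = 0}
      zero_mem' := ⟨Submodule.zero_mem _, fun z _ => by rw [zero_mul, map_zero]⟩
      add_mem' := fun {a b} ha hb => ⟨Submodule.add_mem _ ha.1 hb.1, fun z hz => by
        rw [add_mul, map_add, ha.2 z hz, hb.2 z hz, add_zero]⟩
      smul_mem' := fun t a ha => ⟨Submodule.smul_mem _ t ha.1, fun z hz => by
        rw [smul_mul_assoc, map_smul, ha.2 z hz, smul_zero]⟩ }
  have hC : IsIdl G C := by
    refine ⟨fun c hc => hI.le hc.1, fun y hy c hc => ⟨hI.br y hy c hc.1, fun z hz => ?_⟩⟩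
    have e1 := hc.2 _ (hI.br y hy z hz)
    have e2 : trace K V ((y * c - c * y) * z) = -trace K V (c * (y * z - z * y)) := by
      have e3 : trace K V (y * c * z) = trace K V (c * z * y) := by
        rw [mul_assoc, LinearMap.trace_mul_comm]
      have e4 : (y * c - c * y) * z = y * c * z - c * y * z := by noncomm_ring
      have e5 : c * (y * z - z * y) = c * y * z - c * z * y := by noncomm_ring
      rw [e4, e5, map_sub, map_sub, e3]
      ring
    rw [e2, e1, neg_zero]
  have hcomm : ∀ c ∈ C, ∀ z ∈ I, c * z = z * c := by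
    intro c hc z hz
    rw [← sub_eq_zero]
    refine h.nondeg _ (h.br c (hI.le hc.1) z (hI.le hz)) fun y hy => ?_
    have e1 := hc.2 _ (hI.br' hz hy)
    have e3 : trace K V (z * c * y) = trace K V (c * y * z) := by
      rw [mul_assoc, LinearMap.trace_mul_comm]
    have e4 : (c * z - z * c) * y = c * z * y - z * c * y := by noncomm_ring
    have e5 : c * (z * y - y * z) = c * z * y - c * y * z := by noncomm_ring
    rw [e4, map_sub, e3, ← map_sub, ← e5, e1]
  intro c hc hcz
  obtain ⟨s, hs⟩ := b.abelian h hC (fun x hx y hy => hcomm x hx y hy.1) (x := c) ⟨hc, hcz⟩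
  have h1 := hcz _ hθ
  rw [hs, smul_mul_assoc, b.th_sq, map_smul, LinearMap.trace_one, smul_eq_mul] at h1
  have hd : (finrank K V : K) ≠ 0 := by
    intro h0
    have h2 : finrank K V = 0 := by exact_mod_cast h0
    have h3 : Subsingleton V := Module.finrank_zero_iff.1 h2
    exact b.ne (LinearMap.ext fun v => Subsingleton.elim _ _)
  rw [hs, (mul_eq_zero.1 h1).resolve_right hd, zero_smul]

include h in
theorem decomp (hI : IsIdl G I) (hθ : ε - (1 - ε) ∈ I) {y : End K V} (hy : y ∈ G) :
    ∃ a ∈ I, ∃ b ∈ cen G I, y = a + b := by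
  have hnd := b.nondeg h hI hθ
  obtain ⟨a, ha, haz⟩ := exists_repr hnd ((LinearMap.trace K V).comp (LinearMap.mulLeft K y))
  have haz' : ∀ z ∈ I, trace K V ((y - a) * z) = 0 := by
    intro z hz
    rw [sub_mul, map_sub, ← haz z hz]
    exact sub_self _
  have hb : y - a ∈ G := G.sub_mem hy (hI.le ha)
  refine ⟨a, ha, y - a, ⟨hb, fun z hz => ?_⟩, by abel⟩
  rw [← sub_eq_zero]
  refine hnd _ (hI.br _ hb z hz) fun z' hz' => ?_
  have e1 := haz' _ (hI.br z (hI.le hz) z' hz')
  have e3 : trace K V (z * (y - a) * z') = trace K V ((y - a) * z' * z) := by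
    rw [mul_assoc, LinearMap.trace_mul_comm]
  have e4 : ((y - a) * z - z * (y - a)) * z' = (y - a) * z * z' - z * (y - a) * z' := by
    noncomm_ring
  have e5 : (y - a) * (z * z' - z' * z) = (y - a) * z * z' - (y - a) * z' * z := by
    noncomm_ring
  rw [e4, map_sub, e3, ← map_sub, ← e5, e1]

include h in
theorem of_comm (hI : IsIdl G I) (hθ : ε - (1 - ε) ∈ I) {y : End K V} (hy : y ∈ G)
    (h1 : ∀ z ∈ I, y * z = z * y) (h2 : ∀ z ∈ cen G I, y * z = z * y) :
    ∃ s : K, y = s • (ε - (1 - ε)) := by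
  refine b.central h hy fun z hz => ?_
  obtain ⟨a, ha, c, hc, rfl⟩ := b.decomp h hI hθ hz
  rw [mul_add, add_mul, h1 a ha, h2 c hc]

include h in
/-- If `v u = 0` on the first summand, where `u` commutes with the commutant of the ideal and `v`
commutes with the ideal, then one of them is zero there. -/
theorem prod_zero (hI : IsIdl G I) (hθ : ε - (1 - ε) ∈ I) {u v : End K V} (hεu : ε * u = u)
    (hu : ∀ z ∈ cen G I, z * u = u * z) (hv : ∀ z ∈ I, z * v = v * z)
    (hvu : v * u = 0) (hu0 : u ≠ 0) : v * ε = 0 := by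
  let Ps : Set (Submodule K V) := {P | LinearMap.range u ≤ P ∧ ∀ z ∈ I, ∀ w ∈ P, z w ∈ P}
  let W : Submodule K V := sInf Ps
  have hWle : ∀ P ∈ Ps, W ≤ P := fun P hP => sInf_le hP
  have hWr : LinearMap.range u ≤ W := le_sInf fun P hP => hP.1
  have hWI : ∀ z ∈ I, ∀ w ∈ W, z w ∈ W := by
    intro z hz w hw
    simp only [W, Submodule.mem_sInf] at hw ⊢
    exact fun P hP => hP.2 z hz w (hw P hP)
  have hWc : ∀ z ∈ cen G I, ∀ w ∈ W, z w ∈ W := by
    intro z hz
    let P : Submodule K V := W ⊓ W.comap z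
    have hP : P ∈ Ps := by
      refine ⟨?_, ?_⟩
      · rintro _ ⟨w, rfl⟩
        refine ⟨hWr ⟨w, rfl⟩, ?_⟩
        change z (u w) ∈ W
        have : z (u w) = u (z w) := LinearMap.congr_fun (hu z hz) w
        rw [this]
        exact hWr ⟨_, rfl⟩
      · rintro x hx w ⟨hw1, hw2⟩
        refine ⟨hWI x hx w hw1, ?_⟩
        change z (x w) ∈ W
        have : z (x w) = x (z w) := LinearMap.congr_fun (hz.2 x hx) w
        rw [this]
        exact hWI x hx _ hw2
    exact fun w hw => (hWle P hP hw).2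
  have hWε : ∀ w ∈ W, ε w = w := by
    have h1 : LinearMap.ker (ε - 1) ∈ Ps := by
      refine ⟨?_, fun z hz w hw => ?_⟩
      · rintro _ ⟨w, rfl⟩
        rw [LinearMap.mem_ker, LinearMap.sub_apply, sub_eq_zero]
        exact LinearMap.congr_fun hεu w
      · rw [LinearMap.mem_ker, LinearMap.sub_apply, sub_eq_zero] at hw ⊢
        have h2 : ε (z w) = z (ε w) := LinearMap.congr_fun (b.comm z (hI.le hz)) w
        rw [h2, hw]
        rfl
    intro w hw
    have h2 := hWle _ h1 hw
    rw [LinearMap.mem_ker, LinearMap.sub_apply, sub_eq_zero] at h2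
    exact h2
  have hWne : W ≠ ⊥ := by
    intro h0
    rw [h0, le_bot_iff, LinearMap.range_eq_bot] at hWr
    exact hu0 hWr
  have hker : LinearMap.ker v ∈ Ps := by
    refine ⟨?_, ?_⟩
    · rintro _ ⟨w, rfl⟩
      exact LinearMap.congr_fun hvu w
    · intro z hz w hw
      rw [LinearMap.mem_ker] at hw ⊢
      have : v (z w) = z (v w) := (LinearMap.congr_fun (hv z hz) w).symm
      rw [this, hw, map_zero]
  refine LinearMap.ext fun w => ?_
  refine hWle _ hker (b.irr h (M := W) (fun y hy w hw => ?_) hWε hWne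
    (LinearMap.congr_fun b.idem w))
  obtain ⟨a, ha, c, hc, rfl⟩ := b.decomp h hI hθ hy
  exact W.add_mem (hWI a ha w hw) (hWc c hc w hw)

include h in
/-- An involution lies in an ideal or commutes with it. -/
theorem dich (hI : IsIdl G I) (hθ : ε - (1 - ε) ∈ I) {D : End K V} (hD : D ∈ G)
    (hD2 : D * D = 1) : D ∈ I ∨ D ∈ cen G I := by
  obtain ⟨a, ha, c, hb, hab⟩ := b.decomp h hI hθ hD
  have hcI := cen_idl h hI
  have hba : c * a = a * c := hb.2 a ha
  have hθc : ε - (1 - ε) ∈ cen G I := ⟨b.th, fun z hz => by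
    rw [mul_sub, sub_mul, b.comm z (hI.le hz), b.comm' z (hI.le hz)]⟩
  by_cases h1 : ∀ z ∈ I, a * z = z * a
  · right
    obtain ⟨s, hs⟩ := b.of_comm h hI hθ (hI.le ha) h1 fun z hz => (hz.2 a ha).symm
    rw [hab, hs]
    exact Submodule.add_mem _ (Submodule.smul_mem _ _ hθc) hb
  by_cases h2 : ∀ z ∈ cen G I, c * z = z * c
  · left
    obtain ⟨s, hs⟩ := b.of_comm h hI hθ hb.1 hb.2 h2
    rw [hab, hs]
    exact Submodule.add_mem _ ha (Submodule.smul_mem _ _ hθ)
  push Not at h1 h2
  obtain ⟨z, hz, hz0⟩ := h1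
  obtain ⟨y, hy, hy0⟩ := h2
  exfalso
  have hzb : c * z = z * c := hb.2 z hz
  have hza : y * a = a * y := hy.2 a ha
  have hyz : y * z = z * y := hy.2 z hz
  have e1 : (a + c) * (a + c) = 1 := by rw [← hab]; exact hD2
  have e2 : (2 : K) • ((c * y - y * c) * (a * z - z * a)) = 0 := by
    have e3 : ((a + c) * (a + c) * z - z * ((a + c) * (a + c))) = 0 := by
      rw [e1, one_mul, mul_one, sub_self]
    have e4 : (a + c) * (a + c) * z - z * ((a + c) * (a + c)) =
        (a * a * z - z * (a * a)) + (2 : K) • (c * (a * z - z * a)) := by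
      have t1 : (a + c) * (a + c) * z - z * ((a + c) * (a + c)) =
          (a * a * z - z * (a * a)) + (a * (c * z) + (c * a) * z + c * (c * z) -
            (z * a) * c - (z * c) * a - (z * c) * c) := by noncomm_ring
      have t2 : a * (c * z) + (c * a) * z + c * (c * z) - (z * a) * c - (z * c) * a -
          (z * c) * c = (2 : K) • (c * (a * z - z * a)) := by
        rw [← hzb, two_smul]
        have t3 : a * (c * z) = c * (a * z) := by rw [← mul_assoc, ← hba, mul_assoc]
        have t4 : z * a * c = c * (z * a) := by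
          rw [mul_assoc, ← hba, ← mul_assoc, ← hzb, mul_assoc]
        have t5 : c * z * c = c * (c * z) := by rw [mul_assoc, ← hzb]
        rw [t3, t4, t5]
        noncomm_ring
      rw [t1, t2]
    rw [e4] at e3
    have c1 : (a * a * z - z * (a * a)) * y = y * (a * a * z - z * (a * a)) := by
      have : ∀ p q : End K V, y * p = p * y → y * q = q * y → y * (p * q) = p * q * y := by
        intro p q hp hq
        rw [← mul_assoc, hp, mul_assoc, hq, mul_assoc]
      have haa := this a a hza hza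
      rw [sub_mul, mul_sub, this (a * a) z haa hyz, this z (a * a) hyz haa]
    have c2 : (a * z - z * a) * y = y * (a * z - z * a) := by
      have : ∀ p q : End K V, y * p = p * y → y * q = q * y → y * (p * q) = p * q * y := by
        intro p q hp hq
        rw [← mul_assoc, hp, mul_assoc, hq, mul_assoc]
      rw [sub_mul, mul_sub, this z a hyz hza, this a z hza hyz]
    have e5 : ((a * a * z - z * (a * a)) + (2 : K) • (c * (a * z - z * a))) * y -
        y * ((a * a * z - z * (a * a)) + (2 : K) • (c * (a * z - z * a))) =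
        (2 : K) • ((c * y - y * c) * (a * z - z * a)) := by
      rw [add_mul, mul_add, c1, smul_mul_assoc, mul_smul_comm, mul_assoc c, c2]
      have : (c * y - y * c) * (a * z - z * a) = c * (y * (a * z - z * a)) -
          y * (c * (a * z - z * a)) := by
        rw [sub_mul, mul_assoc, mul_assoc]
      rw [this, smul_sub]
      abel
    rw [← e5, e3, zero_mul, mul_zero, sub_zero]
  have e3 := (smul_eq_zero.1 e2).resolve_left two_ne_zero
  apply hy0
  have hv : c * y - y * c ∈ cen G I := hcI.br c hb.1 y hy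
  have hu : a * z - z * a ∈ I := hI.br a (hI.le ha) z hz
  have hu0 : ε * (a * z - z * a) ≠ 0 := fun h0 =>
    hz0 (sub_eq_zero.1 (b.zero_of h (hI.le hu) h0))
  have h4 := b.prod_zero h hI hθ (u := ε * (a * z - z * a)) (v := c * y - y * c)
    (by rw [← mul_assoc, b.idem])
    (fun z' hz' => by
      rw [← mul_assoc, ← b.comm z' hz'.1, mul_assoc, hz'.2 _ hu, ← mul_assoc])
    (fun z' hz' => (hv.2 z' hz').symm)
    (by rw [b.comm _ (hI.le hu), ← mul_assoc, e3, zero_mul]) hu0
  rw [← b.comm _ hv.1] at h4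
  exact sub_eq_zero.1 (b.zero_of h hv.1 h4)

end Blk

end Pool.Agent.Y91.G
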