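import Mathlib
import Pool.Agent.Y91.G.Blk

/-!
# Several conjugate ideals: two dual summands
-/

set_option linter.unusedSectionVars false

namespace Pool.Agent.Y91.G

open Module LinearMap Pool.Agent.W548.Odd Pool.Agent.Y91.JP Pool.Agent.Y91.P

variable {K : Type*} [Field K] [CharZero K] {V : Type*} [AddCommGroup V] [Module K V]
  [FiniteDimensional K V]

section units

variable {A : Type*} [Ring A] [Algebra K A] {U : Type*} [AddCommGroup U]
  [Module K U] [Module A U] [IsScalarTower K A U] [IsSimpleModule A U] [FiniteDimensional K U]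
  [IsAlgClosed K]

/-- Elements acting as matrix units. -/
theorem exists_units (K : Type*) [Field K] {A : Type*} [Ring A] [Algebra K A] (U : Type*)
    [AddCommGroup U] [Module K U] [Module A U] [IsScalarTower K A U] [IsSimpleModule A U]
    [FiniteDimensional K U] [IsAlgClosed K] : ∃ (d : ℕ) (_ : NeZero d) (b : Basis (Fin d) K U)
    (a : Fin d → Fin d → A), ∀ i j u, a i j • u = b.repr u j • b i := by
  have hntr : Nontrivial U := IsSimpleModule.nontrivial A U
  let b := Module.finBasis K U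
  choose a ha using fun i j => burnside (A := A) ((b.coord j).smulRight (b i))
  exact ⟨finrank K U, ⟨Module.finrank_pos.ne'⟩, b, a, ha⟩

end units

/-- Matrix units of a summand. -/
structure MUE (A : Subalgebra K (End K V)) (ε : End K V) {d : ℕ} (e : Fin d → Fin d → End K V) :
    Prop where
  mem : ∀ i j, e i j ∈ A
  mul : ∀ i j k l, e i j * e k l = if j = k then e i l else 0
  sum : ∑ i, e i i = ε
  span : ∀ x ∈ A, ∃ c : Fin d → Fin d → K, ε * x = ∑ i, ∑ j, c i j • e i j

theorem exists_mue [IsAlgClosed K] {A : Subalgebra K (End K V)} {ε : End K V} (hεA : ε ∈ A)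
    (hε : ε * ε = ε) (hc : ∀ a ∈ A, ε * a = a * ε) (h0 : ε ≠ 0)
    (hA : ∀ U : Submodule K V, U ≠ ⊥ → (∀ u ∈ U, ε u = u) → (∀ a ∈ A, ∀ u ∈ U, a u ∈ U) →
      ∀ a ∈ A, (∀ u ∈ U, a u = 0) → ε * a = 0) :
    ∃ (d : ℕ) (_ : NeZero d) (e : Fin d → Fin d → End K V), MUE A ε e := by
  classical
  have hart : IsArtinian A V := isArtinian_of_tower K inferInstance
  let E : Submodule A V :=
    { carrier := {v | ε v = v}
      zero_mem' := map_zero ε
      add_mem' := fun {a b} ha hb => by
        change ε (a + b) = a + b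
        rw [map_add, show ε a = a from ha, show ε b = b from hb]
      smul_mem' := fun a v hv => by
        change ε ((a : End K V) v) = (a : End K V) v
        have h1 := LinearMap.congr_fun (hc a a.2) v
        rw [Module.End.mul_apply, Module.End.mul_apply, show ε v = v from hv] at h1
        exact h1 }
  have hEne : E ≠ ⊥ := by
    intro h1
    apply h0
    refine LinearMap.ext fun v => ?_
    have h2 : ε v ∈ E := LinearMap.congr_fun hε v
    rw [h1] at h2
    exact h2
  obtain ⟨U, hU, hUE⟩ := (IsAtomic.eq_bot_or_exists_atom_le E).resolve_left hEne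
  have hsim : IsSimpleModule A U := isSimpleModule_iff_isAtom.2 hU
  have hfin : FiniteDimensional K U :=
    Module.Finite.of_injective (U.subtype.restrictScalars K) U.injective_subtype
  have hUne : U ≠ ⊥ := hU.1
  have hkey : ∀ a ∈ A, (∀ u ∈ U, a u = 0) → ε * a = 0 := by
    refine hA (U.restrictScalars K) ?_ (fun u hu => hUE hu) fun a ha u hu =>
      U.smul_mem (⟨a, ha⟩ : A) hu
    intro h1
    apply hUne
    rwa [Submodule.restrictScalars_eq_bot_iff] at h1
  obtain ⟨d, hd, b, a, ha⟩ := exists_units K (A := A) U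
  have hab : ∀ i j (u : U), (a i j : End K V) u = ((b.repr u j • b i : U) : V) := by
    intro i j u
    exact congrArg Subtype.val (ha i j u)
  have haU : ∀ i j (u : U), ∀ k l, (a i j : End K V) ((a k l : End K V) u) =
      (if j = k then (a i l : End K V) else 0) u := by
    intro i j u k l
    rw [hab k l, hab i j, map_smul, Basis.repr_self]
    simp only [Finsupp.smul_apply, Finsupp.single_apply, smul_eq_mul]
    by_cases hjk : k = j
    · rw [if_pos hjk, if_pos hjk.symm, mul_one, hab]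
    · rw [if_neg hjk, if_neg (Ne.symm hjk), mul_zero, zero_smul]
      rfl
  refine ⟨d, hd, fun i j => ε * a i j, fun i j =>
    A.mul_mem hεA (a i j).2, fun i j k l => ?_, ?_, fun x hx => ?_⟩
  · have h1 : ε * (a i j : End K V) * (ε * (a k l : End K V)) =
        ε * ((a i j : End K V) * (a k l : End K V)) := by
      rw [hc _ (a k l).2, ← mul_assoc, mul_assoc ε, hc _ (A.mul_mem (a i j).2 (a k l).2),
        mul_assoc, hε]
    rw [h1]
    have h2 : (a i j : End K V) * (a k l : End K V) - (if j = k then (a i l : End K V) else 0) ∈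
        A := by
      refine A.sub_mem (A.mul_mem (a i j).2 (a k l).2) ?_
      split_ifs
      · exact (a i l).2
      · exact A.zero_mem
    have h3 := hkey _ h2 fun u hu => by
      rw [LinearMap.sub_apply, sub_eq_zero]
      exact haU i j ⟨u, hu⟩ k l
    rw [mul_sub, sub_eq_zero] at h3
    rw [h3, mul_ite, mul_zero]
  · have h2 : (∑ i, (a i i : End K V)) - 1 ∈ A :=
      A.sub_mem (A.sum_mem fun i _ => (a i i).2) A.one_mem
    have h3 := hkey _ h2 fun u hu => by
      rw [LinearMap.sub_apply, sub_eq_zero, LinearMap.sum_apply]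
      have h4 : ∑ i, (a i i : End K V) u = ((∑ i, b.repr ⟨u, hu⟩ i • b i : U) : V) := by
        rw [Submodule.coe_sum]
        exact Finset.sum_congr rfl fun i _ => hab i i ⟨u, hu⟩
      rw [h4, b.sum_repr]
      rfl
    rw [mul_sub, sub_eq_zero, mul_one, Finset.mul_sum] at h3
    exact h3
  · let c : Fin d → Fin d → K := fun i j =>
      b.repr ((⟨x, hx⟩ : A) • b j) i
    refine ⟨c, ?_⟩
    have h2 : x - ∑ i, ∑ j, c i j • (a i j : End K V) ∈ A :=
      A.sub_mem hx (A.sum_mem fun i _ => A.sum_mem fun j _ => A.smul_mem (a i j).2 _)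
    have h3 := hkey _ h2 fun u hu => by
      rw [LinearMap.sub_apply, sub_eq_zero, LinearMap.sum_apply]
      have h4 : ∀ i, (∑ j, c i j • (a i j : End K V)) u =
          (((b.repr ((⟨x, hx⟩ : A) • (⟨u, hu⟩ : U))) i • b i : U) : V) := by
        intro i
        rw [LinearMap.sum_apply]
        have h5 : b.repr ((⟨x, hx⟩ : A) • (⟨u, hu⟩ : U)) i =
            ∑ j, c i j * b.repr ⟨u, hu⟩ j := by
          conv_lhs => rw [← b.sum_repr ⟨u, hu⟩]
          rw [Finset.smul_sum, map_sum, Finsupp.finset_sum_apply]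
          refine Finset.sum_congr rfl fun j _ => ?_
          rw [smul_comm, map_smul, Finsupp.smul_apply, smul_eq_mul, mul_comm]
        rw [h5, Finset.sum_smul, Submodule.coe_sum]
        refine Finset.sum_congr rfl fun j _ => ?_
        rw [LinearMap.smul_apply]
        have h6 := hab i j ⟨u, hu⟩
        rw [h6, mul_smul]
        rfl
      have h5 : x u = (((⟨x, hx⟩ : A) • (⟨u, hu⟩ : U) : U) : V) := rfl
      rw [h5]
      conv_lhs => rw [← b.sum_repr ((⟨x, hx⟩ : A) • (⟨u, hu⟩ : U))]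
      rw [Submodule.coe_sum]
      exact Finset.sum_congr rfl fun i _ => (h4 i).symm
    rw [mul_sub, sub_eq_zero] at h3
    rw [h3, Finset.mul_sum]
    refine Finset.sum_congr rfl fun i _ => ?_
    rw [Finset.mul_sum]
    refine Finset.sum_congr rfl fun j _ => ?_
    rw [mul_smul_comm]

section mue

variable {A : Subalgebra K (End K V)} {ε : End K V} {d : ℕ} {e : Fin d → Fin d → End K V}
  (M : MUE A ε e)

include M

theorem MUE.mulε (i j : Fin d) : e i j * ε = e i j := by
  rw [← M.sum, Finset.mul_sum, Finset.sum_eq_single j]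
  · rw [M.mul, if_pos rfl]
  · intro k _ hk
    rw [M.mul, if_neg (Ne.symm hk)]
  · intro h
    exact absurd (Finset.mem_univ _) h

theorem MUE.εmul (i j : Fin d) : ε * e i j = e i j := by
  rw [← M.sum, Finset.sum_mul, Finset.sum_eq_single i]
  · rw [M.mul, if_pos rfl]
  · intro k _ hk
    rw [M.mul, if_neg hk]
  · intro h
    exact absurd (Finset.mem_univ _) h

theorem MUE.min (o : Fin d) {x : End K V} (hx : x ∈ A) :
    ∃ c : K, e o o * x * e o o = c • e o o := by
  obtain ⟨c, hc⟩ := M.span x hx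
  refine ⟨c o o, ?_⟩
  have h1 : e o o * x * e o o = e o o * (ε * x) * e o o := by
    rw [← mul_assoc, M.mulε]
  rw [h1, hc, Finset.mul_sum, Finset.sum_mul, Finset.sum_eq_single o]
  · rw [Finset.mul_sum, Finset.sum_mul, Finset.sum_eq_single o]
    · rw [mul_smul_comm, M.mul, if_pos rfl, smul_mul_assoc, M.mul, if_pos rfl]
    · intro j _ hj
      rw [mul_smul_comm, M.mul, if_pos rfl, smul_mul_assoc, M.mul, if_neg hj, smul_zero]
    · intro h
      exact absurd (Finset.mem_univ _) h
  · intro i _ hi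
    rw [Finset.mul_sum, Finset.sum_mul]
    refine Finset.sum_eq_zero fun j _ => ?_
    rw [mul_smul_comm, M.mul, if_neg (Ne.symm hi), smul_zero, zero_mul]
  · intro h
    exact absurd (Finset.mem_univ _) h

/-- The trace of a product with a minimal idempotent. -/
theorem MUE.tr (o : Fin d) {f : End K V} (hf : ∀ x ∈ A, f * x = x * f) :
    trace K V (f * ε) = d * trace K V (f * e o o) := by
  have h1 : ∀ i, trace K V (f * e i i) = trace K V (f * e o o) := by
    intro i
    have e1 : e i i = e i o * e o i := by rw [M.mul, if_pos rfl]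
    have e2 : e o o = e o i * e i o := by rw [M.mul, if_pos rfl]
    calc trace K V (f * e i i) = trace K V (f * e i o * e o i) := by rw [e1, mul_assoc]
    _ = trace K V (e o i * (f * e i o)) := LinearMap.trace_mul_comm K _ _
    _ = trace K V (f * e o o) := by rw [← mul_assoc, ← hf _ (M.mem o i), mul_assoc, ← e2]
  calc trace K V (f * ε) = trace K V (f * ∑ i, e i i) := by rw [M.sum]
  _ = ∑ i, trace K V (f * e i i) := by rw [Finset.mul_sum, map_sum]
  _ = ∑ i : Fin d, trace K V (f * e o o) := Finset.sum_congr rfl fun i _ => h1 i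
  _ = d * trace K V (f * e o o) := by
    rw [Finset.sum_const, Finset.card_univ, Fintype.card_fin, nsmul_eq_mul]

end mue

variable {G I : Submodule K (End K V)} {st : End K V →ₗ[K] End K V} (h : Setup G st)
  {ε : End K V} (b : Blk G st ε)

/-- The ideal generated by an involution and the difference of the projections. -/
def JD (G : Submodule K (End K V)) (ε D : End K V) : Submodule K (End K V) :=
  gn G D ⊔ Submodule.span K {ε - (1 - ε)}

include h b in
theorem jd_idl {D : End K V} (hD : D ∈ G) : IsIdl G (JD G ε D) := by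
  have hJ := gn_idl h hD
  refine ⟨sup_le hJ.le ?_, fun y hy z hz => ?_⟩
  · rw [Submodule.span_le]
    rintro _ rfl
    exact b.th
  · obtain ⟨u, hu, v, hv, rfl⟩ := Submodule.mem_sup.1 hz
    obtain ⟨t, rfl⟩ := Submodule.mem_span_singleton.1 hv
    have e1 : y * (u + t • (ε - (1 - ε))) - (u + t • (ε - (1 - ε))) * y =
        (y * u - u * y) + t • ((y * ε - ε * y) - (y * (1 - ε) - (1 - ε) * y)) := by
      simp only [mul_add, add_mul, mul_smul_comm, smul_mul_assoc, mul_sub, sub_mul, smul_sub]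
      abel
    rw [e1, b.comm y hy, b.comm' y hy, sub_self, sub_self, sub_self, smul_zero, add_zero]
    exact Submodule.mem_sup_left (hJ.br y hy u hu)

theorem th_mem_jd (D : End K V) : ε - (1 - ε) ∈ JD G ε D :=
  Submodule.mem_sup_right (Submodule.mem_span_singleton_self _)

theorem mem_jd (D : End K V) : D ∈ JD G ε D := Submodule.mem_sup_left mem_gn

include h in
theorem jd_le {D : End K V} (hI : IsIdl G I) (hD : D ∈ I) (hθ : ε - (1 - ε) ∈ I) :
    JD G ε D ≤ I := by
  refine sup_le (gn_le hI hD) ?_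
  rw [Submodule.span_le]
  rintro _ rfl
  exact hθ

theorem eps_mem {A : Subalgebra K (End K V)} (hθ : ε - (1 - ε) ∈ A) : ε ∈ A := by
  have h1 : ε = (2 : K)⁻¹ • ((ε - (1 - ε)) + 1) := by
    have h2 : (ε - (1 - ε)) + 1 = (2 : K) • ε := by
      rw [two_smul]
      abel
    rw [h2, smul_smul, inv_mul_cancel₀ two_ne_zero, one_smul]
  rw [h1]
  exact A.smul_mem (A.add_mem hθ A.one_mem) _

include h b in
theorem idl_mue [IsAlgClosed K] (hI : IsIdl G I) (hθ : ε - (1 - ε) ∈ I) :
    ∃ (d : ℕ) (_ : NeZero d) (e : Fin d → Fin d → End K V),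
      MUE (Algebra.adjoin K (I : Set (End K V))) ε e := by
  have hcm : ∀ a ∈ Algebra.adjoin K (I : Set (End K V)), ε * a = a * ε := fun a ha =>
    comm_adjoin (fun x hx => b.comm x (hI.le hx)) ha
  refine exists_mue (eps_mem (Algebra.subset_adjoin hθ)) b.idem hcm b.ne
    fun U hU hUε hUs a ha hau => ?_
  let W : Submodule K V :=
    { carrier := {v | ε v = v ∧ ∀ a ∈ Algebra.adjoin K (I : Set (End K V)),
        (∀ u ∈ U, a u = 0) → a v = 0}
      zero_mem' := ⟨map_zero ε, fun a _ _ => map_zero a⟩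
      add_mem' := fun {v w} hv hw => ⟨by rw [map_add, hv.1, hw.1], fun a ha hau => by
        rw [map_add, hv.2 a ha hau, hw.2 a ha hau, add_zero]⟩
      smul_mem' := fun c v hv => ⟨by rw [map_smul, hv.1], fun a ha hau => by
        rw [map_smul, hv.2 a ha hau, smul_zero]⟩ }
  refine LinearMap.ext fun v => ?_
  have hεv : ε (ε v) = ε v := LinearMap.congr_fun b.idem v
  have h1 : ε v ∈ W := by
    refine b.irr h (M := W) (fun y hy w hw => ?_) (fun w hw => hw.1) ?_ hεv
    · obtain ⟨x, hx, z, hz, rfl⟩ := b.decomp h hI hθ hy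
      have hx' : x ∈ Algebra.adjoin K (I : Set (End K V)) := Algebra.subset_adjoin hx
      have hεw : ∀ y ∈ G, ε (y w) = y w := by
        intro y hy
        have h2 := LinearMap.congr_fun (b.comm y hy) w
        rw [Module.End.mul_apply, Module.End.mul_apply, hw.1] at h2
        exact h2
      refine W.add_mem ⟨hεw x (hI.le hx), fun a ha hau => ?_⟩ ⟨hεw z hz.1, fun a ha hau => ?_⟩
      · exact hw.2 (a * x) (mul_mem ha hx') fun u hu => hau _ (hUs x hx' u hu)
      · have h1 : z * a = a * z := comm_adjoin hz.2 ha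
        have h2 : a (z w) = z (a w) := (LinearMap.congr_fun h1 w).symm
        rw [h2, hw.2 a ha hau, map_zero]
    · intro h0
      obtain ⟨u, hu, hu0⟩ := Submodule.exists_mem_ne_zero_of_ne_bot hU
      have h1 : u ∈ W := ⟨hUε u hu, fun a _ hau => hau u hu⟩
      rw [h0] at h1
      exact hu0 h1
  have h2 := h1.2 a ha hau
  rw [hcm a ha]
  exact h2

/-- The state after `m` steps. -/
structure Stg (G : Submodule K (End K V)) (ε : End K V) (d p : ℕ)
    (I : Submodule K (End K V)) (m : ℕ) (f q : End K V) : Prop where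
  idl : IsIdl G I
  th : ε - (1 - ε) ∈ I
  f_mem : f ∈ Algebra.adjoin K (I : Set (End K V))
  εf : ε * f = f
  ff : f * f = f
  min : ∀ x ∈ Algebra.adjoin K (I : Set (End K V)), ∃ c : K, f * x * f = c • f
  rkf : rk f * d ^ m = rk ε
  q_mem : q ∈ Algebra.adjoin K (I : Set (End K V))
  εq : ε * q = q
  qq : q * q = q
  rkq : rk q * d ^ m = p * d

include h b in
theorem adj_comm (hI : IsIdl G I) {a : End K V}
    (ha : a ∈ Algebra.adjoin K (I : Set (End K V))) : ε * a = a * ε :=
  comm_adjoin (fun x hx => b.comm x (hI.le hx)) ha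

include h b in
/-- The first state. -/
theorem Stg.start {D : End K V} (hD : D ∈ G) {d : ℕ} {e : Fin d → Fin d → End K V}
    (M : MUE (Algebra.adjoin K (JD G ε D : Set (End K V))) ε e) (o : Fin d) {q : End K V}
    (hq : q ∈ Algebra.adjoin K (JD G ε D : Set (End K V))) (hεq : ε * q = q) (hqq : q * q = q) :
    Stg G ε d (rk q) (JD G ε D) 1 (e o o) q where
  idl := jd_idl h b hD
  th := th_mem_jd D
  f_mem := M.mem o o
  εf := M.εmul o o
  ff := by rw [M.mul, if_pos rfl]
  min x hx := M.min o hx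
  rkf := by
    have hee : e o o * e o o = e o o := by rw [M.mul, if_pos rfl]
    have h1 := M.tr o (f := 1) fun x _ => by rw [one_mul, mul_one]
    rw [one_mul, one_mul, trace_idem hee, trace_idem b.idem] at h1
    rw [pow_one, mul_comm]
    exact_mod_cast h1.symm
  q_mem := hq
  εq := hεq
  qq := hqq
  rkq := by rw [pow_one]

include h b in
/-- The next state. -/
theorem Stg.step {d p m : ℕ} {f q : End K V} (Q : Stg G ε d p I m f q)
    {D : End K V} (hD : D ∈ cen G I) {e : Fin d → Fin d → End K V}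
    (M : MUE (Algebra.adjoin K (JD G ε D : Set (End K V))) ε e) (o : Fin d) :
    Stg G ε d p (I ⊔ JD G ε D) (m + 1) (f * e o o) (q * e o o) := by
  have hJ := jd_idl h b hD.1
  have hθc : ε - (1 - ε) ∈ cen G I := ⟨b.th, fun z hz => by
    rw [mul_sub, sub_mul, b.comm z (Q.idl.le hz), b.comm' z (Q.idl.le hz)]⟩
  have hcm : ∀ z ∈ JD G ε D, ∀ x ∈ I, z * x = x * z := fun z hz x hx =>
    (jd_le h (cen_idl h Q.idl) hD hθc hz).2 x hx
  obtain ⟨A, hA⟩ : ∃ A, A = Algebra.adjoin K (I : Set (End K V)) := ⟨_, rfl⟩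
  obtain ⟨B, hB⟩ : ∃ B, B = Algebra.adjoin K (JD G ε D : Set (End K V)) := ⟨_, rfl⟩
  obtain ⟨C, hC⟩ : ∃ C, C = Algebra.adjoin K ((I ⊔ JD G ε D : Submodule K (End K V)) :
    Set (End K V)) := ⟨_, rfl⟩
  have hAC : A ≤ C := by
    rw [hA, hC]
    exact Algebra.adjoin_mono fun x hx => Submodule.mem_sup_left hx
  have hBC : B ≤ C := by
    rw [hB, hC]
    exact Algebra.adjoin_mono fun x hx => Submodule.mem_sup_right hx
  have hc : ∀ a ∈ A, ∀ b ∈ B, a * b = b * a := by
    intro a ha b hb
    rw [hA] at ha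
    rw [hB] at hb
    exact (comm_adjoin' hcm ha hb).symm
  have hfA : f ∈ A := hA ▸ Q.f_mem
  have hqA : q ∈ A := hA ▸ Q.q_mem
  have heB : ∀ i j, e i j ∈ B := fun i j => hB ▸ M.mem i j
  have hee : e o o * e o o = e o o := by rw [M.mul, if_pos rfl]
  have hεA : ∀ a ∈ A, ε * a = a * ε := by
    intro a ha
    rw [hA] at ha
    exact adj_comm h b Q.idl ha
  -- products
  have hprod : ∀ a ∈ A, ∀ b ∈ B, ∀ a' ∈ A, ∀ b' ∈ B, a * b * (a' * b') = a * a' * (b * b') := by
    intro a ha b hb a' ha' b' hb'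
    rw [mul_assoc, ← mul_assoc b, ← hc a' ha' b hb]
    noncomm_ring
  have hff : f * e o o * (f * e o o) = f * e o o := by
    rw [hprod f hfA _ (heB o o) f hfA _ (heB o o), Q.ff, hee]
  have hqq : q * e o o * (q * e o o) = q * e o o := by
    rw [hprod q hqA _ (heB o o) q hqA _ (heB o o), Q.qq, hee]
  refine ⟨⟨sup_le Q.idl.le hJ.le, fun y hy z hz => ?_⟩, Submodule.mem_sup_left Q.th, ?_, ?_, hff,
    fun x hx => ?_, ?_, ?_, ?_, hqq, ?_⟩
  · obtain ⟨u, hu, v, hv, rfl⟩ := Submodule.mem_sup.1 hz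
    have e1 : y * (u + v) - (u + v) * y = (y * u - u * y) + (y * v - v * y) := by noncomm_ring
    rw [e1]
    exact Submodule.add_mem_sup (Q.idl.br y hy u hu) (hJ.br y hy v hv)
  · rw [← hC]
    exact C.mul_mem (hAC hfA) (hBC (heB o o))
  · rw [← mul_assoc, Q.εf]
  · have h1 := adjoin_sup hcm hx
    rw [← hA, ← hB] at h1
    refine Submodule.mul_induction_on (C := fun x => ∃ c : K,
      f * e o o * x * (f * e o o) = c • (f * e o o)) h1 (fun a ha b hb => ?_) fun x y hx hy => ?_
    · have ha' : a ∈ A := ha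
      have hb' : b ∈ B := hb
      obtain ⟨c, hc'⟩ := Q.min a (hA ▸ ha')
      obtain ⟨c', hc''⟩ := M.min o (x := b) (hB ▸ hb')
      refine ⟨c * c', ?_⟩
      rw [hprod f hfA _ (heB o o) a ha' b hb',
        hprod (f * a) (A.mul_mem hfA ha') (e o o * b) (B.mul_mem (heB o o) hb') f hfA _ (heB o o),
        hc', hc'', smul_mul_smul_comm]
    · obtain ⟨c, hc'⟩ := hx
      obtain ⟨c', hc''⟩ := hy
      exact ⟨c + c', by rw [mul_add, add_mul, hc', hc'', add_smul]⟩
  · have h1 := M.tr o (f := f) fun x hx => hc f hfA x (hB ▸ hx)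
    rw [← hεA f hfA, Q.εf, trace_idem Q.ff, trace_idem hff] at h1
    have h2 : Pool.Agent.W548.Odd.rk f = d * Pool.Agent.W548.Odd.rk (f * e o o) := by
      exact_mod_cast h1
    rw [← Q.rkf, h2, pow_succ]
    ring
  · rw [← hC]
    exact C.mul_mem (hAC hqA) (hBC (heB o o))
  · rw [← mul_assoc, Q.εq]
  · have h1 := M.tr o (f := q) fun x hx => hc q hqA x (hB ▸ hx)
    rw [← hεA q hqA, Q.εq, trace_idem Q.qq, trace_idem hqq] at h1
    have h2 : Pool.Agent.W548.Odd.rk q = d * Pool.Agent.W548.Odd.rk (q * e o o) := by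
      exact_mod_cast h1
    rw [← Q.rkq, h2, pow_succ]
    ring

include h b in
/-- The last state. -/
theorem Stg.last {d p m : ℕ} {f q : End K V} (Q : Stg G ε d p I m f q) (hGI : G ≤ I) :
    d ^ m = rk ε := by
  have hrε : rk ε ≠ 0 := fun h0 => b.ne (rk_eq_zero h0)
  have hf0 : f ≠ 0 := by
    intro h0
    have h2 := Q.rkf
    rw [h0, rk_zero, zero_mul] at h2
    exact hrε h2.symm
  obtain ⟨v, hv⟩ : ∃ v, f v ≠ 0 := by
    by_contra hcon
    push Not at hcon
    exact hf0 (LinearMap.ext hcon)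
  obtain ⟨w, hw⟩ : ∃ w, w = f v := ⟨_, rfl⟩
  have hw0 : w ≠ 0 := by rwa [hw]
  have hfw : f w = w := by
    rw [hw]
    exact LinearMap.congr_fun Q.ff v
  have hεw : ε w = w := by
    rw [hw]
    exact LinearMap.congr_fun Q.εf v
  -- the range of `f` is a line
  let W : Submodule K V :=
    { carrier := {u | ∃ a ∈ Algebra.adjoin K (I : Set (End K V)), a w = u}
      zero_mem' := ⟨0, zero_mem _, rfl⟩
      add_mem' := by
        rintro _ _ ⟨a, ha, rfl⟩ ⟨b, hb, rfl⟩
        exact ⟨a + b, add_mem ha hb, rfl⟩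
      smul_mem' := by
        rintro c _ ⟨a, ha, rfl⟩
        exact ⟨c • a, Subalgebra.smul_mem _ ha c, rfl⟩ }
  have hW : ∀ x, ε x = x → x ∈ W := by
    intro x hx
    refine b.irr h (M := W) ?_ ?_ ?_ hx
    · rintro y hy _ ⟨a, ha, rfl⟩
      exact ⟨y * a, mul_mem (Algebra.subset_adjoin (hGI hy)) ha, rfl⟩
    · rintro _ ⟨a, ha, rfl⟩
      have h2 := LinearMap.congr_fun (adj_comm h b Q.idl ha) w
      rw [Module.End.mul_apply, Module.End.mul_apply, hεw] at h2
      exact h2
    · intro h0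
      have h2 : w ∈ W := ⟨1, one_mem _, rfl⟩
      rw [h0] at h2
      exact hw0 h2
  have hline : ∀ x, ∃ c : K, f x = c • w := by
    intro x
    have h2 : ε x ∈ W := hW _ (LinearMap.congr_fun b.idem x)
    obtain ⟨a, ha, hax⟩ := h2
    obtain ⟨c, hc⟩ := Q.min a ha
    refine ⟨c, ?_⟩
    have h3 := LinearMap.congr_fun hc w
    change f (a (f w)) = c • f w at h3
    rw [hfw, hax] at h3
    rw [← h3]
    have h4 := LinearMap.congr_fun (adj_comm h b Q.idl Q.f_mem) x
    rw [Q.εf] at h4
    exact h4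
  have hrk : Pool.Agent.W548.Odd.rk f = 1 := by
    have h2 : Pool.Agent.W548.Odd.rk f ≤ 1 := by
      unfold Pool.Agent.W548.Odd.rk
      calc finrank K (LinearMap.range f) ≤ finrank K (Submodule.span K {w}) := by
            refine Submodule.finrank_mono ?_
            rintro _ ⟨x, rfl⟩
            obtain ⟨c, hc⟩ := hline x
            rw [hc]
            exact Submodule.smul_mem _ _ (Submodule.mem_span_singleton_self w)
      _ ≤ 1 := (finrank_span_singleton hw0).le
    have h3 : Pool.Agent.W548.Odd.rk f ≠ 0 := fun h0 => hf0 (rk_eq_zero h0)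
    omega
  rw [← Q.rkf, hrk, one_mul]

section tr

variable {D₀ D : End K V} {s : End K V ≃+* End K V} {τ : K ≃+* K} (T : Tr G st D₀ D s τ)

include h T in
theorem tr_jd (hD₀ : D₀ ∈ G) (hs : s ε = ε) {x : End K V} (hx : x ∈ JD G ε D₀) :
    s x ∈ JD G ε D := by
  obtain ⟨u, hu, v, hv, rfl⟩ := Submodule.mem_sup.1 hx
  obtain ⟨t, rfl⟩ := Submodule.mem_span_singleton.1 hv
  rw [map_add, T.smul, map_sub, map_sub, map_one, hs]
  exact Submodule.add_mem _ (Submodule.mem_sup_left (T.gn h hD₀ hu))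
    (Submodule.smul_mem _ _ (th_mem_jd D))

include h T in
theorem tr_adj (hD₀ : D₀ ∈ G) (hs : s ε = ε) {x : End K V}
    (hx : x ∈ Algebra.adjoin K (JD G ε D₀ : Set (End K V))) :
    s x ∈ Algebra.adjoin K (JD G ε D : Set (End K V)) := by
  induction hx using Algebra.adjoin_induction with
  | mem x hx => exact Algebra.subset_adjoin (tr_jd h T hD₀ hs hx)
  | algebraMap r =>
    rw [Algebra.algebraMap_eq_smul_one, T.smul, map_one]
    exact Subalgebra.smul_mem _ (one_mem _) _
  | add x y _ _ hx hy =>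
    rw [map_add]
    exact add_mem hx hy
  | mul x y _ _ hx hy =>
    rw [map_mul]
    exact mul_mem hx hy

include h T in
theorem tr_mue (hD₀ : D₀ ∈ G) (hs : s ε = ε) {d : ℕ} {e : Fin d → Fin d → End K V}
    (M : MUE (Algebra.adjoin K (JD G ε D₀ : Set (End K V))) ε e) :
    MUE (Algebra.adjoin K (JD G ε D : Set (End K V))) ε fun i j => s (e i j) where
  mem i j := tr_adj h T hD₀ hs (M.mem i j)
  mul i j k l := by
    rw [← map_mul, M.mul]
    split_ifs
    · rfl
    · exact map_zero s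
  sum := by rw [← map_sum, M.sum, hs]
  span x hx := by
    have hD : D ∈ G := by
      rw [← T.map]
      exact T.mem _ hD₀
    have hs' : s.symm ε = ε := by
      apply s.injective
      rw [RingEquiv.apply_symm_apply, hs]
    obtain ⟨c, hc⟩ := M.span _ (tr_adj h T.symm hD hs' hx)
    refine ⟨fun i j => τ (c i j), ?_⟩
    rw [← s.apply_symm_apply (ε * x), map_mul, hs', hc, map_sum]
    refine Finset.sum_congr rfl fun i _ => ?_
    rw [map_sum]
    refine Finset.sum_congr rfl fun j _ => ?_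
    rw [T.smul]

end tr

include h b in
/-- Either the involution generates the Lie algebra as an ideal up to the centre, or the dimension
is a power. -/
theorem single [IsAlgClosed K] {S : Set (End K V)} (hS : ∀ D ∈ S, D ∈ G ∧ D * D = 1)
    (hgen : ∀ L : Submodule K (End K V), S ⊆ L → ε - (1 - ε) ∈ L →
      (∀ y ∈ L, ∀ z ∈ L, y * z - z * y ∈ L) → G ≤ L)
    {D₀ : End K V} (hD₀S : D₀ ∈ S) (hne : ∀ s : K, D₀ ≠ s • (ε - (1 - ε)))
    (hconj : ∀ D ∈ S, ∀ (d : ℕ) (e : Fin d → Fin d → End K V),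
      MUE (Algebra.adjoin K (JD G ε D₀ : Set (End K V))) ε e →
        ∃ e' : Fin d → Fin d → End K V,
          MUE (Algebra.adjoin K (JD G ε D : Set (End K V))) ε e') :
    G ≤ JD G ε D₀ ∨ ∃ d m : ℕ, 2 ≤ d ∧ 1 ≤ m ∧ d ^ (m + 1) = rk ε ∧
      d ^ m ∣ rk (ε * (1 + D₀)) := by
  obtain ⟨hD₀, hD₀2⟩ := hS D₀ hD₀S
  obtain ⟨d, hd, e, M⟩ := idl_mue h b (jd_idl h b hD₀) (th_mem_jd D₀)
  have hd2 : 2 ≤ d := by
    have h2 : d ≠ 0 := hd.out
    by_contra hcon
    obtain rfl : d = 1 := by omega
    obtain ⟨c, hc⟩ := M.span D₀ (Algebra.subset_adjoin (mem_jd D₀))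
    have h3 := M.sum
    rw [Fin.sum_univ_one] at h3 hc
    rw [Fin.sum_univ_one, h3] at hc
    apply hne (c 0 0)
    rw [← sub_eq_zero]
    refine b.zero_of h (G.sub_mem hD₀ (G.smul_mem _ b.th)) ?_
    rw [mul_sub, mul_smul_comm, mul_sub, b.idem, b.e0, sub_zero, hc, sub_self]
  obtain ⟨q, hq⟩ : ∃ q, q = (2 : K)⁻¹ • (ε * (1 + D₀)) := ⟨_, rfl⟩
  have hrq : rk q = rk (ε * (1 + D₀)) := by
    rw [hq]
    exact rk_smul (inv_ne_zero two_ne_zero) _
  have hεq : ε * q = q := by rw [hq, mul_smul_comm, ← mul_assoc, b.idem]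
  have hqq : q * q = q := by
    have e1 : (ε * (1 + D₀)) * (ε * (1 + D₀)) = (2 : K) • (ε * (1 + D₀)) := by
      have e2 : (1 + D₀) * ε = ε * (1 + D₀) := by
        rw [add_mul, mul_add, one_mul, mul_one, b.comm _ hD₀]
      have e3 : (1 + D₀) * (1 + D₀) = (2 : K) • (1 + D₀) := by
        rw [two_smul]
        calc (1 + D₀) * (1 + D₀) = 1 + D₀ + D₀ + D₀ * D₀ := by noncomm_ring
        _ = _ := by rw [hD₀2]; abel
      calc (ε * (1 + D₀)) * (ε * (1 + D₀)) = ε * ((1 + D₀) * ε) * (1 + D₀) := by noncomm_ring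
      _ = (ε * ε) * ((1 + D₀) * (1 + D₀)) := by rw [e2]; noncomm_ring
      _ = _ := by rw [b.idem, e3, mul_smul_comm]
    rw [hq, smul_mul_smul_comm, e1, smul_smul]
    congr 1
    rw [mul_assoc, inv_mul_cancel₀ two_ne_zero, mul_one]
  have hqA : q ∈ Algebra.adjoin K (JD G ε D₀ : Set (End K V)) := by
    rw [hq]
    exact Subalgebra.smul_mem _ (mul_mem (eps_mem (Algebra.subset_adjoin (th_mem_jd D₀)))
      (add_mem (one_mem _) (Algebra.subset_adjoin (mem_jd D₀)))) _
  have key : ∀ n : ℕ, ∀ (I : Submodule K (End K V)) (m : ℕ) (f q' : End K V),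
      rk f = n → Stg G ε d (rk q) I m f q' → 1 ≤ m → D₀ ∈ I → (m = 1 → I ≤ JD G ε D₀) →
      ∃ (I : Submodule K (End K V)) (m : ℕ) (f q' : End K V),
        Stg G ε d (rk q) I m f q' ∧ 1 ≤ m ∧ (m = 1 → I ≤ JD G ε D₀) ∧ G ≤ I := by
    intro n
    induction n using Nat.strong_induction_on with
    | _ n ih =>
      intro I m f q' hn Q hm hD₀I hm1
      by_cases hall : ∀ D ∈ S, D ∈ I
      · exact ⟨I, m, f, q', Q, hm, hm1,
          hgen I hall Q.th fun y hy z hz => Q.idl.br y (Q.idl.le hy) z hz⟩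
      push Not at hall
      obtain ⟨D, hDS, hDI⟩ := hall
      obtain ⟨hD, hD2⟩ := hS D hDS
      have hDc : D ∈ cen G I := (b.dich h Q.idl Q.th hD hD2).resolve_left hDI
      obtain ⟨e', M'⟩ := hconj D hDS d e M
      have Q' := Q.step h b hDc M' 0
      have h2 := Q.rkf
      have h3 := Q'.rkf
      have h4 : 0 < rk ε := Nat.pos_of_ne_zero fun h0 => b.ne (rk_eq_zero h0)
      have h5 : rk (f * e' 0 0) < n := by
        rw [pow_succ, mul_comm (d ^ m), ← mul_assoc, ← h2] at h3
        have h6 : 0 < d ^ m := by positivity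
        have h7 := Nat.eq_of_mul_eq_mul_right h6 h3
        have h8 : rk f ≠ 0 := by
          intro h0
          rw [h0, zero_mul] at h2
          omega
        rw [← hn, ← h7]
        nlinarith [Nat.pos_of_ne_zero h8, Nat.zero_le (rk (f * e' 0 0))]
      exact ih _ h5 _ (m + 1) _ _ rfl Q' (by omega) (Submodule.mem_sup_left hD₀I)
        (fun h0 => by omega)
  obtain ⟨I, m, f, q', Q, hm, hm1, hGI⟩ := key _ _ 1 _ _ rfl (Stg.start h b hD₀ M 0 hqA hεq hqq)
    le_rfl (mem_jd D₀) fun _ => le_rfl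
  have h2 := Q.last h b hGI
  rcases Nat.lt_or_ge 1 m with h4 | h4
  · right
    obtain ⟨k, rfl⟩ : ∃ k, m = k + 1 := ⟨m - 1, by omega⟩
    refine ⟨d, k, hd2, by omega, h2, ?_⟩
    have h5 := Q.rkq
    rw [pow_succ, ← mul_assoc] at h5
    have h6 := Nat.eq_of_mul_eq_mul_right (by omega : 0 < d) h5
    rw [← hrq, ← h6]
    exact Dvd.intro_left _ rfl
  · left
    exact hGI.trans (hm1 (by omega))

end Pool.Agent.Y91.G
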