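import Mathlib
import Pool.Agent.Y91.G.Ten

/-!
# Irreducibility of the positive parts of the summands
-/

set_option linter.unusedSectionVars false

namespace Pool.Agent.Y91.G

open Module LinearMap Pool.Agent.W548.Odd Pool.Agent.Y91.JP Pool.Agent.Y91.P

variable {K : Type*} [Field K] [CharZero K] {V : Type*} [AddCommGroup V] [Module K V]
  [FiniteDimensional K V]

/-- Subspaces which are stable under the positive part, the negative part and the projection are
stable. -/
def Gen3 (G : Submodule K (End K V)) (ε D : End K V) : Prop :=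
  ∀ M : Submodule K V, (∀ w ∈ M, ε w ∈ M) → (∀ x ∈ Kp G D, ∀ w ∈ M, x w ∈ M) →
    (∀ y ∈ Kp G (-D), ∀ w ∈ M, y w ∈ M) → ∀ y ∈ G, ∀ w ∈ M, y w ∈ M

theorem Gen3.neg {G : Submodule K (End K V)} {ε D : End K V} (H : Gen3 G ε D) :
    Gen3 G ε (-D) := fun M h1 h2 h3 => H M h1 (fun x hx => h3 x (by rwa [neg_neg_D])) h2

theorem Gen3.symm {G : Submodule K (End K V)} {ε D : End K V} (H : Gen3 G ε D) :
    Gen3 G (1 - ε) D := fun M h1 h2 h3 => H M (fun w hw => by
  have h4 := M.sub_mem hw (h1 w hw)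
  have h5 : w - (1 - ε) w = ε w := by
    rw [LinearMap.sub_apply, Module.End.one_apply]
    abel
  rwa [h5] at h4) h2 h3

/-- Irreducibility of the positive part of the first summand. -/
def IrrE (G : Submodule K (End K V)) (ε D : End K V) : Prop :=
  ∀ W : Submodule K V, (∀ w ∈ W, D w = w ∧ ε w = w) →
    (∀ x ∈ Kp G D, ∀ y ∈ Kp G (-D), ∀ w ∈ W, x (y w) ∈ W) →
    W = ⊥ ∨ ∀ v, D v = v → ε v = v → v ∈ W

variable {G I : Submodule K (End K V)} {st : End K V →ₗ[K] End K V} (h : Setup G st)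
  {ε : End K V} (b : Blk G st ε)

include h b in
theorem gj {D : End K V} (hD : D ∈ G) (hD2 : D * D = 1) (hG : G ≤ JD G ε D)
    (hne : ∀ s : K, D ≠ s • (ε - (1 - ε))) :
    G ≤ Kp G D ⊔ Kp G (-D) ⊔ Kz G D ⊔ Submodule.span K {ε - (1 - ε)} := by
  have hJ := kz_idl h hD hD2
  obtain ⟨J, hJd⟩ : ∃ J, J = Kp G D ⊔ Kp G (-D) ⊔ Kz G D := ⟨_, rfl⟩
  rw [← hJd]
  have hJ' : IsIdl G (J ⊔ Submodule.span K {ε - (1 - ε)}) := by
    rw [← hJd] at hJ
    refine ⟨sup_le hJ.le ?_, fun y hy z hz => ?_⟩
    · rw [Submodule.span_le]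
      rintro _ rfl
      exact b.th
    · obtain ⟨u, hu, v, hv, rfl⟩ := Submodule.mem_sup.1 hz
      obtain ⟨t, rfl⟩ := Submodule.mem_span_singleton.1 hv
      have e1 : y * (u + t • (ε - (1 - ε))) - (u + t • (ε - (1 - ε))) * y =
          (y * u - u * y) + t • ((y * ε - ε * y) - (y * (1 - ε) - (1 - ε) * y)) := by
        simp only [mul_add, add_mul, mul_smul_comm, smul_mul_assoc, mul_sub, sub_mul, smul_sub]
        abel
      rw [e1, b.comm y hy, b.comm' y hy, sub_self, sub_self, sub_self, smul_zero, add_zero]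
      exact Submodule.mem_sup_left (hJ.br y hy u hu)
  have hθ : ε - (1 - ε) ∈ J ⊔ Submodule.span K {ε - (1 - ε)} :=
    Submodule.mem_sup_right (Submodule.mem_span_singleton_self _)
  have hKp : Kp G D ≤ J := by rw [hJd]; exact le_sup_left.trans le_sup_left
  have hKn : Kp G (-D) ≤ J := by rw [hJd]; exact le_sup_right.trans le_sup_left
  have hDJ : D ∈ J ⊔ Submodule.span K {ε - (1 - ε)} := by
    rcases b.dich h hJ' hθ hD hD2 with h1 | h1
    · exact h1
    · exfalso
      have hz : ∀ e ∈ Kp G D, e = 0 := by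
        intro e he
        have h2 := h1.2 e (Submodule.mem_sup_left (hKp he))
        rw [he.2.1, he.2.2] at h2
        have h3 : (2 : K) • e = 0 := by
          rw [two_smul]
          nth_rewrite 1 [h2]
          exact neg_add_cancel _
        exact (smul_eq_zero.1 h3).resolve_left two_ne_zero
      have hz' : ∀ e ∈ Kp G (-D), e = 0 := by
        intro e he
        have h2 := h1.2 e (Submodule.mem_sup_left (hKn he))
        rw [(mem_Kn.1 he).2.1, (mem_Kn.1 he).2.2] at h2
        have h3 : (2 : K) • e = 0 := by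
          rw [two_smul]
          nth_rewrite 1 [← h2]
          exact neg_add_cancel _
        exact (smul_eq_zero.1 h3).resolve_left two_ne_zero
      have hc : ∀ y ∈ G, D * y = y * D := by
        intro y hy
        have e1 := hz _ ⟨h.idl.up hD hD2 hy, up_left hD2 y, up_right hD2 y⟩
        have e2 := hz' _ (mem_Kn.2 ⟨h.idl.dn hD hD2 hy, dn_left hD2 y, dn_right hD2 y⟩)
        have e3 : (2 : K) • (D * y - y * D) = 0 := by
          have : (2 : K) • (D * y - y * D) = (1 + D) * y * (1 - D) - (1 - D) * y * (1 + D) := by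
            rw [two_smul]
            noncomm_ring
          rw [this, e1, e2, sub_zero]
        exact sub_eq_zero.1 ((smul_eq_zero.1 e3).resolve_left two_ne_zero)
      obtain ⟨s, hs⟩ := b.central h hD hc
      exact hne s hs
  exact hG.trans (jd_le h hJ' hDJ hθ)

include h b in
theorem gen3 {D : End K V} (hD : D ∈ G) (hD2 : D * D = 1) (hG : G ≤ JD G ε D)
    (hne : ∀ s : K, D ≠ s • (ε - (1 - ε))) : Gen3 G ε D := by
  have hGJ := gj h b hD hD2 hG hne
  intro M hε hx hy
  let S : Submodule K (End K V) :=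
    { carrier := {z | ∀ w ∈ M, z w ∈ M}
      zero_mem' := fun w _ => Submodule.zero_mem _
      add_mem' := fun {a b} ha hb w hw => Submodule.add_mem _ (ha w hw) (hb w hw)
      smul_mem' := fun c a ha w hw => Submodule.smul_mem _ c (ha w hw) }
  have hJS : Kp G D ⊔ Kp G (-D) ⊔ Kz G D ⊔ Submodule.span K {ε - (1 - ε)} ≤ S := by
    refine sup_le (sup_le (sup_le (fun x hx' => hx x hx') fun x hx' => hy x hx') ?_) ?_
    · unfold Kz
      rw [Submodule.span_le]
      rintro _ ⟨x, hx', y, hy', rfl⟩ w hw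
      change x (y w) - y (x w) ∈ M
      exact M.sub_mem (hx x hx' _ (hy y hy' w hw)) (hy y hy' _ (hx x hx' w hw))
    · rw [Submodule.span_le]
      rintro _ rfl w hw
      change ε w - (w - ε w) ∈ M
      exact M.sub_mem (hε w hw) (M.sub_mem hw (hε w hw))
  exact fun y hy => hJS (hGJ hy)

include h b in
/-- Irreducibility of the positive part of the first summand. -/
theorem irrE {D : End K V} (H : Gen3 G ε D) : IrrE G ε D := by
  intro W hW1 hW
  have hxW : ∀ x ∈ Kp G D, ∀ w ∈ W, x w = 0 := by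
    intro x hx w hw
    have h1 : x (D w) = -(x w) := LinearMap.congr_fun hx.2.2 w
    rw [(hW1 w hw).1] at h1
    have h2 : (2 : K) • x w = 0 := by
      rw [two_smul]
      nth_rewrite 1 [h1]
      exact neg_add_cancel _
    exact (smul_eq_zero.1 h2).resolve_left two_ne_zero
  let U : Submodule K V := Submodule.span K {v | ∃ y ∈ Kp G (-D), ∃ w ∈ W, v = y w}
  have hU : ∀ u ∈ U, D u = -u := by
    intro u hu
    induction hu using Submodule.span_induction with
    | mem x hx =>
      obtain ⟨y, hy, w, hw, rfl⟩ := hx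
      exact LinearMap.congr_fun (mem_Kn.1 hy).2.1 w
    | zero => rw [map_zero, neg_zero]
    | add x y _ _ hx hy => rw [map_add, hx, hy, neg_add]
    | smul c x _ hx => rw [map_smul, hx, smul_neg]
  have hεU : ∀ u ∈ U, ε u = u := by
    intro u hu
    induction hu using Submodule.span_induction with
    | mem x hx =>
      obtain ⟨y, hy, w, hw, rfl⟩ := hx
      have h1 := LinearMap.congr_fun (b.comm y hy.1) w
      rw [Module.End.mul_apply, Module.End.mul_apply, (hW1 w hw).2] at h1
      exact h1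
    | zero => rw [map_zero]
    | add x y _ _ hx hy => rw [map_add, hx, hy]
    | smul c x _ hx => rw [map_smul, hx]
  have hxU : ∀ x ∈ Kp G D, ∀ u ∈ U, x u ∈ W := by
    intro x hx u hu
    induction hu using Submodule.span_induction with
    | mem v hv =>
      obtain ⟨y, hy, w, hw, rfl⟩ := hv
      exact hW x hx y hy w hw
    | zero => rw [map_zero]; exact W.zero_mem
    | add a b _ _ ha hb => rw [map_add]; exact W.add_mem ha hb
    | smul c a _ ha => rw [map_smul]; exact W.smul_mem _ ha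
  have hyU : ∀ y ∈ Kp G (-D), ∀ u ∈ U, y u = 0 := by
    intro y hy u hu
    have h1 : y (D u) = y u := LinearMap.congr_fun (mem_Kn.1 hy).2.2 u
    rw [hU u hu, map_neg] at h1
    have h2 : (2 : K) • y u = 0 := by
      rw [two_smul]
      nth_rewrite 1 [← h1]
      exact neg_add_cancel _
    exact (smul_eq_zero.1 h2).resolve_left two_ne_zero
  have hyW : ∀ y ∈ Kp G (-D), ∀ w ∈ W, y w ∈ U := fun y hy w hw =>
    Submodule.subset_span ⟨y, hy, w, hw, rfl⟩
  have st1 : ∀ x ∈ Kp G D, ∀ w ∈ W ⊔ U, x w ∈ W ⊔ U := by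
    intro x hx w hw
    obtain ⟨a, ha, b, hb, rfl⟩ := Submodule.mem_sup.1 hw
    rw [map_add, hxW x hx a ha, zero_add]
    exact Submodule.mem_sup_left (hxU x hx b hb)
  have st2 : ∀ y ∈ Kp G (-D), ∀ w ∈ W ⊔ U, y w ∈ W ⊔ U := by
    intro x hx w hw
    obtain ⟨a, ha, b, hb, rfl⟩ := Submodule.mem_sup.1 hw
    rw [map_add, hyU x hx b hb, add_zero]
    exact Submodule.mem_sup_right (hyW x hx a ha)
  have hε : ∀ w ∈ W ⊔ U, ε w = w := by
    intro w hw
    obtain ⟨a, ha, b, hb, rfl⟩ := Submodule.mem_sup.1 hw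
    rw [map_add, (hW1 a ha).2, hεU b hb]
  have hst := H (W ⊔ U) (fun w hw => by rw [hε w hw]; exact hw) st1 st2
  by_cases h0 : W ⊔ U = ⊥
  · left
    rw [← le_bot_iff, ← h0]
    exact le_sup_left
  · right
    intro v hv hεv
    have hvt : v ∈ W ⊔ U := b.irr h hst hε h0 hεv
    obtain ⟨a, ha, b, hb, rfl⟩ := Submodule.mem_sup.1 hvt
    rw [map_add, (hW1 a ha).1, hU b hb] at hv
    have h1 : b = 0 := by
      have h2 : (2 : K) • b = 0 := by
        have h3 : -b = b := add_left_cancel hv
        rw [two_smul]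
        nth_rewrite 1 [← h3]
        exact neg_add_cancel _
      exact (smul_eq_zero.1 h2).resolve_left two_ne_zero
    rw [h1, add_zero]
    exact ha

/-- The anti-involution applied to the projection. -/
theorem eps_kp {x : End K V} {D : End K V} (b : Blk G st ε) (hx : x ∈ Kp G D) (v : V) :
    ε (x v) = x (ε v) := LinearMap.congr_fun (b.comm x hx.1) v

section mp

variable {D c d p q : End K V} (F : MP G st D c d p q)

include b F

theorem eps_p (v : V) : ε (p v) = p (ε v) := by
  rw [← F.cd]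
  change ε (c (d v)) = c (d (ε v))
  rw [eps_kp b F.cm, eps_kp b F.dm]

include h

theorem exists_eps_c : ∃ w, c w ≠ 0 ∧ ε (c w) = c w := by
  have h1 : ε * c ≠ 0 := fun h0 => F.ne (b.zero_of h F.cm.1 h0)
  obtain ⟨w, hw⟩ : ∃ w, (ε * c) w ≠ 0 := by
    by_contra hcon
    push Not at hcon
    exact h1 (LinearMap.ext hcon)
  refine ⟨ε w, ?_, ?_⟩
  · rw [← eps_kp b F.cm]
    exact hw
  · rw [← eps_kp b F.cm]
    exact LinearMap.congr_fun b.idem _

/-- Irreducibility of the range of `p` in the first summand. -/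
theorem irr_oneE (hirr : IrrE G ε D) {Y : Submodule K V}
    (hY : ∀ x ∈ Kp G D, ∀ y ∈ Kp G (-D), ∀ v ∈ Y, p (x (y v)) ∈ Y) :
    (∀ v, D v = v → ε v = v → (∀ x ∈ Kp G D, ∀ y ∈ Kp G (-D), p (x (y v)) ∈ Y) → v = 0) ∨
      ∀ v, p v = v → ε v = v → v ∈ Y := by
  let W : Submodule K V :=
    { carrier := {v | D v = v ∧ ε v = v ∧ ∀ x ∈ Kp G D, ∀ y ∈ Kp G (-D), p (x (y v)) ∈ Y}
      zero_mem' := ⟨map_zero D, map_zero ε, fun x _ y _ => by
        rw [map_zero, map_zero, map_zero]
        exact Y.zero_mem⟩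
      add_mem' := fun {a b} ha hb => ⟨by rw [map_add, ha.1, hb.1], by
        rw [map_add, ha.2.1, hb.2.1], fun x hx y hy => by
        rw [map_add, map_add, map_add]
        exact Y.add_mem (ha.2.2 x hx y hy) (hb.2.2 x hx y hy)⟩
      smul_mem' := fun t a ha => ⟨by rw [map_smul, ha.1], by rw [map_smul, ha.2.1],
        fun x hx y hy => by
        rw [map_smul, map_smul, map_smul]
        exact Y.smul_mem t (ha.2.2 x hx y hy)⟩ }
  have hst : ∀ x ∈ Kp G D, ∀ y ∈ Kp G (-D), ∀ w ∈ W, x (y w) ∈ W := by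
    rintro x hx y hy w ⟨-, hε, hw⟩
    refine ⟨LinearMap.congr_fun hx.2.1 (y w), ?_, F.stab h hY hw hx hy⟩
    rw [eps_kp b hx, eps_kp b hy, hε]
  rcases hirr W (fun w hw => ⟨hw.1, hw.2.1⟩) hst with h1 | h1
  · left
    intro v hv1 hv2 hv3
    have h2 : v ∈ W := ⟨hv1, hv2, hv3⟩
    rw [h1] at h2
    exact h2
  · right
    intro v hv hεv
    have hDv : D v = v := by
      rw [← hv]
      have : D * p = p := by rw [← F.cd, ← mul_assoc, F.cm.2.1]
      exact LinearMap.congr_fun this v
    have h2 := (h1 v hDv hεv).2.2 c F.cm d F.dm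
    have h3 : p (c (d v)) = v := by
      have : p * (c * d) = p := by rw [F.cd, F.pp]
      have h4 : (p * (c * d)) v = p v := by rw [this]
      rw [hv] at h4
      exact h4
    rwa [h3] at h2

theorem irr_zeroE (hirr : IrrE G ε D) {v : V} (hv : D v = v) (hε : ε v = v)
    (h0 : ∀ x ∈ Kp G D, ∀ y ∈ Kp G (-D), p (x (y v)) = 0) : v = 0 := by
  rcases irr_oneE h b F hirr (Y := ⊥) (fun x _ y _ v hv => by
    rw [(Submodule.mem_bot K).1 hv, map_zero, map_zero, map_zero]
    exact Submodule.zero_mem _) with h1 | h1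
  · exact h1 v hv hε fun x hx y hy => by
      rw [Submodule.mem_bot]
      exact h0 x hx y hy
  · exfalso
    obtain ⟨w, hw, hεw⟩ := exists_eps_c h b F
    exact hw ((Submodule.mem_bot K).1 (h1 _ (LinearMap.congr_fun F.pc w) hεw))

/-- If the operators on the range of `p` are scalars then it is a line. -/
theorem rk_line (hirr : IrrE G ε D) (hsc : ∀ x ∈ Kp G D, ∀ y ∈ Kp G (-D), ∃ s : K,
    ε * (p * x * y * p) = s • (ε * p)) : rk (ε * c) = 1 := by
  obtain ⟨w, hw, hεw⟩ := exists_eps_c h b F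
  obtain ⟨v, hv⟩ : ∃ v, v = c w := ⟨_, rfl⟩
  rw [← hv] at hw hεw
  have hpv : p v = v := by
    rw [hv]
    exact LinearMap.congr_fun F.pc w
  have hDv : D v = v := by
    rw [hv]
    exact LinearMap.congr_fun F.cm.2.1 w
  have hst : ∀ x ∈ Kp G D, ∀ y ∈ Kp G (-D), p (x (y v)) ∈ Submodule.span K {v} := by
    intro x hx y hy
    obtain ⟨s, hs⟩ := hsc x hx y hy
    have h1 := LinearMap.congr_fun hs v
    have h2 : (ε * (p * x * y * p)) v = ε (p (x (y (p v)))) := rfl
    have h3 : (s • (ε * p)) v = s • ε (p v) := rfl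
    rw [h2, h3, hpv, hεw, eps_p b F, eps_kp b hx, eps_kp b hy, hεw] at h1
    rw [h1]
    exact Submodule.smul_mem _ _ (Submodule.mem_span_singleton_self v)
  have hall : ∀ u, p u = u → ε u = u → u ∈ Submodule.span K {v} := by
    rcases irr_oneE h b F hirr (Y := Submodule.span K {v}) (fun x hx y hy u hu => by
      obtain ⟨t, rfl⟩ := Submodule.mem_span_singleton.1 hu
      rw [map_smul, map_smul, map_smul]
      exact Submodule.smul_mem _ _ (hst x hx y hy)) with h1 | h1
    · exact absurd (h1 v hDv hεw hst) hw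
    · exact h1
  have h1 : rk (ε * c) ≤ 1 := by
    unfold rk
    calc finrank K (LinearMap.range (ε * c)) ≤ finrank K (Submodule.span K {v}) := by
          refine Submodule.finrank_mono ?_
          rintro _ ⟨u, rfl⟩
          refine hall _ ?_ (LinearMap.congr_fun b.idem _)
          change p (ε (c u)) = ε (c u)
          rw [← eps_p b F]
          congr 1
          exact LinearMap.congr_fun F.pc u
    _ ≤ 1 := (finrank_span_singleton hw).le
  have h2 : rk (ε * c) ≠ 0 := fun h0 => F.ne (b.zero_of h F.cm.1 (rk_eq_zero h0))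
  omega

end mp

end Pool.Agent.Y91.G
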