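import Mathlib
import Pool.Agent.Y91.G.Irr
import Pool.Agent.Y91.JP.One

/-!
# Two dual summands: minimal elements have rank one
-/

set_option linter.unusedSectionVars false

namespace Pool.Agent.Y91.G

open Module LinearMap Pool.Agent.W548.Odd Pool.Agent.Y91.JP Pool.Agent.Y91.P

variable {K : Type*} [Field K] [CharZero K] {V : Type*} [AddCommGroup V] [Module K V]
  [FiniteDimensional K V]

variable {G I : Submodule K (End K V)} {st : End K V →ₗ[K] End K V} (h : Setup G st)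
  {ε : End K V} (b : Blk G st ε)

section two

variable {D c1 d1 p1 q1 c2 d2 p2 q2 : End K V} (F : Two G st D c1 d1 p1 q1 c2 d2 p2 q2)

include h F

/-- There is a connecting element. -/
theorem exists_fra' [IsAlgClosed K] (ht : TrSt st) (hD : D ∈ G) (hD2 : D * D = 1)
    (hcon : ∃ x ∈ Kp G D, p1 * x * q2 ≠ 0) : ∃ a, Fra G st D c1 d1 p1 q1 c2 d2 p2 q2 a := by
  obtain ⟨x0, hx0, hx0n⟩ := hcon
  obtain ⟨x, hxd⟩ : ∃ x, x = p1 * x0 * q2 + p2 * x0 * q1 := ⟨_, rfl⟩
  have hx : Co G D p1 q1 p2 q2 x := by rw [hxd]; exact F.co_of h hx0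
  have hxn : x ≠ 0 := by
    intro h0
    apply hx0n
    have h1 : p1 * x = p1 * x0 * q2 := by
      have e1 : p1 * (p1 * x0 * q2 + p2 * x0 * q1) = (p1 * p1) * x0 * q2 +
          (p1 * p2) * x0 * q1 := by noncomm_ring
      rw [hxd, e1, F.A.pp, F.p1p2]
      simp
    rw [← h1, h0, mul_zero]
  obtain ⟨y, hy, hxyx, -⟩ := kp_partner h hD hD2 hx.1
  obtain ⟨z, hzd⟩ : ∃ z, z = c1 * y * c2 + c2 * y * c1 := ⟨_, rfl⟩
  have hz : Co G D p1 q1 p2 q2 z := by rw [hzd]; exact F.co_tri h hy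
  obtain ⟨s, hs⟩ := F.form h hx hz
  -- the scalar is not zero
  have hp1 : p1 ≠ 0 := by
    intro h0
    apply F.A.ne
    rw [← F.A.pc, h0, zero_mul]
  have hs0 : s ≠ 0 := by
    rintro rfl
    rw [zero_smul] at hs
    have e1 : trace K V (z * d2 * x * d1) = trace K V (x * d2 * z * d1) := by
      have t1 := ht (z * d2 * x * d1)
      rw [h.st_mul, h.st_mul, h.st_mul, h.skew z hz.1.1, h.skew x hx.1.1,
        h.skew d1 F.A.dm.1, h.skew d2 F.B.dm.1] at t1
      rw [← t1]
      have t2 : -d1 * (-x * (-d2 * -z)) = d1 * (x * d2 * z) := by noncomm_ring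
      rw [t2, LinearMap.trace_mul_comm]
    have e2 : trace K V (x * d2 * z * d1) = 0 := by
      have t1 : trace K V ((x * d2 * z + z * d2 * x) * d1) = 0 := by rw [hs, zero_mul, map_zero]
      rw [add_mul, map_add, e1] at t1
      have t2 : (2 : K) * trace K V (x * d2 * z * d1) = 0 := by linear_combination t1
      exact (mul_eq_zero.1 t2).resolve_left two_ne_zero
    have e3 : x * d2 * z * d1 = p1 * x * y * p1 := by
      calc x * d2 * z * d1 = x * d2 * c1 * y * (c2 * d1) + x * (d2 * c2) * y * (c1 * d1) := by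
            rw [hzd]; noncomm_ring
      _ = (x * q2) * y * p1 := by rw [F.c2d1, F.B.dc, F.A.cd]; simp
      _ = p1 * x * y * p1 := by rw [← hx.2.1]
    have e4 : trace K V (p1 * x * y) = 0 := by
      rw [e3, LinearMap.trace_mul_comm] at e2
      have : p1 * (p1 * x * y) = p1 * x * y := by
        rw [← mul_assoc, ← mul_assoc, F.A.pp]
      rwa [this] at e2
    have e5 : trace K V (p2 * x * y) = 0 := by
      rw [hx.2.2.1, ← F.A.trace_symm h ht hx.1.1 hy.1]
      exact e4
    apply trace_pair_ne hxyx hxn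
    have e6 : x * y = p1 * x * y + p2 * x * y := by
      rw [← add_mul, hx.2.2.2]
    rw [e6, map_add, e4, e5, add_zero]
  -- an element with nonzero square
  have hadd : ∀ {u v : End K V}, Co G D p1 q1 p2 q2 u → Co G D p1 q1 p2 q2 v →
      Co G D p1 q1 p2 q2 (u + v) := by
    intro u v hu hv
    refine ⟨Submodule.add_mem _ hu.1 hv.1, by rw [mul_add, add_mul, hu.2.1, hv.2.1], by
      rw [mul_add, add_mul, hu.2.2.1, hv.2.2.1], ?_⟩
    rw [mul_add, mul_add, add_add_add_comm, hu.2.2.2, hv.2.2.2]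
  have hsq : ∀ {u : End K V}, Co G D p1 q1 p2 q2 u → ∃ k : K, u * d2 * u = k • c1 := by
    intro u hu
    obtain ⟨k, hk⟩ := F.form h hu hu
    refine ⟨2⁻¹ * k, ?_⟩
    rw [mul_smul, ← hk, ← two_smul K, smul_smul, inv_mul_cancel₀ two_ne_zero, one_smul]
  obtain ⟨a0, ha0, k, hk, hk0⟩ : ∃ a0, Co G D p1 q1 p2 q2 a0 ∧ ∃ k : K,
      a0 * d2 * a0 = k • c1 ∧ k ≠ 0 := by
    obtain ⟨k1, hk1⟩ := hsq hx
    obtain ⟨k2, hk2⟩ := hsq hz
    by_cases h1 : k1 = 0
    · by_cases h2 : k2 = 0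
      · refine ⟨x + z, hadd hx hz, s, ?_, hs0⟩
        have e1 : (x + z) * d2 * (x + z) = x * d2 * x + z * d2 * z + (x * d2 * z + z * d2 * x) := by
          noncomm_ring
        rw [e1, hk1, hk2, h1, h2, hs, zero_smul, zero_add, zero_add]
      · exact ⟨z, hz, k2, hk2, h2⟩
    · exact ⟨x, hx, k1, hk1, h1⟩
  obtain ⟨t, ht2⟩ := IsAlgClosed.exists_pow_nat_eq (k⁻¹) (n := 2) (by norm_num)
  have htk : t * t * k = 1 := by
    rw [← sq, ht2, inv_mul_cancel₀ hk0]
  have ha : Co G D p1 q1 p2 q2 (t • a0) := by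
    refine ⟨Submodule.smul_mem _ _ ha0.1, by rw [mul_smul_comm, smul_mul_assoc, ha0.2.1], by
      rw [mul_smul_comm, smul_mul_assoc, ha0.2.2.1], ?_⟩
    rw [mul_smul_comm, mul_smul_comm, ← smul_add, ha0.2.2.2]
  have hada : (t • a0) * d2 * (t • a0) = c1 := by
    rw [smul_mul_assoc, smul_mul_assoc, mul_smul_comm, hk, smul_smul, smul_smul, htk, one_smul]
  obtain ⟨a, had⟩ : ∃ a, a = t • a0 := ⟨_, rfl⟩
  rw [← had] at ha hada
  refine ⟨a, F, ha, hada, ?_⟩
  -- the second identity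
  have e1 : p2 * (a * d1 * a) * q2 = a * d1 * a := by
    calc p2 * (a * d1 * a) * q2 = (p2 * a) * d1 * (a * q2) := by noncomm_ring
    _ = (a * q1) * d1 * (p1 * a) := by rw [ha.2.2.1, ← ha.2.1]
    _ = a * ((q1 * d1) * p1) * a := by noncomm_ring
    _ = a * d1 * a := by rw [F.A.qd, F.A.dp]
  have hG : a * d1 * a ∈ G := h.quad ha.1.1 (kp_sq ha.1) F.A.dm.1
  obtain ⟨τ, hτ⟩ := F.B.mx _ hG
  rw [e1] at hτ
  have e2 : p1 * a = τ • (p1 * a) := by
    calc p1 * a = c1 * d1 * a := by rw [F.A.cd]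
    _ = (a * d2 * a) * d1 * a := by rw [hada]
    _ = a * d2 * (a * d1 * a) := by noncomm_ring
    _ = τ • (a * (d2 * c2)) := by rw [hτ, mul_smul_comm, mul_assoc]
    _ = τ • (p1 * a) := by rw [F.B.dc, ha.2.1]
  have e3 : p1 * a ≠ 0 := by
    intro h0
    apply F.A.ne
    rw [← F.A.pc, ← hada, ← mul_assoc, ← mul_assoc, h0, zero_mul, zero_mul]
  have e4 : τ = 1 := by
    have e5 : (τ - 1) • (p1 * a) = 0 := by rw [sub_smul, one_smul, ← e2, sub_self]
    exact sub_eq_zero.1 ((smul_eq_zero.1 e5).resolve_right e3)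
  rw [hτ, e4, one_smul]


include b in
/-- The two pairs are connected. -/
theorem connectedE (hirr : IrrE G ε D) : ∃ x ∈ Kp G D, p1 * x * q2 ≠ 0 := by
  by_contra hcon
  push Not at hcon
  obtain ⟨w2, hw2, hεw⟩ := exists_eps_c h b F.B
  refine hw2 (irr_zeroE h b F.A hirr (LinearMap.congr_fun F.B.cm.2.1 w2) hεw fun x hx y hy => ?_)
  have h3 := hcon _ (kp_tri h hx hy F.B.cm)
  have h4 : p1 * (x * y * c2 + c2 * y * x) * q2 = p1 * x * y * (c2 * q2) +
      (p1 * c2) * y * x * q2 := by noncomm_ring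
  rw [h4, F.pc, F.B.cq, zero_mul, zero_mul, zero_mul, add_zero] at h3
  exact LinearMap.congr_fun h3 w2

end two

section fra

variable {D c1 d1 p1 q1 c2 d2 p2 q2 r t a : End K V}
  (F : Fra G st D c1 d1 p1 q1 c2 d2 p2 q2 a)
  (hr : r = 1 - q1 - q2) (ht : t = 1 - p1 - p2)

include h b in
theorem trace_eps_neg (htr : TrSt st) {x : End K V} (hx : x ∈ G) :
    trace K V ((1 - ε) * x) = -trace K V (ε * x) := by
  have h1 := htr (ε * x)
  rw [h.st_mul, h.skew x hx, b.st, neg_mul, map_neg, ← b.comm' x hx] at h1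
  rw [← h1, neg_neg]

include h b in
theorem trace_eps (htr : TrSt st) : trace K V (1 - ε) = trace K V ε := by
  have h1 := htr ε
  rw [b.st] at h1
  exact h1

include h b F hr ht in
/-- The decomposition if there are no paths through the rest of the space. -/
theorem no_path (hD : D ∈ G) (hD2 : D * D = 1) (hirr : IrrE G ε D)
    (hirr' : IrrE G (1 - ε) D)
    (hcon : ∀ x ∈ Kp G D, ∀ y ∈ Kp G (-D), p1 * x * r * y * p1 = 0) :
    1 + D = (2 : K) • p1 + (2 : K) • p2 ∧ 1 - D = (2 : K) • q1 + (2 : K) • q2 := by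
  have hst1 : st 1 = 1 := st_one h hD hD2
  have X1 : ∀ x ∈ Kp G D, p1 * x * r = 0 := by
    intro x hx
    obtain ⟨u, hu⟩ : ∃ u, u = p1 * x * r + t * x * q1 := ⟨_, rfl⟩
    have huK : u ∈ Kp G D := by rw [hu]; exact F.T.inf_mem h hr ht hx
    obtain ⟨y, hy, h1, -⟩ := kp_partner h hD hD2 huK
    have e1 : p1 * u = p1 * x * r := by
      have : p1 * (p1 * x * r + t * x * q1) = (p1 * p1) * x * r + (p1 * t) * x * q1 := by
        noncomm_ring
      rw [hu, this, F.T.A.pp, F.T.p1t ht]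
      simp
    have e2 : u * r = p1 * x * r := by
      have : (p1 * x * r + t * x * q1) * r = p1 * x * (r * r) + t * x * (q1 * r) := by
        noncomm_ring
      rw [hu, this, F.T.rr hr, F.T.q1r hr]
      simp
    calc p1 * x * r = p1 * x * (r * r) := by rw [F.T.rr hr]
    _ = (p1 * x * r) * r := by noncomm_ring
    _ = p1 * (u * y * u) * r := by rw [← e1, h1]
    _ = (p1 * u) * y * (u * r) := by noncomm_ring
    _ = (p1 * x * r * y * p1) * x * r := by rw [e1, e2]; noncomm_ring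
    _ = 0 := by rw [hcon x hx y hy, zero_mul, zero_mul]
  have X2 : ∀ y ∈ Kp G (-D), r * y * p1 = 0 := by
    intro y hy
    obtain ⟨w, hw⟩ : ∃ w, w = q1 * y * t + r * y * p1 := ⟨_, rfl⟩
    have hwK : w ∈ Kp G (-D) := by rw [hw]; exact F.T.inf_mem' h hr ht hy
    obtain ⟨x, hx, h1, -⟩ := kn_partner h hD hD2 hwK
    have e1 : r * w = r * y * p1 := by
      have : r * (q1 * y * t + r * y * p1) = (r * q1) * y * t + (r * r) * y * p1 := by
        noncomm_ring
      rw [hw, this, F.T.rr hr, F.T.rq1 hr]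
      simp
    have e2 : w * p1 = r * y * p1 := by
      have : (q1 * y * t + r * y * p1) * p1 = q1 * y * (t * p1) + r * y * (p1 * p1) := by
        noncomm_ring
      rw [hw, this, F.T.A.pp, F.T.tp1 ht]
      simp
    calc r * y * p1 = r * y * (p1 * p1) := by rw [F.T.A.pp]
    _ = (r * y * p1) * p1 := by noncomm_ring
    _ = r * (w * x * w) * p1 := by rw [← e1, h1]
    _ = (r * w) * x * (w * p1) := by noncomm_ring
    _ = r * y * (p1 * x * r) * y * p1 := by rw [e1, e2]; noncomm_ring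
    _ = 0 := by rw [X1 x hx]; simp
  have X3 : ∀ y ∈ Kp G (-D), q1 * y * t = 0 := by
    intro y hy
    have hst : st t = r := by
      rw [ht, map_sub, map_sub, hst1, F.T.A.sp, F.T.B.sp, hr]
    have e1 : st (q1 * y * t) = -(r * y * p1) := by
      rw [h.st_mul, h.st_mul, h.skew y hy.1, F.T.A.sq, hst]
      noncomm_ring
    have e2 := h.st_rk (q1 * y * t)
    rw [e1, X2 y hy, neg_zero, rk_zero] at e2
    exact rk_eq_zero e2.symm
  have X4 : ∀ y ∈ Kp G (-D), q2 * y * t = 0 := by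
    intro y hy
    have e1 := X3 _ (kp_tri' h F.T.A.dm F.co.1 hy)
    have e2 : q1 * (d1 * a * y + y * a * d1) * t = (q1 * d1) * a * y * t +
        q1 * y * a * (d1 * t) := by noncomm_ring
    rw [e2, F.T.A.qd, F.T.d1t ht, mul_zero, add_zero] at e1
    calc q2 * y * t = d2 * (a * d1 * a) * y * t := by rw [F.ada', F.T.B.dc]
    _ = d2 * a * (d1 * a * y * t) := by noncomm_ring
    _ = 0 := by rw [e1, mul_zero]
  have hDp1 : D * p1 = p1 := by rw [← F.T.A.cd, ← mul_assoc, F.T.A.cm.2.1]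
  have hDp2 : D * p2 = p2 := by rw [← F.T.B.cd, ← mul_assoc, F.T.B.cm.2.1]
  have hp1D : p1 * D = p1 := by rw [← F.T.A.cd, mul_assoc, (mem_Kn.1 F.T.A.dm).2.2]
  have hp2D : p2 * D = p2 := by rw [← F.T.B.cd, mul_assoc, (mem_Kn.1 F.T.B.dm).2.2]
  have hDt : ∀ v, D v = v → D (t v) = t v := by
    intro v hv
    have e1 : D * t = D - p1 - p2 := by
      rw [ht, mul_sub, mul_sub, mul_one, hDp1, hDp2]
    have e2 : (D * t) v = (D - p1 - p2) v := by rw [e1]
    have e3 : (D - p1 - p2) v = D v - p1 v - p2 v := rfl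
    have e4 : t v = v - p1 v - p2 v := by rw [ht]; rfl
    rw [e3, hv, ← e4] at e2
    exact e2
  have hpt : ∀ x ∈ Kp G D, ∀ y ∈ Kp G (-D), ∀ v, p1 (x (y (t v))) = 0 := by
    intro x hx y hy v
    have e1 : p1 * x * y * t = 0 := by
      have e2 : (1 : End K V) = q1 + q2 + r := by rw [hr]; abel
      calc p1 * x * y * t = p1 * x * 1 * y * t := by rw [mul_one]
      _ = p1 * x * (q1 * y * t) + p1 * x * (q2 * y * t) + (p1 * x * r) * y * t := by
        rw [e2]; noncomm_ring
      _ = 0 := by rw [X3 y hy, X4 y hy, X1 x hx]; simp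
    exact LinearMap.congr_fun e1 v
  have hεt : ∀ v, ε (t v) = t (ε v) := by
    intro v
    rw [ht]
    change ε (v - p1 v - p2 v) = ε v - p1 (ε v) - p2 (ε v)
    rw [map_sub, map_sub, eps_p b F.T.A, eps_p b F.T.B]
  have htv : ∀ v, D v = v → t v = 0 := by
    intro v hv
    have k1 : ε (t v) = 0 := by
      refine irr_zeroE h b F.T.A hirr ?_ (LinearMap.congr_fun b.idem _) fun x hx y hy => ?_
      · rw [← Module.End.mul_apply, ← b.comm D hD, Module.End.mul_apply, hDt v hv]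
      · rw [← eps_kp b hy, ← eps_kp b hx, ← eps_p b F.T.A, hpt x hx y hy, map_zero]
    have b' := b.symm h
    have k2 : (1 - ε) (t v) = 0 := by
      refine irr_zeroE h b' F.T.A hirr' ?_ (LinearMap.congr_fun b'.idem _) fun x hx y hy => ?_
      · rw [← Module.End.mul_apply, ← b'.comm D hD, Module.End.mul_apply, hDt v hv]
      · rw [← eps_kp b' hy, ← eps_kp b' hx, ← eps_p b' F.T.A, hpt x hx y hy, map_zero]
    have k3 : t v = ε (t v) + (1 - ε) (t v) := by
      rw [LinearMap.sub_apply, Module.End.one_apply]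
      abel
    rw [k3, k1, k2, add_zero]
  have e1 : t * (1 + D) = 0 := by
    refine LinearMap.ext fun v => ?_
    refine htv _ ?_
    have h3 : D * (1 + D) = 1 + D := by rw [mul_add, mul_one, hD2, add_comm]
    exact LinearMap.congr_fun h3 v
  have e2 : 1 + D = (2 : K) • p1 + (2 : K) • p2 := by
    have e3 : (1 - p1 - p2) * (1 + D) = 0 := by rw [← ht]; exact e1
    have e4 : (1 - p1 - p2) * (1 + D) = 1 + D - (p1 + p1 * D) - (p2 + p2 * D) := by
      noncomm_ring
    rw [e4, hp1D, hp2D, ← two_smul K p1, ← two_smul K p2, sub_sub, sub_eq_zero] at e3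
    exact e3
  have e3 : 1 - D = (2 : K) • q1 + (2 : K) • q2 := by
    have e4 := congrArg st e2
    rw [map_add, map_add, map_smul, map_smul, hst1, h.skew D hD, F.T.A.sp, F.T.B.sp] at e4
    rw [← e4, sub_eq_add_neg]
  exact ⟨e2, e3⟩

include h b F hr ht in
/-- There are paths through the rest of the space. -/
theorem exists_pathE (hD : D ∈ G) (hD2 : D * D = 1) (hirr : IrrE G ε D)
    (hirr' : IrrE G (1 - ε) D) (hne : trace K V (ε * D) ≠ 0) :
    ∃ x ∈ Kp G D, ∃ y ∈ Kp G (-D), p1 * x * r * y * p1 ≠ 0 := by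
  by_contra hcon
  push Not at hcon
  obtain ⟨e2, e3⟩ := no_path h b F hr ht hD hD2 hirr hirr' hcon
  have hpq : ∀ {c d p q : End K V}, MP G st D c d p q → trace K V (ε * p) = trace K V (ε * q) := by
    intro c d p q F
    rw [← F.cd, ← F.dc, ← mul_assoc, LinearMap.trace_mul_comm, b.comm c F.cm.1, ← mul_assoc,
      LinearMap.trace_mul_comm]
  have e4 := congrArg (fun z => trace K V (ε * z)) e2
  have e5 := congrArg (fun z => trace K V (ε * z)) e3
  simp only [mul_add, mul_sub, mul_one, mul_smul_comm, map_add, map_sub, map_smul, hpq F.T.A,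
    hpq F.T.B] at e4 e5
  apply hne
  have e6 : (2 : K) * trace K V (ε * D) = 0 := by linear_combination e4 - e5
  exact (mul_eq_zero.1 e6).resolve_left two_ne_zero

end fra

end Pool.Agent.Y91.G
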