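import Mathlib
import Pool.Agent.Y91.G.One

/-!
# Two dual summands: minimal elements have rank one (second part)
-/

set_option linter.unusedSectionVars false

namespace Pool.Agent.Y91.G

open Module LinearMap Pool.Agent.W548.Odd Pool.Agent.Y91.JP Pool.Agent.Y91.P

variable {K : Type*} [Field K] [CharZero K] {V : Type*} [AddCommGroup V] [Module K V]
  [FiniteDimensional K V]

variable {G I : Submodule K (End K V)} {st : End K V →ₗ[K] End K V} (h : Setup G st)
  {ε : End K V} (b : Blk G st ε)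

/-- The positive part of a summand. -/
def Pos (D ε : End K V) : Submodule K V where
  carrier := {v | D v = v ∧ ε v = v}
  zero_mem' := ⟨map_zero D, map_zero ε⟩
  add_mem' := fun {a b} ha hb => ⟨by rw [map_add, ha.1, hb.1], by rw [map_add, ha.2, hb.2]⟩
  smul_mem' := fun t a ha => ⟨by rw [map_smul, ha.1], by rw [map_smul, ha.2]⟩

include b in
/-- The dimension of the positive part. -/
theorem finrank_pos {D : End K V} (hD : D ∈ G) (hD2 : D * D = 1) :
    (2 : K) * (finrank K (Pos D ε) : K) = trace K V ε + trace K V (ε * D) := by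
  obtain ⟨q, hq⟩ : ∃ q, q = (2 : K)⁻¹ • (ε * (1 + D)) := ⟨_, rfl⟩
  have hεq : ε * q = q := by rw [hq, mul_smul_comm, ← mul_assoc, b.idem]
  have hDq : D * q = q := by
    have e1 : D * (1 + D) = 1 + D := by rw [mul_add, mul_one, hD2, add_comm]
    rw [hq, mul_smul_comm, ← mul_assoc, ← b.comm D hD, mul_assoc, e1]
  have h1 : ∀ v, D v = v → ε v = v → q v = v := by
    intro v hv hεv
    have e1 : q v = (2 : K)⁻¹ • ε (v + D v) := by rw [hq]; rfl
    rw [e1, hv, ← two_smul K, map_smul, hεv, smul_smul, inv_mul_cancel₀ two_ne_zero, one_smul]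
  have hqq : q * q = q := by
    refine LinearMap.ext fun v => ?_
    exact h1 _ (LinearMap.congr_fun hDq v) (LinearMap.congr_fun hεq v)
  have hr : LinearMap.range q = Pos D ε := by
    apply le_antisymm
    · rintro _ ⟨v, rfl⟩
      exact ⟨LinearMap.congr_fun hDq v, LinearMap.congr_fun hεq v⟩
    · rintro v ⟨hv, hεv⟩
      exact ⟨v, h1 v hv hεv⟩
  have h2 := trace_idem hqq
  unfold rk at h2
  rw [hr, hq, map_smul, mul_add, mul_one, map_add, smul_eq_mul] at h2
  rw [← h2, ← mul_assoc, mul_inv_cancel₀ two_ne_zero, one_mul]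

/-- No diagonal submodules. -/
def NoGr (G : Submodule K (End K V)) (ε D : End K V) : Prop :=
  ∀ W : Submodule K V, (∀ w ∈ W, D w = w) →
    (∀ x ∈ Kp G D, ∀ y ∈ Kp G (-D), ∀ w ∈ W, x (y w) ∈ W) → (∀ w ∈ W, ε w = w → w = 0) →
    (∀ w ∈ W, ε w = 0 → w = 0) → W = ⊥

include h b in
/-- There are no diagonal submodules if the trace of the involution is not zero. -/
theorem noGr_of_trace {D : End K V} (hD : D ∈ G) (hD2 : D * D = 1) (hirr : IrrE G ε D)
    (hirr' : IrrE G (1 - ε) D) (htr : TrSt st) (hne : trace K V (ε * D) ≠ 0) : NoGr G ε D := by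
  intro Wh hWD hst k1 k2
  by_contra h0
  apply hne
  have b' := b.symm h
  obtain ⟨w0, hw0, hw00⟩ := Submodule.exists_mem_ne_zero_of_ne_bot h0
  -- the projections
  have hpr : ∀ {e : End K V}, Blk G st e → IrrE G e D → (∀ w ∈ Wh, e w = 0 → w = 0) →
      finrank K Wh = finrank K (Pos D e) := by
    intro e b hirr hk
    have hmem : ∀ w : Wh, e w ∈ Pos D e := fun w => ⟨by
      rw [← Module.End.mul_apply, ← b.comm D hD, Module.End.mul_apply, hWD w w.2],
      LinearMap.congr_fun b.idem _⟩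
    let f : Wh →ₗ[K] Pos D e := (e.comp Wh.subtype).codRestrict (Pos D e) hmem
    have hinj : Function.Injective f := by
      rw [injective_iff_map_eq_zero]
      intro w hw
      apply Subtype.ext
      exact hk w w.2 (congrArg Subtype.val hw)
    have hsurj : Function.Surjective f := by
      have h3 := hirr (Wh.map e) (by
        rintro _ ⟨w, hw, rfl⟩
        exact hmem ⟨w, hw⟩) (by
        rintro x hx y hy _ ⟨w, hw, rfl⟩
        exact ⟨x (y w), hst x hx y hy w hw, by rw [eps_kp b hx, eps_kp b hy]⟩)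
      rcases h3 with h3 | h3
      · exfalso
        have h4 : e w0 ∈ Wh.map e := ⟨w0, hw0, rfl⟩
        rw [h3] at h4
        exact hw00 (hk _ hw0 h4)
      · rintro ⟨v, hv1, hv2⟩
        obtain ⟨w, hw, hwv⟩ := h3 v hv1 hv2
        exact ⟨⟨w, hw⟩, Subtype.ext hwv⟩
    exact (LinearEquiv.ofBijective f ⟨hinj, hsurj⟩).finrank_eq
  have e1 := hpr b hirr k2
  have e2 := hpr b' hirr' fun w hw hew => k1 w hw (by
    rw [LinearMap.sub_apply, Module.End.one_apply, sub_eq_zero] at hew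
    exact hew.symm)
  have e3 := finrank_pos b hD hD2
  have e4 := finrank_pos b' hD hD2
  rw [← e1] at e3
  rw [← e2, trace_eps h b htr, trace_eps_neg h b htr hD] at e4
  have e5 : (2 : K) * trace K V (ε * D) = 0 := by linear_combination e4 - e3
  exact (mul_eq_zero.1 e5).resolve_left two_ne_zero

section graph

variable {D c d p q : End K V} (F : MP G st D c d p q)

include h b F

/-- A stable subspace of the range of `p` which meets the summands trivially. -/
theorem graph (hirr : IrrE G ε D) (hirr' : IrrE G (1 - ε) D) (hno : NoGr G ε D)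
    {W : Submodule K V} (hp : ∀ w ∈ W, p w = w)
    (hW : ∀ x ∈ Kp G D, ∀ y ∈ Kp G (-D), ∀ w ∈ W, p (x (y w)) ∈ W)
    (h1 : ∀ w ∈ W, ε w = w → w = 0) (h2 : ∀ w ∈ W, ε w = 0 → w = 0) : W = ⊥ := by
  have b' := b.symm h
  let Wh : Submodule K V :=
    { carrier := {v | D v = v ∧ ∀ x ∈ Kp G D, ∀ y ∈ Kp G (-D), p (x (y v)) ∈ W}
      zero_mem' := ⟨map_zero D, fun x _ y _ => by
        rw [map_zero, map_zero, map_zero]
        exact W.zero_mem⟩
      add_mem' := fun {a b} ha hb => ⟨by rw [map_add, ha.1, hb.1], fun x hx y hy => by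
        rw [map_add, map_add, map_add]
        exact W.add_mem (ha.2 x hx y hy) (hb.2 x hx y hy)⟩
      smul_mem' := fun t a ha => ⟨by rw [map_smul, ha.1], fun x hx y hy => by
        rw [map_smul, map_smul, map_smul]
        exact W.smul_mem t (ha.2 x hx y hy)⟩ }
  have hDp : D * p = p := by rw [← F.cd, ← mul_assoc, F.cm.2.1]
  have hle : ∀ w ∈ W, w ∈ Wh := fun w hw => ⟨by
    rw [← hp w hw]
    exact LinearMap.congr_fun hDp w, fun x hx y hy => hW x hx y hy w hw⟩
  have hst : ∀ x ∈ Kp G D, ∀ y ∈ Kp G (-D), ∀ w ∈ Wh, x (y w) ∈ Wh := by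
    rintro x hx y hy w ⟨-, hw⟩
    exact ⟨LinearMap.congr_fun hx.2.1 (y w), F.stab h hW hw hx hy⟩
  have k1 : ∀ w ∈ Wh, ε w = w → w = 0 := by
    rintro w ⟨hw1, hw2⟩ hεw
    refine irr_zeroE h b F hirr hw1 hεw fun x hx y hy => h1 _ (hw2 x hx y hy) ?_
    rw [eps_p b F, eps_kp b hx, eps_kp b hy, hεw]
  have k2 : ∀ w ∈ Wh, ε w = 0 → w = 0 := by
    rintro w ⟨hw1, hw2⟩ hεw
    refine irr_zeroE h b' F hirr' hw1 ?_ fun x hx y hy => h2 _ (hw2 x hx y hy) ?_
    · rw [LinearMap.sub_apply, hεw, sub_zero, Module.End.one_apply]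
    · rw [eps_p b F, eps_kp b hx, eps_kp b hy, hεw, map_zero, map_zero, map_zero]
  have h3 := hno Wh (fun w hw => hw.1) hst k1 k2
  rw [Submodule.eq_bot_iff]
  intro w hw
  have h4 := hle w hw
  rw [h3] at h4
  exact h4

theorem rk_eps_symm : rk ((1 - ε) * c) = rk (ε * c) := by
  rw [← h.st_rk (ε * c), h.st_mul, h.skew c F.cm.1, b.st, neg_mul, rk_neg,
    ← b.comm' c F.cm.1]

end graph

section fra

variable {D c1 d1 p1 q1 c2 d2 p2 q2 r t a : End K V}
  (F : Fra G st D c1 d1 p1 q1 c2 d2 p2 q2 a)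
  (hr : r = 1 - q1 - q2) (ht : t = 1 - p1 - p2)

include h b F hr ht

theorem nn_p1 {n : End K V} (hn : n ∈ Fra.NN G D p1 r) : p1 * n = n := by
  obtain ⟨x, hx, hnx⟩ := F.path_form h hr ht n hn
  rw [hnx]
  calc p1 * (p1 * x * d2 * a * d1) = (p1 * p1) * x * d2 * a * d1 := by noncomm_ring
  _ = _ := by rw [F.T.A.pp]

/-- Paths that are zero on the second summand are scalars. -/
theorem scal_of_zero {n : End K V} (hn : n ∈ Fra.NN G D p1 r) (h0 : (1 - ε) * n = 0) :
    ∃ s : K, n = s • (ε * p1) := by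
  obtain ⟨x, hx, hnx⟩ := F.path_form h hr ht n hn
  obtain ⟨s, hs⟩ := F.transp h hx
  refine ⟨s, ?_⟩
  have hεn : ε * n = n := by
    rw [sub_mul, one_mul, sub_eq_zero] at h0
    exact h0.symm
  have e1 : st n = d1 * a * d2 * x * q1 := by
    rw [hnx, h.st_mul, h.st_mul, h.st_mul, h.st_mul, h.skew d1 F.T.A.dm.1,
      h.skew d2 F.T.B.dm.1, h.skew a F.co.1.1, h.skew x hx.1, F.T.A.sp]
    noncomm_ring
  have e2 : p1 * a * d2 * x * d1 = c1 * st n * d1 := by
    rw [e1]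
    calc p1 * a * d2 * x * d1 = (c1 * d1) * a * d2 * x * (q1 * d1) := by rw [F.T.A.cd, F.T.A.qd]
    _ = _ := by noncomm_ring
  have e3 : st n * ε = 0 := by
    have e4 := congrArg st h0
    have b' := b.symm h
    rw [h.st_mul, map_zero, b'.st, sub_sub_cancel] at e4
    exact e4
  have e4 : c1 * st n * d1 * ε = 0 := by
    rw [mul_assoc, ← b.comm d1 F.T.A.dm.1, mul_assoc, ← mul_assoc (st n), e3, zero_mul, mul_zero]
  have hnε : n * ε = n := by
    rw [hnx]
    have c0 : ∀ x ∈ G, ∀ z : End K V, ε * (x * z) = x * (ε * z) := by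
      intro x hx z
      rw [← mul_assoc, b.comm x hx, mul_assoc]
    have c1' : ε * p1 = p1 * ε := by
      rw [← F.T.A.cd, c0 _ F.T.A.cm.1, b.comm _ F.T.A.dm.1, mul_assoc]
    have e5 : p1 * x * d2 * a * d1 * ε = ε * (p1 * x * d2 * a * d1) := by
      simp only [mul_assoc]
      rw [← b.comm d1 F.T.A.dm.1, ← c0 a F.co.1.1, ← c0 d2 F.T.B.dm.1, ← c0 x hx.1, ← mul_assoc,
        ← c1', mul_assoc]
    rw [e5, ← hnx, hεn]
  have c1' : ε * p1 = p1 * ε := by
    rw [← F.T.A.cd, ← mul_assoc, b.comm c1 F.T.A.cm.1, mul_assoc, b.comm d1 F.T.A.dm.1, mul_assoc]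
  calc n = n * ε + c1 * st n * d1 * ε := by rw [e4, add_zero, hnε]
  _ = (p1 * x * d2 * a * d1 + p1 * a * d2 * x * d1) * ε := by rw [add_mul, e2, ← hnx]
  _ = s • (ε * p1) := by rw [hs, smul_mul_assoc, c1']

theorem rk_of_zero (hirr : IrrE G ε D) {n : End K V} (hn : n ∈ Fra.NN G D p1 r)
    (h0 : (1 - ε) * n = 0) (hn0 : n ≠ 0) : rk (ε * c1) = 1 := by
  obtain ⟨s, hs⟩ := scal_of_zero h b F hr ht hn h0
  have hs0 : s ≠ 0 := by
    rintro rfl
    apply hn0
    rw [hs, zero_smul]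
  have c0 : ∀ x ∈ G, ∀ z : End K V, ε * (x * z) = x * (ε * z) := by
    intro x hx z
    rw [← mul_assoc, b.comm x hx, mul_assoc]
  have c1' : ε * p1 = p1 * ε := by
    rw [← F.T.A.cd, c0 _ F.T.A.cm.1, b.comm _ F.T.A.dm.1, mul_assoc]
  have c2' : ∀ z : End K V, ε * (p1 * z) = p1 * (ε * z) := by
    intro z
    rw [← mul_assoc, c1', mul_assoc]
  refine rk_line h b F.T.A hirr fun x hx y hy => ?_
  have h1 := F.op_left h hr ht hx hy n hn
  have h2 : (1 - ε) * (p1 * x * y * p1 * n) = 0 := by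
    have h3 : (1 - ε) * (p1 * x * y * p1 * n) = p1 * x * y * p1 * ((1 - ε) * n) := by
      rw [sub_mul, one_mul, sub_mul, mul_sub, one_mul]
      congr 1
      simp only [mul_assoc]
      rw [c2', c0 x hx.1, c0 y hy.1, c2']
    rw [h3, h0, mul_zero]
  obtain ⟨s', hs'⟩ := scal_of_zero h b F hr ht h1 h2
  refine ⟨s⁻¹ * s', ?_⟩
  have h3 : p1 * x * y * p1 * n = s • (ε * (p1 * x * y * p1)) := by
    rw [hs, mul_smul_comm]
    congr 1
    calc p1 * x * y * p1 * (ε * p1) = p1 * x * y * (p1 * (ε * p1)) := by noncomm_ring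
    _ = p1 * x * y * (ε * p1) := by rw [← c2', F.T.A.pp]
    _ = p1 * (x * (y * (ε * p1))) := by noncomm_ring
    _ = ε * (p1 * x * y * p1) := by
      rw [← c0 y hy.1, ← c0 x hx.1, ← c2']
      noncomm_ring
  rw [h3] at hs'
  rw [mul_smul, ← hs', smul_smul, inv_mul_cancel₀ hs0, one_smul]

/-- **Minimal elements have rank one on the summands** if there are no diagonal submodules. -/
theorem rk_oneE (hirr : IrrE G ε D) (hirr' : IrrE G (1 - ε) D) (hno : NoGr G ε D)
    (hpath : ∃ x ∈ Kp G D, ∃ y ∈ Kp G (-D), p1 * x * r * y * p1 ≠ 0) :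
    rk (ε * c1) = 1 := by
  classical
  have b' := b.symm h
  obtain ⟨x0, hx0, y0, hy0, hxy⟩ := hpath
  have hn0 : p1 * x0 * r * y0 * p1 ∈ Fra.NN G D p1 r := Submodule.subset_span ⟨x0, hx0, y0, hy0, rfl⟩
  by_cases hA : ∃ n ∈ Fra.NN G D p1 r, n ≠ 0 ∧ (1 - ε) * n = 0
  · obtain ⟨n, hn, hn1, hn2⟩ := hA
    exact rk_of_zero h b F hr ht hirr hn hn2 hn1
  by_cases hB : ∃ n ∈ Fra.NN G D p1 r, n ≠ 0 ∧ ε * n = 0
  · obtain ⟨n, hn, hn1, hn2⟩ := hB
    rw [← rk_eps_symm h b F.T.A]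
    exact rk_of_zero h b' F hr ht hirr' hn (by rw [sub_sub_cancel]; exact hn2) hn1
  push Not at hA hB
  exfalso
  have hA' : ∀ n ∈ Fra.NN G D p1 r, (1 - ε) * n = 0 → n = 0 := fun n hn h0 => by
    by_contra h1
    exact hA n hn h1 h0
  have hB' : ∀ n ∈ Fra.NN G D p1 r, ε * n = 0 → n = 0 := fun n hn h0 => by
    by_contra h1
    exact hB n hn h1 h0
  -- a minimal left stable subspace
  let P : ℕ → Prop := fun k => ∃ S : Submodule K (End K V), S ≤ Fra.NN G D p1 r ∧ S ≠ ⊥ ∧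
    (∀ x ∈ Kp G D, ∀ y ∈ Kp G (-D), ∀ n ∈ S, p1 * x * y * n ∈ S) ∧ finrank K S = k
  have hpn : ∀ n ∈ Fra.NN G D p1 r, p1 * n = n := fun n hn => nn_p1 h b F hr ht hn
  have hP : ∃ k, P k := ⟨_, Fra.NN G D p1 r, le_rfl, by
    intro h0
    rw [h0] at hn0
    exact hxy hn0, fun x hx y hy n hn => by
    have h1 := F.op_left h hr ht hx hy n hn
    rwa [mul_assoc _ p1 n, hpn n hn] at h1, rfl⟩
  obtain ⟨S, hSN, hS0, hSs, hSk⟩ := Nat.find_spec hP
  have hmin : ∀ v : V, (∃ n ∈ S, n v ≠ 0) → ∀ n ∈ S, n v = 0 → n = 0 := by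
    rintro v ⟨n1, hn1, hn1v⟩
    let S' : Submodule K (End K V) :=
      { carrier := {n | n ∈ S ∧ n v = 0}
        zero_mem' := ⟨S.zero_mem, rfl⟩
        add_mem' := fun {a b} ha hb => ⟨S.add_mem ha.1 hb.1, by
          rw [LinearMap.add_apply, ha.2, hb.2, add_zero]⟩
        smul_mem' := fun t a ha => ⟨S.smul_mem t ha.1, by
          rw [LinearMap.smul_apply, ha.2, smul_zero]⟩ }
    by_cases hS' : S' = ⊥
    · intro n hn hnv
      have h1 : n ∈ S' := ⟨hn, hnv⟩
      rw [hS'] at h1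
      exact h1
    · exfalso
      have h1 := Nat.find_min' hP (m := finrank K S') ⟨S', fun n hn => hSN hn.1, hS',
        fun x hx y hy n hn => ⟨hSs x hx y hy n hn.1, by
          change p1 (x (y (n v))) = 0
          rw [hn.2, map_zero, map_zero, map_zero]⟩, rfl⟩
      rw [← hSk] at h1
      have h2 : S' ≤ S := fun n hn => hn.1
      have h3 := Submodule.eq_of_le_of_finrank_le h2 h1
      have h4 : n1 ∈ S' := by
        rw [h3]
        exact hn1
      exact hn1v h4.2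
  obtain ⟨n0, hn0S, hn00⟩ := Submodule.exists_mem_ne_zero_of_ne_bot hS0
  -- the projection commutes with the paths
  have hcomm : ∀ n ∈ Fra.NN G D p1 r, ε * n = n * ε := by
    intro n hn
    obtain ⟨x, hx, hnx⟩ := F.path_form h hr ht n hn
    have c0 : ∀ x ∈ G, ∀ z : End K V, ε * (x * z) = x * (ε * z) := by
      intro x hx z
      rw [← mul_assoc, b.comm x hx, mul_assoc]
    have c1' : ε * p1 = p1 * ε := by
      rw [← F.T.A.cd, c0 _ F.T.A.cm.1, b.comm _ F.T.A.dm.1, mul_assoc]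
    rw [hnx]
    simp only [mul_assoc]
    rw [← b.comm d1 F.T.A.dm.1, ← c0 a F.co.1.1, ← c0 d2 F.T.B.dm.1, ← c0 x hx.1, ← mul_assoc,
      c1', mul_assoc]
  obtain ⟨v', hv'⟩ : ∃ v, (ε * n0) v ≠ 0 := by
    by_contra hcon
    push Not at hcon
    exact hn00 (hB' n0 (hSN hn0S) (LinearMap.ext hcon))
  obtain ⟨w', hw'⟩ : ∃ v, ((1 - ε) * n0) v ≠ 0 := by
    by_contra hcon
    push Not at hcon
    exact hn00 (hA' n0 (hSN hn0S) (LinearMap.ext hcon))
  obtain ⟨v, hv⟩ : ∃ v, v = ε v' := ⟨_, rfl⟩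
  obtain ⟨w, hw⟩ : ∃ w, w = (1 - ε) w' := ⟨_, rfl⟩
  have hnv : n0 v ≠ 0 := by
    rw [hv]
    rw [hcomm n0 (hSN hn0S)] at hv'
    exact hv'
  have hnw : n0 w ≠ 0 := by
    rw [hw]
    have e1 : (1 - ε) * n0 = n0 * (1 - ε) := by
      rw [sub_mul, mul_sub, one_mul, mul_one, hcomm n0 (hSN hn0S)]
    rw [e1] at hw'
    exact hw'
  have hεv : ε v = v := by
    rw [hv]
    exact LinearMap.congr_fun b.idem v'
  have hεw : ε w = 0 := by
    rw [hw]
    exact LinearMap.congr_fun b.e0 w'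
  have hεn : ∀ n ∈ S, ε (n (v + w)) = n v := by
    intro n hn
    have e1 := LinearMap.congr_fun (hcomm n (hSN hn)) (v + w)
    rw [Module.End.mul_apply, Module.End.mul_apply, map_add ε, hεv, hεw, add_zero] at e1
    exact e1
  have hWbot : S.map (LinearMap.applyₗ (v + w) : End K V →ₗ[K] V) = ⊥ := by
    refine graph h b F.T.A hirr hirr' hno ?_ ?_ ?_ ?_
    · rintro _ ⟨n, hn, rfl⟩
      exact LinearMap.congr_fun (hpn n (hSN hn)) (v + w)
    · rintro x hx y hy _ ⟨n, hn, rfl⟩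
      exact ⟨_, hSs x hx y hy n hn, rfl⟩
    · rintro _ ⟨n, hn, rfl⟩ hε
      have e1 : ε (n (v + w)) = n (v + w) := hε
      rw [hεn n hn, map_add, left_eq_add] at e1
      have e2 := hmin w ⟨n0, hn0S, hnw⟩ n hn e1
      rw [e2]
      exact map_zero _
    · rintro _ ⟨n, hn, rfl⟩ hε
      have e1 : ε (n (v + w)) = 0 := hε
      rw [hεn n hn] at e1
      have e2 := hmin v ⟨n0, hn0S, hnv⟩ n hn e1
      rw [e2]
      exact map_zero _
  have e1 : n0 (v + w) ∈ S.map (LinearMap.applyₗ (v + w) : End K V →ₗ[K] V) := ⟨n0, hn0S, rfl⟩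
  rw [hWbot] at e1
  have e2 := hεn n0 hn0S
  rw [(Submodule.mem_bot K).1 e1, map_zero] at e2
  exact hnv e2.symm

end fra

end Pool.Agent.Y91.G
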