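import Mathlib
import Pool.Agent.Y91.G.One2
import Pool.Agent.Y91.JP.Ext3

/-!
# Two dual summands: no orthogonal elements
-/

set_option linter.unusedSectionVars false

namespace Pool.Agent.Y91.G

open Module LinearMap Pool.Agent.W548.Odd Pool.Agent.Y91.JP Pool.Agent.Y91.P

variable {K : Type*} [Field K] [CharZero K] {V : Type*} [AddCommGroup V] [Module K V]
  [FiniteDimensional K V]

variable {G I : Submodule K (End K V)} {st : End K V →ₗ[K] End K V} (h : Setup G st)
  {ε : End K V} (b : Blk G st ε)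

section prim

variable {D c d p q : End K V} (F : MP G st D c d p q)

include h F

/-- Elements `s c + u` with `s` not zero. -/
theorem prim_gen (hD : D ∈ G) (hD2 : D * D = 1)
    (hcon : ∀ x ∈ Kp G D, x - p * x - x * q + p * x * q = 0) {u : End K V} (hu : u ∈ Kp G D)
    (hpu : p * u * q = 0) {s : K} (hs : s ≠ 0) {y : End K V} (hy : y ∈ G) :
    (s • c + u) * y * (s • c + u) =
      ((rk c : K)⁻¹ * trace K V ((s • c + u) * y)) • (s • c + u) := by
  have hm : rk c ≠ 0 := (rk_pos_of_ne F.ne).ne'
  obtain ⟨x, hxd⟩ : ∃ x, x = s • c + u := ⟨_, rfl⟩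
  rw [← hxd]
  have hx : x ∈ Kp G D := by
    rw [hxd]
    exact Submodule.add_mem _ (Submodule.smul_mem _ _ F.cm) hu
  have e0 : p * u + u * q = u := by
    have h1 := hcon u hu
    rw [hpu, add_zero, sub_sub, sub_eq_zero] at h1
    exact h1.symm
  have dud : d * u * d = 0 := by
    have h1 : d * u * d = d * u * d + d * u * d := by
      calc d * u * d = d * (p * u + u * q) * d := by rw [e0]
      _ = (d * p) * u * d + d * u * (q * d) := by noncomm_ring
      _ = _ := by rw [F.dp, F.qd]
    have h2 : d * u * d + 0 = d * u * d + d * u * d := by rw [add_zero]; exact h1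
    exact (add_left_cancel h2).symm
  have udK : u * d * u ∈ Kp G D := by
    refine ⟨h.quad hu.1 (kp_sq hu) F.dm.1, ?_, ?_⟩
    · rw [← mul_assoc, ← mul_assoc, hu.2.1]
    · rw [mul_assoc, hu.2.2, mul_neg]
  have udu : u * d * u = 0 := by
    have h1 : p * (u * d * u) = 0 := by
      have h2 : p * u = u - u * q := eq_sub_of_add_eq e0
      calc p * (u * d * u) = (p * u) * d * u := by noncomm_ring
      _ = u * d * u - u * (q * d) * u := by rw [h2]; noncomm_ring
      _ = 0 := by rw [F.qd, sub_self]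
    have h2 : (u * d * u) * q = 0 := by
      have h2 : u * q = u - p * u := eq_sub_of_add_eq' e0
      calc (u * d * u) * q = u * d * (u * q) := by noncomm_ring
      _ = u * d * u - u * (d * p) * u := by rw [h2]; noncomm_ring
      _ = 0 := by rw [F.dp, sub_self]
    have h3 := hcon _ udK
    rw [h1, h2, zero_mul, sub_zero, sub_zero, add_zero] at h3
    exact h3
  have hdd : d * d = 0 := kp_zero F.dm F.dm
  have huu : u * u = 0 := kp_zero hu hu
  have huc : u * c = 0 := kp_zero hu F.cm
  have hcu : c * u = 0 := kp_zero F.cm hu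
  obtain ⟨z, hz⟩ : ∃ z, z = s⁻¹ • (u * d - d * u) := ⟨_, rfl⟩
  have hzG : z ∈ G := by
    rw [hz]
    exact G.smul_mem _ (h.br u hu.1 d F.dm.1)
  have hzz : z * z = 0 := by
    have h1 : (u * d - d * u) * (u * d - d * u) = u * (d * u * d) - u * (d * d) * u -
        d * (u * u) * d + (d * u * d) * u := by noncomm_ring
    rw [hz, smul_mul_smul_comm, h1, dud, hdd, huu]
    simp
  have hzc : z * (s • c) = u * q := by
    have h1 : (u * d - d * u) * c = u * q - d * (u * c) := by
      rw [← F.dc]
      noncomm_ring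
    rw [hz, smul_mul_smul_comm, inv_mul_cancel₀ hs, one_smul, h1, huc, mul_zero, sub_zero]
  have hcz : s • c * z = -(p * u) := by
    have h1 : c * (u * d - d * u) = (c * u) * d - p * u := by
      rw [← F.cd]
      noncomm_ring
    rw [hz, smul_mul_smul_comm, mul_inv_cancel₀ hs, one_smul, h1, hcu, zero_mul, zero_sub]
  have hzcz : z * (s • c) * z = 0 := by
    rw [hzc, hz, mul_smul_comm]
    have h1 : u * q * (u * d - d * u) = u * d * (c * u) * d - u * (q * d) * u := by
      rw [← F.dc]
      noncomm_ring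
    rw [h1, hcu, F.qd, udu]
    simp
  have hgx : (1 + z) * (s • c) * (1 - z) = x := by
    have h1 : ∀ w : End K V, (1 + z) * w * (1 - z) = w + z * w - w * z - z * w * z := by
      intro w
      noncomm_ring
    rw [h1, hzc, hcz, ← hzc, hzcz, hxd, hzc, sub_zero, sub_neg_eq_add, add_assoc,
      add_comm (u * q), e0]
  have hg1 : (1 + z) * (1 - z) = 1 := by
    have h1 : (1 + z) * (1 - z) = 1 - z * z := by noncomm_ring
    rw [h1, hzz, sub_zero]
  have hg2 : (1 - z) * (1 + z) = 1 := by
    have h1 : (1 - z) * (1 + z) = 1 - z * z := by noncomm_ring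
    rw [h1, hzz, sub_zero]
  have hr : rk x = rk c := by
    apply le_antisymm
    · rw [← hgx, ← rk_smul hs c]
      exact (rk_mul_le_left _ _).trans (rk_mul_le_right _ _)
    · have h1 : s • c = (1 - z) * x * (1 + z) := by
        rw [← hgx]
        calc s • c = 1 * (s • c) * 1 := by rw [one_mul, mul_one]
        _ = ((1 - z) * (1 + z)) * (s • c) * ((1 - z) * (1 + z)) := by rw [hg2]
        _ = _ := by noncomm_ring
      rw [← rk_smul hs c, h1]
      exact (rk_mul_le_left _ _).trans (rk_mul_le_right _ _)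
  refine prim_scalar hm (fun _ => hr) ?_ ?_
  · obtain ⟨f, -, hf, -⟩ := kp_partner h hD hD2 hx
    exact ⟨f, hf⟩
  · have hy' : (1 - z) * y * (1 + z) ∈ G := by
      have h1 : (1 - z) * y * (1 + z) = y - (z * y - y * z) - z * y * z := by noncomm_ring
      rw [h1]
      exact G.sub_mem (G.sub_mem hy (h.br z hzG y hy)) (h.quad hzG hzz hy)
    obtain ⟨l, hl⟩ := F.min _ hy'
    refine ⟨s * l, ?_⟩
    calc x * y * x = ((1 + z) * (s • c) * (1 - z)) * y * ((1 + z) * (s • c) * (1 - z)) := by
          rw [hgx]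
    _ = (s * s) • ((1 + z) * (c * ((1 - z) * y * (1 + z)) * c) * (1 - z)) := by
          simp only [mul_smul_comm, smul_mul_assoc, smul_smul]
          congr 1 <;> noncomm_ring
    _ = (s * l) • ((1 + z) * (s • c) * (1 - z)) := by
          rw [hl]
          simp only [mul_smul_comm, smul_mul_assoc, smul_smul]
          congr 1 <;> ring
    _ = (s * l) • x := by rw [hgx]

/-- All elements of the positive part are primitive. -/
theorem prim_all (hD : D ∈ G) (hD2 : D * D = 1)
    (hcon : ∀ x ∈ Kp G D, x - p * x - x * q + p * x * q = 0) {x : End K V} (hx : x ∈ Kp G D)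
    {y : End K V} (hy : y ∈ G) : x * y * x = ((rk c : K)⁻¹ * trace K V (x * y)) • x := by
  obtain ⟨s, hs⟩ := F.mx x hx.1
  obtain ⟨u, hu⟩ : ∃ u, u = x - s • c := ⟨_, rfl⟩
  have hx' : x = s • c + u := by rw [hu]; abel
  have huK : u ∈ Kp G D := by
    rw [hu]
    exact Submodule.sub_mem _ hx (Submodule.smul_mem _ _ F.cm)
  have hpu : p * u * q = 0 := by
    rw [hu, mul_sub, sub_mul, hs, mul_smul_comm, smul_mul_assoc, F.pc, F.cq, sub_self]
  by_cases hs0 : s = 0
  · have h1 := prim_gen h F hD hD2 hcon huK hpu (one_ne_zero (α := K)) hy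
    have h2 := prim_gen h F hD hD2 hcon huK hpu (neg_ne_zero.2 (one_ne_zero (α := K))) hy
    have h3 := prim_gen h F hD hD2 hcon huK hpu (two_ne_zero (α := K)) hy
    rw [hx', hs0, zero_smul, zero_add]
    obtain ⟨m, hm⟩ : ∃ m, m = (rk c : K)⁻¹ := ⟨_, rfl⟩
    obtain ⟨tc, htc⟩ : ∃ t, t = trace K V (c * y) := ⟨_, rfl⟩
    obtain ⟨tu, htu⟩ : ∃ t, t = trace K V (u * y) := ⟨_, rfl⟩
    have key : ∀ t : K, (t • c + u) * y * (t • c + u) - (m * trace K V ((t • c + u) * y)) •
        (t • c + u) = (u * y * u - (m * tu) • u) + t • ((c * y * u + u * y * c) -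
          (m * tu) • c - (m * tc) • u) + (t * t) • (c * y * c - (m * tc) • c) := by
      intro t
      have e1 : (t • c + u) * y * (t • c + u) = (t * t) • (c * y * c) + t • (c * y * u) +
          t • (u * y * c) + u * y * u := by
        simp only [add_mul, mul_add, smul_mul_assoc, mul_smul_comm, smul_smul, smul_add]
        abel
      have e2 : trace K V ((t • c + u) * y) = t * tc + tu := by
        rw [add_mul, map_add, smul_mul_assoc, map_smul, ← htc, ← htu, smul_eq_mul]
      rw [e1, e2]
      module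
    rw [← hm] at h1 h2 h3 ⊢
    have k1 := key 1
    have k2 := key (-1)
    have k3 := key 2
    rw [h1, sub_self] at k1
    rw [h2, sub_self] at k2
    rw [h3, sub_self] at k3
    rw [← htu]
    obtain ⟨A, hA⟩ : ∃ A, A = u * y * u - (m * tu) • u := ⟨_, rfl⟩
    obtain ⟨B, hB⟩ : ∃ B, B = (c * y * u + u * y * c) - (m * tu) • c - (m * tc) • u := ⟨_, rfl⟩
    obtain ⟨E, hE⟩ : ∃ E, E = c * y * c - (m * tc) • c := ⟨_, rfl⟩
    rw [← hA, ← hB, ← hE] at k1 k2 k3
    have k4 : (3 : K) • A = (3 : K) • (A + (1 : K) • B + (1 * 1 : K) • E) +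
        (A + (-1 : K) • B + (-1 * -1 : K) • E) - (A + (2 : K) • B + (2 * 2 : K) • E) := by module
    rw [← k1, ← k2, ← k3, smul_zero, add_zero, sub_zero] at k4
    have k5 := (smul_eq_zero.1 k4).resolve_left (by norm_num)
    rw [hA, sub_eq_zero] at k5
    exact k5
  · rw [hx']
    exact prim_gen h F hD hD2 hcon huK hpu hs0 hy

/-- All elements of the negative part are primitive. -/
theorem prim_all' (hD : D ∈ G) (hD2 : D * D = 1)
    (hcon : ∀ x ∈ Kp G D, x - p * x - x * q + p * x * q = 0) {y : End K V}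
    (hy : y ∈ Kp G (-D)) {x : End K V} (hx : x ∈ Kp G D) :
    y * x * y = ((rk c : K)⁻¹ * trace K V (y * x)) • y := by
  have hyx : y * x * y ∈ Kp G (-D) := by
    refine ⟨h.quad hy.1 (kp_sq hy) hx.1, ?_, ?_⟩
    · rw [← mul_assoc, ← mul_assoc, hy.2.1]
    · rw [mul_assoc, hy.2.2, mul_neg]
  rw [← sub_eq_zero]
  refine kn_nondeg h hD hD2 (Submodule.sub_mem _ hyx (Submodule.smul_mem _ _ hy)) fun z hz => ?_
  have h1 := prim_polar (prim_all h F hD hD2 hcon hx hy.1) (prim_all h F hD hD2 hcon hz hy.1)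
    (prim_all h F hD hD2 hcon (Submodule.add_mem _ hx hz) hy.1)
  have h2 := congrArg (fun w => trace K V (w * y)) h1
  simp only [add_mul, map_add, smul_mul_assoc, map_smul, smul_eq_mul] at h2
  have h3 : trace K V (x * y * z * y) = trace K V (z * y * x * y) := by
    calc trace K V (x * y * z * y) = trace K V ((x * y) * (z * y)) := by rw [mul_assoc]
    _ = trace K V ((z * y) * (x * y)) := LinearMap.trace_mul_comm K _ _
    _ = _ := by rw [← mul_assoc]
  rw [mul_sub, map_sub, mul_smul_comm, map_smul, smul_eq_mul, LinearMap.trace_mul_comm K y x]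
  have h4 : z * (y * x * y) = z * y * x * y := by noncomm_ring
  rw [h3] at h2
  rw [h4]
  have h5 : (2 : K) * (trace K V (z * y * x * y) - (rk c : K)⁻¹ * trace K V (x * y) *
      trace K V (z * y)) = 0 := by linear_combination h2
  exact (mul_eq_zero.1 h5).resolve_left two_ne_zero

end prim

end Pool.Agent.Y91.G
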