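import Mathlib
import Pool.Agent.Y91.G.Exc

/-!
# Two dual summands: exterior powers
-/

set_option linter.unusedSectionVars false

namespace Pool.Agent.Y91.G

open Module LinearMap Pool.Agent.W548.Odd Pool.Agent.Y91.JP Pool.Agent.Y91.P

variable {K : Type*} [Field K] [CharZero K] {V : Type*} [AddCommGroup V] [Module K V]
  [FiniteDimensional K V]

/-- Restriction to the range of an idempotent. -/
noncomputable def RE (ε : End K V) : End K V →ₗ[K] End K (LinearMap.range ε) where
  toFun z := (ε.rangeRestrict).comp (z.comp (LinearMap.range ε).subtype)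
  map_add' x y := by
    rw [LinearMap.add_comp, LinearMap.comp_add]
  map_smul' c x := by
    rw [LinearMap.smul_comp, LinearMap.comp_smul]
    rfl

theorem RE_coe (ε z : End K V) (v : LinearMap.range ε) :
    ((RE ε z v : LinearMap.range ε) : V) = ε (z v) := rfl

section re

variable {ε : End K V} (hε : ε * ε = ε)

include hε

theorem eps_of_range (v : LinearMap.range ε) : ε (v : V) = v := by
  obtain ⟨_, w, rfl⟩ := v
  exact LinearMap.congr_fun hε w

theorem RE_mul {x : End K V} (y : End K V) (hx : ε * x = x * ε) :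
    RE ε (x * y) = RE ε x * RE ε y := by
  refine LinearMap.ext fun v => Subtype.ext ?_
  rw [Module.End.mul_apply, RE_coe, RE_coe, RE_coe]
  change ε (x (y v)) = ε (x (ε (y v)))
  have h1 : ∀ w, ε (x (ε w)) = ε (x w) := by
    intro w
    have h2 : ε * x * ε = ε * x := by rw [mul_assoc, ← hx, ← mul_assoc, hε]
    exact LinearMap.congr_fun h2 w
  rw [h1]

theorem RE_one : RE ε 1 = 1 := by
  refine LinearMap.ext fun v => Subtype.ext ?_
  rw [RE_coe]
  exact eps_of_range hε v

theorem RE_apply {x : End K V} (hx : ε * x = x * ε) (v : LinearMap.range ε) :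
    ((RE ε x v : LinearMap.range ε) : V) = x v := by
  rw [RE_coe]
  have h1 : ε (x (v : V)) = x (ε (v : V)) := LinearMap.congr_fun hx v
  rw [h1, eps_of_range hε]

theorem RE_trace (x : End K V) : trace K (LinearMap.range ε) (RE ε x) = trace K V (x * ε) := by
  have h1 : RE ε x = (ε.rangeRestrict).comp (x.comp (LinearMap.range ε).subtype) := rfl
  rw [h1, LinearMap.trace_comp_comm']
  congr 1

theorem RE_rk {x : End K V} (hx : ε * x = x * ε) : rk (RE ε x) = rk (ε * x) := by
  unfold rk
  have h1 : (LinearMap.range (RE ε x)).map (LinearMap.range ε).subtype =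
      LinearMap.range (ε * x) := by
    ext v
    constructor
    · rintro ⟨_, ⟨w, rfl⟩, rfl⟩
      exact ⟨w, rfl⟩
    · rintro ⟨w, rfl⟩
      refine ⟨_, ⟨⟨ε w, w, rfl⟩, rfl⟩, ?_⟩
      change ε (x (ε w)) = ε (x w)
      have h2 : ε * x * ε = ε * x := by rw [mul_assoc, ← hx, ← mul_assoc, hε]
      exact LinearMap.congr_fun h2 w
  rw [← h1]
  exact (LinearEquiv.finrank_eq (Submodule.equivMapOfInjective _
    (Submodule.injective_subtype _) _))

end re

/-- The reversed frame. -/
theorem fr_rev {n : ℕ} {x y : ℕ → End K V} {P : End K V} {l l' : K} (F : Fr n x y P l l') :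
    Fr n y x (1 - P) l' l where
  r1 := F.r2
  r2 := F.r1
  Px i hi := by rw [sub_mul, one_mul, F.Py i hi, sub_zero]
  yP i hi := by rw [mul_sub, mul_one, F.xP i hi, sub_zero]
  xP i hi := by rw [mul_sub, mul_one, F.yP i hi, sub_self]
  Py i hi := by rw [sub_mul, one_mul, F.Px i hi, sub_self]
  PP := by rw [mul_sub, mul_one, sub_mul, one_mul, F.PP, sub_self, sub_zero]
  cas := F.cas'
  cas' := by rw [sub_sub_cancel]; exact F.cas

/-- The rank of the projection is a binomial coefficient. -/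
theorem fr_choose {n : ℕ} {x y : ℕ → End K V} {P : End K V} {l l' : K} (F : Fr n x y P l l')
    (hP : P ≠ 0) (hirr : ∀ W : Submodule K V, (∀ w ∈ W, P w = w) →
      (∀ i < n, ∀ j < n, ∀ w ∈ W, x i (y j w) ∈ W) → W = ⊥ ∨ ∀ v, P v = v → v ∈ W) :
    ∃ a : ℕ, a ≤ n ∧ l = a ∧ rk P = n.choose a := by
  obtain ⟨a, han, hla, hEa, hEz⟩ := F.exists_nat hP
  obtain ⟨v3, hv3⟩ : ∃ v, EE' x y P a v ≠ 0 := by
    by_contra hc
    push Not at hc
    apply hEa
    rw [show EE' x y P a = 0 from LinearMap.ext hc, rk_zero]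
  obtain ⟨w, hw⟩ : ∃ w, w = EE' x y P a v3 := ⟨_, rfl⟩
  have hw0 : w ≠ 0 := by rwa [hw]
  have hEw : EE' x y P a w = w := by
    rw [hw]
    exact LinearMap.congr_fun (F.E_idem han) v3
  have hone := F.rank_E_one hirr han hEz hEw hw0
  have hrkE : rk (EE' x y P a) = 1 := by
    have h1 : rk (EE' x y P a) ≤ 1 := by
      unfold rk
      calc finrank K (LinearMap.range (EE' x y P a)) ≤ finrank K (Submodule.span K {w}) := by
            refine Submodule.finrank_mono ?_
            rintro _ ⟨v, rfl⟩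
            exact hone v
      _ ≤ 1 := (finrank_span_singleton hw0).le
    omega
  have hch := F.rank_choose han hla
  rw [hrkE, mul_one] at hch
  exact ⟨a, han, hla, hch⟩

/-- The numbers attached to a frame. -/
theorem frame_main [IsAlgClosed K] {n : ℕ} (hpos : 0 < n) {X Y : ℕ → End K V} {E : End K V}
    (hE2 : E * E = 1) (hEX : ∀ i, E * X i = X i) (hXE : ∀ i, X i * E = -X i)
    (hEY : ∀ i, E * Y i = -Y i) (hYE : ∀ i, Y i * E = Y i)
    (hR1 : ∀ i < n, ∀ j < n, ∀ k < n, X i * Y j * X k + X k * Y j * X i =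
      (if i = j then X k else 0) + (if k = j then X i else 0))
    (hR2 : ∀ i < n, ∀ j < n, ∀ k < n, Y i * X j * Y k + Y k * X j * Y i =
      (if i = j then Y k else 0) + (if k = j then Y i else 0))
    (hirr : ∀ W : Submodule K V, (∀ w ∈ W, E w = w) →
      (∀ i < n, ∀ j < n, ∀ w ∈ W, X i (Y j w) ∈ W) → W = ⊥ ∨ ∀ v, E v = v → v ∈ W)
    (hirrn : ∀ W : Submodule K V, (∀ w ∈ W, E w = -w) →
      (∀ i < n, ∀ j < n, ∀ w ∈ W, Y i (X j w) ∈ W) → W = ⊥ ∨ ∀ v, E v = -v → v ∈ W)
    {v1 v2 : V} (hv1 : v1 ≠ 0) (hEv1 : E v1 = v1) (hv2 : v2 ≠ 0) (hEv2 : E v2 = -v2)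
    (hX0 : X 0 ≠ 0) : ∃ a : ℕ, 1 ≤ a ∧ a ≤ n ∧ rk ((2 : K)⁻¹ • (1 + E)) = n.choose a ∧
      rk ((2 : K)⁻¹ • (1 - E)) = n.choose (a - 1) ∧
      trace K V (∑ i ∈ Finset.range n, X i * Y i) = a * n.choose a := by
  have hEn2 : -E * -E = 1 := by rw [neg_mul_neg, hE2]
  have hirrn' : ∀ W : Submodule K V, (∀ w ∈ W, (-E) w = w) →
      (∀ i < n, ∀ j < n, ∀ w ∈ W, Y i (X j w) ∈ W) → W = ⊥ ∨ ∀ v, (-E) v = v → v ∈ W := by
    intro W hW1 hW
    rcases hirrn W (fun w hw => by
      have h1 := hW1 w hw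
      rw [LinearMap.neg_apply] at h1
      rw [← h1, neg_neg, h1]) hW with h1 | h1
    · exact Or.inl h1
    · refine Or.inr fun v hv => h1 v ?_
      rw [LinearMap.neg_apply] at hv
      rw [← neg_neg (E v), hv]
  obtain ⟨l, hl⟩ := cas_scalar hE2 (x := X) (y := Y) (fun i _ => hEX i) (fun i _ => hYE i) hR1 hR2
    hirr hv1 hEv1
  obtain ⟨l', hl'⟩ := cas_scalar hEn2 (x := Y) (y := X)
    (fun i _ => by rw [neg_mul, hEY, neg_neg]) (fun i _ => by rw [mul_neg, hXE, neg_neg]) hR2 hR1
    hirrn' hv2 (by rw [LinearMap.neg_apply, hEv2, neg_neg])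
  obtain ⟨P, hP⟩ : ∃ P : End K V, P = (2 : K)⁻¹ • (1 + E) := ⟨_, rfl⟩
  have hP2 : P + P = 1 + E := by
    rw [← two_smul K, hP, smul_smul, mul_inv_cancel₀ two_ne_zero, one_smul]
  have h1P : 1 - P = (2 : K)⁻¹ • (1 + -E) := by
    have e1 : (1 - P) + (1 - P) = 1 + -E := by
      calc (1 - P) + (1 - P) = 1 + 1 - (P + P) := by abel
      _ = 1 + -E := by rw [hP2]; abel
    rw [← e1, ← two_smul K, smul_smul, inv_mul_cancel₀ two_ne_zero, one_smul]
  have FF : Fr n X Y P l l' := by
    refine ⟨hR1, hR2, fun i _ => ?_, fun i _ => ?_, fun i _ => ?_, fun i _ => ?_, ?_, ?_, ?_⟩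
    · rw [hP, smul_mul_assoc, add_mul, one_mul, hEX, ← two_smul K, smul_smul,
        inv_mul_cancel₀ two_ne_zero, one_smul]
    · rw [hP, mul_smul_comm, mul_add, mul_one, hYE, ← two_smul K, smul_smul,
        inv_mul_cancel₀ two_ne_zero, one_smul]
    · rw [hP, mul_smul_comm, mul_add, mul_one, hXE, add_neg_cancel, smul_zero]
    · rw [hP, smul_mul_assoc, add_mul, one_mul, hEY, add_neg_cancel, smul_zero]
    · have e1 : (1 + E) * (1 + E) = (2 : K) • (1 + E) := by
        rw [mul_add, add_mul, add_mul, one_mul, one_mul, mul_one, hE2, two_smul]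
        abel
      rw [hP, smul_mul_smul_comm, e1, smul_smul]
      congr 1
      rw [mul_assoc, inv_mul_cancel₀ two_ne_zero, mul_one]
    · rw [hl, hP]
    · rw [hl', h1P]
  have hPD : ∀ v, P v = v ↔ E v = v := by
    intro v
    have e1 : P v + P v = v + E v := LinearMap.congr_fun hP2 v
    constructor
    · intro h1
      rw [h1] at e1
      exact (add_left_cancel e1).symm
    · intro h1
      rw [h1, ← two_smul K, ← two_smul K] at e1
      have h2 : (2 : K) • (P v - v) = 0 := by rw [smul_sub, e1, sub_self]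
      exact sub_eq_zero.1 ((smul_eq_zero.1 h2).resolve_left two_ne_zero)
  have hPDn : ∀ v, (1 - P) v = v ↔ E v = -v := by
    intro v
    have e1 : P v + P v = v + E v := LinearMap.congr_fun hP2 v
    rw [LinearMap.sub_apply, Module.End.one_apply, sub_eq_self]
    constructor
    · intro h1
      rw [h1, add_zero] at e1
      exact (neg_eq_of_add_eq_zero_right e1.symm).symm
    · intro h1
      rw [h1, add_neg_cancel, ← two_smul K] at e1
      exact (smul_eq_zero.1 e1).resolve_left two_ne_zero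
  have hPne : P ≠ 0 := by
    intro h0
    apply hv1
    rw [← (hPD v1).2 hEv1, h0]
    rfl
  have hPne' : 1 - P ≠ 0 := by
    intro h0
    apply hv2
    rw [← (hPDn v2).2 hEv2, h0]
    rfl
  obtain ⟨a, han, hla, hrP⟩ := fr_choose FF hPne fun W hW1 hW => by
    rcases hirr W (fun w hw => (hPD w).1 (hW1 w hw)) hW with h1 | h1
    · exact Or.inl h1
    · exact Or.inr fun v hv => h1 v ((hPD v).1 hv)
  obtain ⟨a', han', hla', hrP'⟩ := fr_choose (fr_rev FF) hPne' fun W hW1 hW => by
    rcases hirrn W (fun w hw => (hPDn w).1 (hW1 w hw)) hW with h1 | h1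
    · exact Or.inl h1
    · exact Or.inr fun v hv => h1 v ((hPDn v).1 hv)
  have hsum := FF.lsum hpos hX0
  have hn2 : a + a' = n + 1 := by
    rw [hla, hla'] at hsum
    exact_mod_cast hsum
  refine ⟨a, by omega, han, by rw [← hP, hrP], ?_, ?_⟩
  · have e1 : a' = n - (a - 1) := by omega
    rw [sub_eq_add_neg, ← h1P, hrP', e1, Nat.choose_symm (by omega)]
  · rw [FF.cas, map_smul, trace_idem FF.PP, hrP, hla, smul_eq_mul]

variable {G I : Submodule K (End K V)} {st : End K V →ₗ[K] End K V} (h : Setup G st)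
  {ε : End K V} (b : Blk G st ε)

section exc

variable {D c d p q : End K V} (F : MP G st D c d p q)

include h b F

/-- **Exterior powers.** -/
theorem excE [IsAlgClosed K] (htr : TrSt st) (hD : D ∈ G) (hD2 : D * D = 1)
    (hirr : IrrE G ε D) (hirrn : IrrE G ε (-D))
    (hcon : ∀ x ∈ Kp G D, x - p * x - x * q + p * x * q = 0) :
    ∃ n a : ℕ, 1 ≤ a ∧ a ≤ n ∧ finrank K (Pos D ε) = n.choose a ∧
      finrank K (Pos (-D) ε) = n.choose (a - 1) ∧ n * rk (ε * c) = a * n.choose a := by
  classical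
  obtain ⟨m, hmd⟩ : ∃ m, m = rk c := ⟨_, rfl⟩
  have hm : m ≠ 0 := by rw [hmd]; exact (rk_pos_of_ne F.ne).ne'
  obtain ⟨n, hn⟩ : ∃ n, n = finrank K (Kp G D) := ⟨_, rfl⟩
  have hm' : (m : K) ≠ 0 := by exact_mod_cast hm
  have hDn : -D ∈ G := G.neg_mem hD
  have hDn2 : -D * -D = 1 := by rw [neg_mul_neg, hD2]
  let bs : Basis (Fin n) K (Kp G D) := (Module.finBasis K (Kp G D)).reindex (finCongr hn.symm)
  choose b' hb' hbb' using fun i => exists_dual h hD hD2 (bs.coord i)
  have hpos : 0 < n := by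
    rw [hn]
    refine Module.finrank_pos_iff_exists_ne_zero.2 ⟨⟨c, F.cm⟩, fun h0 => F.ne ?_⟩
    exact congrArg Subtype.val h0
  let x : ℕ → End K V := fun i => if hi : i < n then (bs ⟨i, hi⟩ : End K V) else 0
  let y : ℕ → End K V := fun i => if hi : i < n then (m : K) • b' ⟨i, hi⟩ else 0
  have hx : ∀ i, x i ∈ Kp G D := by
    intro i
    change (if hi : i < n then (bs ⟨i, hi⟩ : End K V) else 0) ∈ _
    split_ifs with hi
    · exact (bs ⟨i, hi⟩).2
    · exact Submodule.zero_mem _
  have hy : ∀ i, y i ∈ Kp G (-D) := by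
    intro i
    change (if hi : i < n then (m : K) • b' ⟨i, hi⟩ else 0) ∈ _
    split_ifs with hi
    · exact Submodule.smul_mem _ _ (hb' _)
    · exact Submodule.zero_mem _
  have hxy : ∀ i < n, ∀ j < n, (m : K)⁻¹ * trace K V (x i * y j) = if i = j then 1 else 0 := by
    intro i hi j hj
    have e1 : x i = (bs ⟨i, hi⟩ : End K V) := dif_pos hi
    have e2 : y j = (m : K) • b' ⟨j, hj⟩ := dif_pos hj
    rw [e1, e2, mul_smul_comm, map_smul, smul_eq_mul, ← mul_assoc, inv_mul_cancel₀ hm', one_mul,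
      hbb', Basis.coord_apply, Basis.repr_self, Finsupp.single_apply]
    congr 1
    rw [eq_iff_iff]
    exact Fin.mk.injEq .. ▸ Iff.rfl
  have hyx : ∀ i < n, ∀ j < n, (m : K)⁻¹ * trace K V (y i * x j) = if i = j then 1 else 0 := by
    intro i hi j hj
    rw [LinearMap.trace_mul_comm, hxy j hj i hi]
    simp only [eq_comm]
  have hxs : ∀ z ∈ Kp G D, ∀ w ∈ Kp G (-D), z * w * z = ((m : K)⁻¹ * trace K V (z * w)) • z := by
    intro z hz w hw
    rw [hmd]
    exact prim_all h F hD hD2 hcon hz hw.1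
  have hys : ∀ z ∈ Kp G (-D), ∀ w ∈ Kp G D, z * w * z = ((m : K)⁻¹ * trace K V (z * w)) • z := by
    intro z hz w hw
    rw [hmd]
    exact prim_all' h F hD hD2 hcon hz hw
  have hr1 : ∀ i < n, ∀ j < n, ∀ k < n, x i * y j * x k + x k * y j * x i =
      (if i = j then x k else 0) + (if k = j then x i else 0) := by
    intro i hi j hj k hk
    rw [prim_polar (hxs _ (hx i) _ (hy j)) (hxs _ (hx k) _ (hy j))
      (hxs _ (Submodule.add_mem _ (hx i) (hx k)) _ (hy j)), hxy i hi j hj, hxy k hk j hj]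
    simp only [ite_smul, one_smul, zero_smul]
  have hr2 : ∀ i < n, ∀ j < n, ∀ k < n, y i * x j * y k + y k * x j * y i =
      (if i = j then y k else 0) + (if k = j then y i else 0) := by
    intro i hi j hj k hk
    rw [prim_polar (hys _ (hy i) _ (hx j)) (hys _ (hy k) _ (hx j))
      (hys _ (Submodule.add_mem _ (hy i) (hy k)) _ (hx j)), hyx i hi j hj, hyx k hk j hj]
    simp only [ite_smul, one_smul, zero_smul]
  have hspan : ∀ z ∈ Kp G D, z ∈ Submodule.span K (Set.range fun i : Fin n => x i) := by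
    intro z hz
    have e1 : (⟨z, hz⟩ : Kp G D) = ∑ i, bs.repr ⟨z, hz⟩ i • bs i := (bs.sum_repr _).symm
    have e2 : z = ∑ i, bs.repr ⟨z, hz⟩ i • (bs i : End K V) := by
      have e3 := congrArg Subtype.val e1
      rw [Submodule.coe_sum] at e3
      exact e3
    rw [e2]
    refine Submodule.sum_mem _ fun i _ => Submodule.smul_mem _ _ (Submodule.subset_span ⟨i, ?_⟩)
    exact dif_pos i.2
  have hspan' : ∀ z ∈ Kp G (-D), z ∈ Submodule.span K (Set.range fun i : Fin n => y i) := by
    intro z hz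
    have e1 : z = ∑ i : Fin n, ((m : K)⁻¹ * trace K V (x i * z)) • y i := by
      rw [← sub_eq_zero]
      refine kn_nondeg h hD hD2 (Submodule.sub_mem _ hz (Submodule.sum_mem _ fun i _ =>
        Submodule.smul_mem _ _ (hy i))) fun w hw => ?_
      have hw' := hspan w hw
      clear hw
      induction hw' using Submodule.span_induction with
      | mem w hw =>
        obtain ⟨j, rfl⟩ := hw
        dsimp only
        rw [mul_sub, map_sub, Finset.mul_sum, map_sum, Finset.sum_eq_single j]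
        · rw [mul_smul_comm, map_smul, smul_eq_mul]
          have e2 := hxy j j.2 j j.2
          rw [if_pos rfl] at e2
          linear_combination -(trace K V (x j * z)) * e2
        · intro i _ hij
          rw [mul_smul_comm, map_smul, smul_eq_mul]
          have e2 := hxy j j.2 i i.2
          rw [if_neg (fun e => hij (Fin.ext e.symm))] at e2
          have e3 : trace K V (x j * y i) = 0 :=
            (mul_eq_zero.1 e2).resolve_left (inv_ne_zero hm')
          rw [e3, mul_zero]
        · intro hj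
          exact absurd (Finset.mem_univ _) hj
      | zero => rw [zero_mul, map_zero]
      | add w w' _ _ h1 h2 => rw [add_mul, map_add, h1, h2, add_zero]
      | smul c w _ h1 => rw [smul_mul_assoc, map_smul, h1, smul_zero]
    rw [e1]
    exact Submodule.sum_mem _ fun i _ => Submodule.smul_mem _ _ (Submodule.subset_span ⟨i, rfl⟩)
  -- restriction to the first summand
  obtain ⟨X, hX⟩ : ∃ X : ℕ → End K (LinearMap.range ε), X = fun i => RE ε (x i) := ⟨_, rfl⟩
  obtain ⟨Y, hY⟩ : ∃ Y : ℕ → End K (LinearMap.range ε), Y = fun i => RE ε (y i) := ⟨_, rfl⟩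
  obtain ⟨E, hE⟩ : ∃ E : End K (LinearMap.range ε), E = RE ε D := ⟨_, rfl⟩
  have hXi : ∀ i, X i = RE ε (x i) := fun i => by rw [hX]
  have hYi : ∀ i, Y i = RE ε (y i) := fun i => by rw [hY]
  have cx : ∀ i, ε * x i = x i * ε := fun i => b.comm _ (hx i).1
  have cy : ∀ i, ε * y i = y i * ε := fun i => b.comm _ (hy i).1
  have cD : ε * D = D * ε := b.comm D hD
  have cmul : ∀ {u v : End K V}, ε * u = u * ε → ε * v = v * ε → ε * (u * v) = u * v * ε := by
    intro u v hu hv
    rw [← mul_assoc, hu, mul_assoc, hv, mul_assoc]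
  have hE2 : E * E = 1 := by rw [hE, ← RE_mul b.idem _ cD, hD2, RE_one b.idem]
  have hEX : ∀ i, E * X i = X i := fun i => by
    rw [hE, hXi, ← RE_mul b.idem _ cD, (hx i).2.1]
  have hXE : ∀ i, X i * E = -X i := fun i => by
    rw [hE, hXi, ← RE_mul b.idem _ (cx i), (hx i).2.2, map_neg]
  have hEY : ∀ i, E * Y i = -Y i := fun i => by
    rw [hE, hYi, ← RE_mul b.idem _ cD, (mem_Kn.1 (hy i)).2.1, map_neg]
  have hYE : ∀ i, Y i * E = Y i := fun i => by
    rw [hE, hYi, ← RE_mul b.idem _ (cy i), (mem_Kn.1 (hy i)).2.2]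
  have hR1 : ∀ i < n, ∀ j < n, ∀ k < n, X i * Y j * X k + X k * Y j * X i =
      (if i = j then X k else 0) + (if k = j then X i else 0) := by
    intro i hi j hj k hk
    have e1 := congrArg (RE ε) (hr1 i hi j hj k hk)
    rw [map_add, map_add, RE_mul b.idem _ (cmul (cx i) (cy j)), RE_mul b.idem _ (cx i),
      RE_mul b.idem _ (cmul (cx k) (cy j)), RE_mul b.idem _ (cx k), apply_ite (RE ε),
      apply_ite (RE ε), map_zero] at e1
    simp only [hXi, hYi]
    exact e1
  have hR2 : ∀ i < n, ∀ j < n, ∀ k < n, Y i * X j * Y k + Y k * X j * Y i =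
      (if i = j then Y k else 0) + (if k = j then Y i else 0) := by
    intro i hi j hj k hk
    have e1 := congrArg (RE ε) (hr2 i hi j hj k hk)
    rw [map_add, map_add, RE_mul b.idem _ (cmul (cy i) (cx j)), RE_mul b.idem _ (cy i),
      RE_mul b.idem _ (cmul (cy k) (cx j)), RE_mul b.idem _ (cy k), apply_ite (RE ε),
      apply_ite (RE ε), map_zero] at e1
    simp only [hXi, hYi]
    exact e1
  have hirr' : ∀ W : Submodule K (LinearMap.range ε), (∀ w ∈ W, E w = w) →
      (∀ i < n, ∀ j < n, ∀ w ∈ W, X i (Y j w) ∈ W) → W = ⊥ ∨ ∀ v, E v = v → v ∈ W := by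
    intro W hW1 hW
    have h3 := hirr (W.map (LinearMap.range ε).subtype) (by
      rintro _ ⟨w, hw, rfl⟩
      refine ⟨?_, eps_of_range b.idem w⟩
      have e1 := congrArg Subtype.val (hW1 w hw)
      rw [hE, RE_apply b.idem cD] at e1
      exact e1) (by
      intro z hz z' hz' w hw
      refine span_prod (W := W.map (LinearMap.range ε).subtype) (n := n) (x := x) (y := y) ?_
        (hspan z hz) (hspan' z' hz') hw
      rintro i hi j hj _ ⟨w, hw, rfl⟩
      refine ⟨_, hW i hi j hj w hw, ?_⟩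
      change ((X i (Y j w) : LinearMap.range ε) : V) = x i (y j w)
      rw [hXi, hYi, RE_apply b.idem (cx i), RE_apply b.idem (cy j)])
    rcases h3 with h3 | h3
    · left
      rw [Submodule.eq_bot_iff]
      intro w hw
      have e1 : (w : V) ∈ W.map (LinearMap.range ε).subtype := ⟨w, hw, rfl⟩
      rw [h3] at e1
      exact Subtype.ext ((Submodule.mem_bot K).1 e1)
    · right
      intro v hv
      have e1 := congrArg Subtype.val hv
      rw [hE, RE_apply b.idem cD] at e1
      obtain ⟨w, hw, hwv⟩ := h3 v e1 (eps_of_range b.idem v)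
      have e2 : w = v := Subtype.ext hwv
      rwa [← e2]
  have hirrn' : ∀ W : Submodule K (LinearMap.range ε), (∀ w ∈ W, E w = -w) →
      (∀ i < n, ∀ j < n, ∀ w ∈ W, Y i (X j w) ∈ W) → W = ⊥ ∨ ∀ v, E v = -v → v ∈ W := by
    intro W hW1 hW
    have h3 := hirrn (W.map (LinearMap.range ε).subtype) (by
      rintro _ ⟨w, hw, rfl⟩
      refine ⟨?_, eps_of_range b.idem w⟩
      have e1 := congrArg Subtype.val (hW1 w hw)
      rw [hE, RE_apply b.idem cD] at e1
      change -(D w) = w
      rw [e1]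
      exact neg_neg _) (by
      intro z hz z' hz' w hw
      refine span_prod (W := W.map (LinearMap.range ε).subtype) (n := n) (x := y) (y := x) ?_
        (hspan' z hz) (hspan z' (by rwa [neg_neg_D] at hz')) hw
      rintro i hi j hj _ ⟨w, hw, rfl⟩
      refine ⟨_, hW i hi j hj w hw, ?_⟩
      change ((Y i (X j w) : LinearMap.range ε) : V) = y i (x j w)
      rw [hXi, hYi, RE_apply b.idem (cy i), RE_apply b.idem (cx j)])
    rcases h3 with h3 | h3
    · left
      rw [Submodule.eq_bot_iff]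
      intro w hw
      have e1 : (w : V) ∈ W.map (LinearMap.range ε).subtype := ⟨w, hw, rfl⟩
      rw [h3] at e1
      exact Subtype.ext ((Submodule.mem_bot K).1 e1)
    · right
      intro v hv
      have e1 := congrArg Subtype.val hv
      rw [hE, RE_apply b.idem cD] at e1
      obtain ⟨w, hw, hwv⟩ := h3 v (by
        change -(D v) = v
        rw [e1]
        exact neg_neg _) (eps_of_range b.idem v)
      have e2 : w = v := Subtype.ext hwv
      rwa [← e2]
  -- nonzero vectors
  obtain ⟨w1, hw1, hεw1⟩ := exists_eps_c h b F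
  have hdne : d ≠ 0 := by
    rintro rfl
    apply F.ne
    rw [← F.pc, ← F.cd, mul_zero, zero_mul]
  obtain ⟨w2', hw2'⟩ : ∃ w, (ε * d) w ≠ 0 := by
    by_contra hcon
    push Not at hcon
    exact hdne (b.zero_of h F.dm.1 (LinearMap.ext hcon))
  have hmemE : ∀ {v : V}, ε v = v → v ∈ LinearMap.range ε := fun hv => ⟨_, hv⟩
  obtain ⟨v1, hv1, hEv1⟩ : ∃ v1 : LinearMap.range ε, v1 ≠ 0 ∧ E v1 = v1 := by
    refine ⟨⟨c w1, hmemE hεw1⟩, fun h0 => hw1 (congrArg Subtype.val h0), Subtype.ext ?_⟩
    rw [hE, RE_apply b.idem cD]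
    exact LinearMap.congr_fun F.cm.2.1 w1
  obtain ⟨v2, hv2, hEv2⟩ : ∃ v2 : LinearMap.range ε, v2 ≠ 0 ∧ E v2 = -v2 := by
    refine ⟨⟨ε (d w2'), ⟨_, rfl⟩⟩, fun h0 => hw2' (congrArg Subtype.val h0), Subtype.ext ?_⟩
    rw [hE, RE_apply b.idem cD]
    change D (ε (d w2')) = -ε (d w2')
    rw [← Module.End.mul_apply D ε, ← cD, Module.End.mul_apply]
    have e1 : D (d w2') = -(d w2') := LinearMap.congr_fun (mem_Kn.1 F.dm).2.1 w2'
    rw [e1, map_neg]
  have hX0 : X 0 ≠ 0 := by
    intro h0
    have e1 : x 0 = (bs ⟨0, hpos⟩ : End K V) := dif_pos hpos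
    have e2 : ε * x 0 = 0 := by
      apply rk_eq_zero
      rw [← RE_rk b.idem (cx 0), ← hXi, h0, rk_zero]
    have e3 := b.zero_of h (hx 0).1 e2
    rw [e1] at e3
    exact bs.ne_zero ⟨0, hpos⟩ (Subtype.ext e3)
  obtain ⟨a, ha1, han, hrP, hrP', htrE⟩ := frame_main hpos hE2 hEX hXE hEY hYE hR1 hR2 hirr'
    hirrn' hv1 hEv1 hv2 hEv2 hX0
  -- the ranks
  have hpos' : ∀ {D' : End K V}, ε * D' = D' * ε → D' * D' = 1 → finrank K (Pos D' ε) =
      rk ((2 : K)⁻¹ • (1 + RE ε D')) := by
    intro D' hc' hD'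
    have e1 : (2 : K)⁻¹ • (1 + RE ε D') = RE ε ((2 : K)⁻¹ • (1 + D')) := by
      rw [map_smul, map_add, RE_one b.idem]
    have c1 : ε * ((2 : K)⁻¹ • (1 + D')) = ((2 : K)⁻¹ • (1 + D')) * ε := by
      rw [mul_smul_comm, smul_mul_assoc, mul_add, add_mul, mul_one, one_mul, hc']
    rw [e1, RE_rk b.idem c1]
    unfold rk
    suffices e5 : Pos D' ε = LinearMap.range (ε * ((2 : K)⁻¹ • (1 + D'))) by rw [e5]
    ext v
    constructor
    · rintro ⟨hv, hεv⟩
      refine ⟨v, ?_⟩
      change ε ((2 : K)⁻¹ • (v + D' v)) = v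
      rw [hv, ← two_smul K, smul_smul, inv_mul_cancel₀ two_ne_zero, one_smul, hεv]
    · rintro ⟨w, rfl⟩
      refine ⟨?_, LinearMap.congr_fun b.idem _⟩
      have e2 : D' * (ε * ((2 : K)⁻¹ • (1 + D'))) = ε * ((2 : K)⁻¹ • (1 + D')) := by
        rw [← mul_assoc, ← hc', mul_assoc, mul_smul_comm, mul_add, mul_one, hD', add_comm]
      exact LinearMap.congr_fun e2 w
  have hrkP : finrank K (Pos D ε) = n.choose a := by rw [hpos' cD hD2, ← hE, hrP]
  have hrkP' : finrank K (Pos (-D) ε) = n.choose (a - 1) := by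
    rw [hpos' (D' := -D) (by rw [mul_neg, neg_mul, cD]) hDn2, map_neg, ← hE, ← hrP']
    congr 2
    first
      | exact (sub_eq_add_neg _ _).symm
      | rfl
      | abel
  -- the rank of the primitive elements
  have htwo : ∀ i, trace K V (x i * y i) = 2 * trace K V (ε * (x i * y i)) := by
    intro i
    have e1 : trace K V ((1 - ε) * (x i * y i)) = trace K V (ε * (x i * y i)) := by
      have e2 := htr (ε * (x i * y i))
      rw [h.st_mul, h.st_mul, h.skew _ (hx i).1, h.skew _ (hy i).1, b.st, neg_mul_neg] at e2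
      rw [← e2]
      calc trace K V ((1 - ε) * (x i * y i)) = trace K V ((x i * y i) * (1 - ε)) :=
            LinearMap.trace_mul_comm K _ _
      _ = trace K V (x i * (y i * (1 - ε))) := by rw [mul_assoc]
      _ = trace K V (y i * (1 - ε) * x i) := LinearMap.trace_mul_comm K _ _
      _ = trace K V (y i * x i * (1 - ε)) := by
        rw [mul_assoc, b.comm' _ (hx i).1, mul_assoc]
    have e2 : x i * y i = ε * (x i * y i) + (1 - ε) * (x i * y i) := by
      rw [← add_mul, add_sub_cancel, one_mul]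
    conv_lhs => rw [e2]
    rw [map_add, e1, two_mul]
  have hme : (m : K) = 2 * (rk (ε * c) : K) := by
    have e1 : trace K V p = m := by
      rw [trace_idem F.pp, hmd]
      congr 1
      apply le_antisymm
      · rw [← F.cd]
        exact rk_mul_le_left _ _
      · conv_lhs => rw [← F.pc]
        exact rk_mul_le_left _ _
    have cp : ε * p = p * ε := by
      rw [← F.cd]
      exact cmul (b.comm _ F.cm.1) (b.comm _ F.dm.1)
    have hεp : ε * p * (ε * p) = ε * p := by
      calc ε * p * (ε * p) = ε * (p * ε) * p := by noncomm_ring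
      _ = (ε * ε) * (p * p) := by rw [← cp]; noncomm_ring
      _ = ε * p := by rw [b.idem, F.pp]
    have e2 : trace K V (ε * p) = rk (ε * c) := by
      rw [trace_idem hεp]
      congr 1
      apply le_antisymm
      · rw [← F.cd, ← mul_assoc]
        exact rk_mul_le_left _ _
      · have e3 : ε * c = ε * p * c := by rw [mul_assoc, F.pc]
        rw [e3]
        exact rk_mul_le_left _ _
    have e3 : trace K V ((1 - ε) * p) = trace K V (ε * p) := by
      have e4 := htr (ε * p)
      rw [h.st_mul, F.sp, b.st, ← F.dc] at e4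
      rw [← e4, ← F.cd]
      calc trace K V ((1 - ε) * (c * d)) = trace K V ((c * d) * (1 - ε)) :=
            LinearMap.trace_mul_comm K _ _
      _ = trace K V (c * (d * (1 - ε))) := by rw [mul_assoc]
      _ = trace K V (d * (1 - ε) * c) := LinearMap.trace_mul_comm K _ _
      _ = trace K V (d * c * (1 - ε)) := by
        rw [mul_assoc, b.comm' _ F.cm.1, mul_assoc]
    have e4 : p = ε * p + (1 - ε) * p := by rw [← add_mul, add_sub_cancel, one_mul]
    rw [← e1, ← e2, two_mul]
    conv_lhs => rw [e4]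
    rw [map_add, e3]
  have htr1 : trace K (LinearMap.range ε) (∑ i ∈ Finset.range n, X i * Y i) =
      n * rk (ε * c) := by
    have e0 : ∀ i ∈ Finset.range n, trace K (LinearMap.range ε) (X i * Y i) = rk (ε * c) := by
      intro i hi
      have e1 := hxy i (Finset.mem_range.1 hi) i (Finset.mem_range.1 hi)
      rw [if_pos rfl] at e1
      have e2 : trace K V (x i * y i) = m := by
        calc trace K V (x i * y i) = m * ((m : K)⁻¹ * trace K V (x i * y i)) := by
              rw [← mul_assoc, mul_inv_cancel₀ hm', one_mul]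
        _ = m := by rw [e1, mul_one]
      rw [htwo i, hme] at e2
      have e3 := mul_left_cancel₀ two_ne_zero e2
      rw [hXi, hYi, ← RE_mul b.idem _ (cx i), RE_trace b.idem, ← cmul (cx i) (cy i), e3]
    rw [map_sum, Finset.sum_congr rfl e0, Finset.sum_const, Finset.card_range, nsmul_eq_mul]
  have hne : n * rk (ε * c) = a * n.choose a := by
    rw [htrE] at htr1
    exact_mod_cast htr1.symm
  exact ⟨n, a, ha1, han, hrkP, hrkP', hne⟩

end exc

end Pool.Agent.Y91.G
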