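import Mathlib
import Pool.Agent.Y91.G.Exc2

/-!
# Two dual summands: statements of the last two steps of the case of equal multiplicities
-/

set_option linter.unusedSectionVars false

namespace Pool.Agent.Y91.G

open Module LinearMap Pool.Agent.W548.Odd Pool.Agent.Y91.JP Pool.Agent.Y91.P

/-- Spin representations: the dimension of a summand is a power of two. -/
def S_SPIN : Prop :=
  ∀ (K : Type) [Field K] [CharZero K] [IsAlgClosed K] (V : Type) [AddCommGroup V] [Module K V]
    [FiniteDimensional K V] (G : Submodule K (End K V)) (st : End K V →ₗ[K] End K V)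
    (_h : Setup G st) (ε : End K V) (_b : Blk G st ε) (_htr : TrSt st)
    (D c1 d1 p1 q1 c2 d2 p2 q2 a : End K V) (_F : Fra G st D c1 d1 p1 q1 c2 d2 p2 q2 a)
    (_hD : D ∈ G) (_hD2 : D * D = 1) (_hG : G ≤ JD G ε D)
    (_hneθ : ∀ s : K, D ≠ s • (ε - (1 - ε)))
    (_e1 : 1 + D = (2 : K) • p1 + (2 : K) • p2) (_e2 : 1 - D = (2 : K) • q1 + (2 : K) • q2),
    ∃ n : ℕ, 2 ≤ n ∧ 2 ^ n = rk ε

/-- Self-dual exterior powers. -/
def S_SELF : Prop :=
  ∀ (K : Type) [Field K] [CharZero K] [IsAlgClosed K] (V : Type) [AddCommGroup V] [Module K V]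
    [FiniteDimensional K V] (G : Submodule K (End K V)) (st : End K V →ₗ[K] End K V)
    (_h : Setup G st) (ε : End K V) (_b : Blk G st ε) (_htr : TrSt st)
    (D c d p q : End K V) (_F : MP G st D c d p q) (_hD : D ∈ G) (_hD2 : D * D = 1)
    (_hirr : IrrE G ε D) (_hirrn : IrrE G ε (-D)) (_hirr' : IrrE G (1 - ε) D)
    (_hirrn' : IrrE G (1 - ε) (-D))
    (_hcon : ∀ x ∈ Kp G D, x - p * x - x * q + p * x * q = 0) (_hno : NoGr G ε D)
    (_hpq : finrank K (Pos D ε) = finrank K (Pos (-D) ε)), rk (ε * c) = 1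

end Pool.Agent.Y91.G
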