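import Mathlib
import Pool.Agent.Y91.G.Exc2

/-!
# Adding the difference of the projections to the Lie algebra
-/

set_option linter.unusedSectionVars false

namespace Pool.Agent.Y91.G

open Module LinearMap Pool.Agent.W548.Odd Pool.Agent.Y91.JP Pool.Agent.Y91.P

variable {K : Type*} [Field K] [CharZero K] {V : Type*} [AddCommGroup V] [Module K V]
  [FiniteDimensional K V]

/-- Two dual irreducible summands. -/
structure Blk0 (G : Submodule K (End K V)) (st : End K V →ₗ[K] End K V) (ε : End K V) : Prop where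
  idem : ε * ε = ε
  comm : ∀ y ∈ G, ε * y = y * ε
  st1 : st 1 = 1
  st : st ε = 1 - ε
  com : ∀ c : End K V, (∀ y ∈ G, c * y = y * c) → ∃ a b : K, c = a • ε + b • (1 - ε)
  ne : ε ≠ 0
  ne' : 1 - ε ≠ 0

/-- The Lie algebra together with the difference of the projections. -/
def Gp (G : Submodule K (End K V)) (ε : End K V) : Submodule K (End K V) :=
  G ⊔ Submodule.span K {ε - (1 - ε)}

variable {G I : Submodule K (End K V)} {st : End K V →ₗ[K] End K V} {ε : End K V}

theorem mem_gp {y : End K V} (hy : y ∈ G) : y ∈ Gp G ε := Submodule.mem_sup_left hy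

theorem th_mem_gp : ε - (1 - ε) ∈ Gp G ε :=
  Submodule.mem_sup_right (Submodule.mem_span_singleton_self _)

theorem exists_gp {y : End K V} (hy : y ∈ Gp G ε) :
    ∃ z ∈ G, ∃ t : K, y = z + t • (ε - (1 - ε)) := by
  obtain ⟨z, hz, w, hw, rfl⟩ := Submodule.mem_sup.1 hy
  obtain ⟨t, rfl⟩ := Submodule.mem_span_singleton.1 hw
  exact ⟨z, hz, t, rfl⟩

namespace Blk0

variable (b : Blk0 G st ε)

include b

theorem e0 : ε * (1 - ε) = 0 := by rw [mul_sub, mul_one, b.idem, sub_self]

theorem e0' : (1 - ε) * ε = 0 := by rw [sub_mul, one_mul, b.idem, sub_self]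

theorem th_comm {y : End K V} (hy : ε * y = y * ε) :
    (ε - (1 - ε)) * y = y * (ε - (1 - ε)) := by
  simp only [mul_sub, sub_mul, one_mul, mul_one, hy]

theorem comm_gp {y : End K V} (hy : y ∈ Gp G ε) : ε * y = y * ε := by
  obtain ⟨z, hz, t, rfl⟩ := exists_gp hy
  rw [mul_add, add_mul, b.comm z hz, mul_smul_comm, smul_mul_assoc, mul_sub, sub_mul, b.idem,
    b.e0, b.e0']

theorem blk : Blk (Gp G ε) st ε where
  idem := b.idem
  comm _ hy := b.comm_gp hy
  st := b.st
  com c hc := b.com c fun y hy => hc y (mem_gp hy)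
  th := th_mem_gp
  ne := b.ne
  ne' := b.ne'

theorem st_th : st (ε - (1 - ε)) = -(ε - (1 - ε)) := by
  rw [map_sub, map_sub, b.st, b.st1]
  abel

theorem th_sq : (ε - (1 - ε)) * (ε - (1 - ε)) = 1 := b.blk.th_sq

variable (h : Setup G st)

include h

/-- There are no diagonal submodules. -/
theorem no_diag {M : Submodule K V} (hM : ∀ y ∈ G, ∀ w ∈ M, y w ∈ M)
    (h1 : ∀ w ∈ M, ε w = w → w = 0) (h2 : ∀ w ∈ M, ε w = 0 → w = 0) : M = ⊥ := by
  obtain ⟨π, k1, k2, k3⟩ := h.cr M hM
  obtain ⟨s, t, hst⟩ := b.com π k1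
  have hc : π * ε = ε * π := by
    rw [hst, add_mul, mul_add, smul_mul_assoc, smul_mul_assoc, mul_smul_comm, mul_smul_comm,
      b.e0, b.e0']
  rw [Submodule.eq_bot_iff]
  intro w hw
  have h3 : ε w ∈ M := by
    have h4 := LinearMap.congr_fun hc w
    rw [Module.End.mul_apply, Module.End.mul_apply, k3 w hw] at h4
    rw [← h4]
    exact k2 _
  exact h2 w hw (h1 _ h3 (LinearMap.congr_fun b.idem w))

omit h in
theorem central0 {y : End K V} (h1 : st y = -y) (hc : ∀ z ∈ G, y * z = z * y) :
    ∃ s : K, y = s • (ε - (1 - ε)) := by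
  obtain ⟨s, t, hst⟩ := b.com y hc
  rw [hst, map_add, map_smul, map_smul, b.st, map_sub, b.st1, b.st, sub_sub_cancel] at h1
  have h2 : (s + t) • ε = 0 := by
    have h3 := congrArg (fun z => ε * z) h1
    simp only [mul_add, mul_neg, mul_smul_comm, b.idem, b.e0, smul_zero, add_zero, zero_add] at h3
    rw [add_smul, ← neg_eq_zero, neg_add, ← h3]
    abel
  have h3 : t = -s := by
    have h4 := (smul_eq_zero.1 h2).resolve_right b.ne
    linear_combination h4
  refine ⟨s, ?_⟩
  rw [hst, h3]
  module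

theorem central {y : End K V} (hy : y ∈ G) (hc : ∀ z ∈ G, y * z = z * y) :
    ∃ s : K, y = s • (ε - (1 - ε)) := b.central0 (h.skew y hy) hc

theorem trace_th (hθ : ε - (1 - ε) ∉ G) {w : End K V} (hw : w ∈ G) :
    trace K V ((ε - (1 - ε)) * w) = 0 := by
  obtain ⟨t0, ht0, ht⟩ := exists_repr h.nondeg
    ((LinearMap.trace K V).comp (LinearMap.mulLeft K (ε - (1 - ε))))
  have ht' : ∀ z ∈ G, trace K V ((ε - (1 - ε)) * z) = trace K V (t0 * z) := fun z hz => ht z hz
  have hc : ∀ z ∈ G, t0 * z = z * t0 := by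
    intro z hz
    rw [← sub_eq_zero]
    refine h.nondeg _ (h.br t0 ht0 z hz) fun w hw => ?_
    have e1 : (t0 * z - z * t0) * w = t0 * (z * w) - z * (t0 * w) := by noncomm_ring
    have e2 : trace K V (z * (t0 * w)) = trace K V (t0 * (w * z)) := by
      rw [LinearMap.trace_mul_comm, mul_assoc]
    have e3 : trace K V (t0 * (z * w)) - trace K V (t0 * (w * z)) =
        trace K V (t0 * (z * w - w * z)) := by rw [mul_sub, map_sub]
    rw [e1, map_sub, e2, e3, ← ht' _ (h.br z hz w hw)]
    have e4 : (ε - (1 - ε)) * (z * w - w * z) =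
        z * ((ε - (1 - ε)) * w) - (ε - (1 - ε)) * w * z := by
      rw [mul_sub, ← mul_assoc, ← mul_assoc, b.th_comm (b.comm z hz), mul_assoc]
    rw [e4, map_sub, LinearMap.trace_mul_comm, sub_self]
  obtain ⟨s, hs⟩ := b.central h ht0 hc
  have hs0 : s = 0 := by
    by_contra hs0
    apply hθ
    have h3 := G.smul_mem s⁻¹ ht0
    rwa [hs, smul_smul, inv_mul_cancel₀ hs0, one_smul] at h3
  rw [ht' w hw, hs, hs0, zero_smul, zero_mul, map_zero]

/-- The enlarged Lie algebra. -/
theorem setup : Setup (Gp G ε) st where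
  br := by
    intro y0 hy0 z0 hz0
    obtain ⟨y, hy, s, rfl⟩ := exists_gp hy0
    obtain ⟨z, hz, t, rfl⟩ := exists_gp hz0
    have e1 : (y + s • (ε - (1 - ε))) * (z + t • (ε - (1 - ε))) -
        (z + t • (ε - (1 - ε))) * (y + s • (ε - (1 - ε))) = y * z - z * y := by
      simp only [add_mul, mul_add, smul_mul_assoc, mul_smul_comm, b.th_comm (b.comm y hy),
        b.th_comm (b.comm z hz), smul_smul, smul_add, mul_comm s t]
      abel
    rw [e1]
    exact mem_gp (h.br y hy z hz)
  st_mul := h.st_mul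
  st_rk := h.st_rk
  skew := by
    intro y0 hy0
    obtain ⟨y, hy, s, rfl⟩ := exists_gp hy0
    rw [map_add, map_smul, h.skew y hy, b.st_th]
    module
  nondeg := by
    intro y hy hyz
    by_cases hθ : ε - (1 - ε) ∈ G
    · have hGp : Gp G ε ≤ G := sup_le le_rfl (by
        rw [Submodule.span_le]
        rintro _ rfl
        exact hθ)
      exact h.nondeg y (hGp hy) fun z hz => hyz z (mem_gp hz)
    · obtain ⟨y, hy', s, rfl⟩ := exists_gp hy
      have e1 := hyz _ th_mem_gp
      rw [add_mul, map_add, smul_mul_assoc, b.th_sq, map_smul, LinearMap.trace_one, smul_eq_mul,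
        ← b.th_comm (b.comm y hy'), b.trace_th h hθ hy', zero_add] at e1
      have hV : (finrank K V : K) ≠ 0 := by
        have h0 : finrank K V ≠ 0 := by
          intro h0
          apply b.ne
          have := finrank_zero_iff.1 h0
          exact Subsingleton.elim _ _
        exact_mod_cast h0
      have hs := (mul_eq_zero.1 e1).resolve_right hV
      have e2 : y = 0 := by
        refine h.nondeg y hy' fun z hz => ?_
        have e3 := hyz z (mem_gp hz)
        rwa [hs, zero_smul, add_zero] at e3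
      rw [e2, hs, zero_smul, add_zero]
  gen := by
    intro L h1 h2
    refine sup_le (h.gen L (fun D hD hD2 => h1 D (mem_gp hD) hD2) h2) ?_
    rw [Submodule.span_le]
    rintro _ rfl
    exact h1 _ th_mem_gp b.th_sq
  cr := by
    intro M hM
    obtain ⟨π, k1, k2, k3⟩ := h.cr M fun y hy => hM y (mem_gp hy)
    obtain ⟨s, t, hst⟩ := b.com π k1
    refine ⟨π, fun y hy => ?_, k2, k3⟩
    have h4 := b.comm_gp hy
    rw [hst]
    simp only [add_mul, mul_add, smul_mul_assoc, mul_smul_comm, h4, sub_mul, mul_sub, one_mul,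
      mul_one]

end Blk0

/-- The trace on the first summand vanishes on the Lie algebra generated by the positive and the
negative part. -/
theorem trace_j {G : Submodule K (End K V)} {ε D : End K V}
    (hc : ∀ y ∈ G, ε * y = y * ε) (hD : D ∈ G) {y : End K V}
    (hy : y ∈ Kp G D ⊔ Kp G (-D) ⊔ Kz G D) : trace K V (ε * y) = 0 := by
  have key : Kp G D ⊔ Kp G (-D) ⊔ Kz G D ≤
      LinearMap.ker ((LinearMap.trace K V).comp (LinearMap.mulLeft K ε)) := by
    have hz : ∀ x : K, x = -x → x = 0 := by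
      intro x hx
      have h2 : (2 : K) * x = 0 := by linear_combination hx
      exact (mul_eq_zero.1 h2).resolve_left two_ne_zero
    refine sup_le (sup_le ?_ ?_) ?_
    · intro x hx
      change trace K V (ε * x) = 0
      apply hz
      calc trace K V (ε * x) = trace K V (ε * (D * x)) := by rw [hx.2.1]
      _ = trace K V (D * (ε * x)) := by rw [← mul_assoc, hc D hD, mul_assoc]
      _ = trace K V (ε * x * D) := LinearMap.trace_mul_comm K _ _
      _ = -trace K V (ε * x) := by rw [mul_assoc, hx.2.2, mul_neg, map_neg]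
    · intro x hx
      change trace K V (ε * x) = 0
      apply hz
      have hx' := mem_Kn.1 hx
      calc trace K V (ε * x) = trace K V (ε * (x * D)) := by rw [hx'.2.2]
      _ = trace K V (D * (ε * x)) := by
        rw [← mul_assoc]
        exact LinearMap.trace_mul_comm K _ _
      _ = trace K V (ε * (D * x)) := by rw [← mul_assoc, ← hc D hD, mul_assoc]
      _ = -trace K V (ε * x) := by rw [hx'.2.1, mul_neg, map_neg]
    · unfold Kz
      rw [Submodule.span_le]
      rintro _ ⟨x, hx, y, hy, rfl⟩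
      change trace K V (ε * (x * y - y * x)) = 0
      rw [mul_sub, map_sub, ← mul_assoc, hc x hx.1, mul_assoc, LinearMap.trace_mul_comm K x,
        mul_assoc, sub_self]
  exact key hy

section noGr

variable (b : Blk0 G st ε) (h : Setup G st)

include b h

/-- There are no diagonal submodules if all traces vanish. -/
theorem noGr_of_zero {S : Set (End K V)} (hS : ∀ D ∈ S, D ∈ G)
    (hgen : ∀ L : Submodule K (End K V), S ⊆ L → (∀ y ∈ L, ∀ z ∈ L, y * z - z * y ∈ L) → G ≤ L)
    (htr : ∀ D ∈ S, trace K V (ε * D) = 0) {D : End K V} (hDS : D ∈ S) (hD2 : D * D = 1)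
    (hG : Gp G ε ≤ JD (Gp G ε) ε D) (hne : ∀ s : K, D ≠ s • (ε - (1 - ε)))
    (hirrn : IrrE (Gp G ε) ε (-D)) (hirrn' : IrrE (Gp G ε) (1 - ε) (-D)) :
    NoGr (Gp G ε) ε D := by
  intro W hW1 hW2 hW3 hW4
  have hD : D ∈ G := hS D hDS
  obtain ⟨G', hG'⟩ : ∃ G', G' = Gp G ε := ⟨_, rfl⟩
  have hD' : D ∈ G' := by rw [hG']; exact mem_gp hD
  have h' : Setup G' st := by rw [hG']; exact b.setup h
  have b' : Blk G' st ε := by rw [hG']; exact b.blk
  rw [← hG'] at hG hW2 hirrn hirrn'
  have hGJ := gj h' b' hD' hD2 hG hne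
  -- the submodule generated by `W`
  have hxW : ∀ x ∈ Kp G' D, ∀ w ∈ W, x w = 0 := by
    intro x hx w hw
    have h1 : x (D w) = -(x w) := LinearMap.congr_fun hx.2.2 w
    rw [hW1 w hw] at h1
    have h2 : (2 : K) • x w = 0 := by
      rw [two_smul]
      nth_rewrite 1 [h1]
      exact neg_add_cancel _
    exact (smul_eq_zero.1 h2).resolve_left two_ne_zero
  let U : Submodule K V := Submodule.span K {v | ∃ y ∈ Kp G' (-D), ∃ w ∈ W, v = y w}
  have hU : ∀ u ∈ U, D u = -u := by
    intro u hu
    induction hu using Submodule.span_induction with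
    | mem x hx =>
      obtain ⟨y, hy, w, hw, rfl⟩ := hx
      exact LinearMap.congr_fun (mem_Kn.1 hy).2.1 w
    | zero => rw [map_zero, neg_zero]
    | add x y _ _ hx hy => rw [map_add, hx, hy, neg_add]
    | smul c x _ hx => rw [map_smul, hx, smul_neg]
  have hxU : ∀ x ∈ Kp G' D, ∀ u ∈ U, x u ∈ W := by
    intro x hx u hu
    induction hu using Submodule.span_induction with
    | mem v hv =>
      obtain ⟨y, hy, w, hw, rfl⟩ := hv
      exact hW2 x hx y hy w hw
    | zero => rw [map_zero]; exact W.zero_mem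
    | add a b _ _ ha hb => rw [map_add]; exact W.add_mem ha hb
    | smul c a _ ha => rw [map_smul]; exact W.smul_mem _ ha
  have hyU : ∀ y ∈ Kp G' (-D), ∀ u ∈ U, y u = 0 := by
    intro y hy u hu
    have h1 : y (D u) = y u := LinearMap.congr_fun (mem_Kn.1 hy).2.2 u
    rw [hU u hu, map_neg] at h1
    have h2 : (2 : K) • y u = 0 := by
      rw [two_smul]
      nth_rewrite 1 [← h1]
      exact neg_add_cancel _
    exact (smul_eq_zero.1 h2).resolve_left two_ne_zero
  have hyW : ∀ y ∈ Kp G' (-D), ∀ w ∈ W, y w ∈ U := fun y hy w hw =>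
    Submodule.subset_span ⟨y, hy, w, hw, rfl⟩
  have st1 : ∀ x ∈ Kp G' D, ∀ w ∈ W ⊔ U, x w ∈ W := by
    intro x hx w hw
    obtain ⟨a, ha, b, hb, rfl⟩ := Submodule.mem_sup.1 hw
    rw [map_add, hxW x hx a ha, zero_add]
    exact hxU x hx b hb
  have st2 : ∀ y ∈ Kp G' (-D), ∀ w ∈ W ⊔ U, y w ∈ U := by
    intro x hx w hw
    obtain ⟨a, ha, b, hb, rfl⟩ := Submodule.mem_sup.1 hw
    rw [map_add, hyU x hx b hb, add_zero]
    exact hyW x hx a ha
  let Q : Submodule K (End K V) :=
    { carrier := {z | ∀ w ∈ W ⊔ U, z w ∈ W ⊔ U}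
      zero_mem' := fun w _ => Submodule.zero_mem _
      add_mem' := fun {a b} ha hb w hw => Submodule.add_mem _ (ha w hw) (hb w hw)
      smul_mem' := fun c a ha w hw => Submodule.smul_mem _ c (ha w hw) }
  have hJQ : Kp G' D ⊔ Kp G' (-D) ⊔ Kz G' D ≤ Q := by
    refine sup_le (sup_le (fun x hx w hw => Submodule.mem_sup_left (st1 x hx w hw))
      fun y hy w hw => Submodule.mem_sup_right (st2 y hy w hw)) ?_
    unfold Kz
    rw [Submodule.span_le]
    rintro _ ⟨x, hx, y, hy, rfl⟩ w hw
    change x (y w) - y (x w) ∈ W ⊔ U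
    exact Submodule.sub_mem _ (Submodule.mem_sup_left (st1 x hx _
      (Submodule.mem_sup_right (st2 y hy w hw)))) (Submodule.mem_sup_right (st2 y hy _
      (Submodule.mem_sup_left (st1 x hx w hw))))
  have hSJ : ∀ E ∈ S, E ∈ Kp G' D ⊔ Kp G' (-D) ⊔ Kz G' D := by
    intro E hE
    have hEG : E ∈ G' := by rw [hG']; exact mem_gp (hS E hE)
    obtain ⟨j, hj, w, hw, hjw⟩ := Submodule.mem_sup.1 (hGJ hEG)
    obtain ⟨t, rfl⟩ := Submodule.mem_span_singleton.1 hw
    have e1 := trace_j (fun y hy => b'.comm y hy) hD' hj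
    have e2 := htr E hE
    rw [← hjw, mul_add, map_add, e1, zero_add, mul_smul_comm, map_smul, mul_sub, b.idem, b.e0,
      sub_zero, smul_eq_mul, trace_idem b.idem] at e2
    have hr : (rk ε : K) ≠ 0 := by
      have : rk ε ≠ 0 := fun h0 => b.ne (rk_eq_zero h0)
      exact_mod_cast this
    rw [(mul_eq_zero.1 e2).resolve_right hr, zero_smul, add_zero] at hjw
    rw [← hjw]
    exact hj
  have hGQ : G ≤ Q := hgen Q (fun E hE => hJQ (hSJ E hE)) (by
    intro y hy z hz w hw
    change y (z w) - z (y w) ∈ W ⊔ U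
    exact Submodule.sub_mem _ (hy _ (hz w hw)) (hz _ (hy w hw)))
  -- elements of the negative part which are killed by the positive part
  obtain ⟨x0, hx0, hx00⟩ : ∃ x ∈ Kp G' D, x ≠ 0 := by
    by_contra hcon
    push Not at hcon
    have hcon' : ∀ u ∈ Kp G' (-D), u = 0 := by
      intro u hu
      obtain ⟨y, hy, h1, -⟩ := kn_partner h' hD' hD2 hu
      rw [← h1, hcon y hy, mul_zero, zero_mul]
    have hc : ∀ y ∈ G', D * y = y * D := by
      intro y hy
      have e1 := hcon _ ⟨h'.idl.up hD' hD2 hy, up_left hD2 y, up_right hD2 y⟩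
      have e2 := hcon' _ (mem_Kn.2 ⟨h'.idl.dn hD' hD2 hy, dn_left hD2 y, dn_right hD2 y⟩)
      have e3 : (2 : K) • (D * y - y * D) = 0 := by
        have : (2 : K) • (D * y - y * D) = (1 + D) * y * (1 - D) - (1 - D) * y * (1 + D) := by
          rw [two_smul]
          noncomm_ring
        rw [this, e1, e2, sub_zero]
      exact sub_eq_zero.1 ((smul_eq_zero.1 e3).resolve_left two_ne_zero)
    obtain ⟨s, hs⟩ := b'.central h' hD' hc
    exact hne s hs
  have hkill : ∀ {e : End K V}, Blk G' st e → IrrE G' e (-D) → ∀ v, D v = -v → e v = v →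
      (∀ x ∈ Kp G' D, x v = 0) → v = 0 := by
    intro e be hirr v hv1 hv2 hv3
    have h3 := hirr (Submodule.span K {v}) (by
      intro w hw
      obtain ⟨t, rfl⟩ := Submodule.mem_span_singleton.1 hw
      refine ⟨?_, by rw [map_smul, hv2]⟩
      change -(D (t • v)) = t • v
      rw [map_smul, hv1, smul_neg, neg_neg]) (by
      intro x hx y hy w hw
      rw [neg_neg_D] at hy
      obtain ⟨t, rfl⟩ := Submodule.mem_span_singleton.1 hw
      rw [map_smul, hv3 y hy, smul_zero, map_zero]
      exact Submodule.zero_mem _)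
    rcases h3 with h3 | h3
    · exact Submodule.span_singleton_eq_bot.1 h3
    · exfalso
      apply hx00
      refine be.zero_of h' hx0.1 (LinearMap.ext fun u => ?_)
      have e1 : x0 u = x0 ((2 : K)⁻¹ • (u - D u)) := by
        have e2 : x0 (D u) = -(x0 u) := LinearMap.congr_fun hx0.2.2 u
        rw [map_smul, map_sub, e2, sub_neg_eq_add, ← two_smul K, smul_smul,
          inv_mul_cancel₀ two_ne_zero, one_smul]
      have hDD : D (D u) = u := LinearMap.congr_fun hD2 u
      have e3 : e ((2 : K)⁻¹ • (u - D u)) ∈ Submodule.span K {v} := by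
        refine h3 _ ?_ (LinearMap.congr_fun be.idem _)
        have e4 : D (e ((2 : K)⁻¹ • (u - D u))) = e (D ((2 : K)⁻¹ • (u - D u))) :=
          (LinearMap.congr_fun (be.comm D hD') _).symm
        rw [LinearMap.neg_apply, e4, map_smul, map_sub, hDD, ← map_neg, ← smul_neg, neg_sub]
      obtain ⟨t, ht⟩ := Submodule.mem_span_singleton.1 e3
      change e (x0 u) = 0
      rw [e1, eps_kp be hx0, ← ht, map_smul, hv3 x0 hx0, smul_zero]
  have hmain : ∀ {e : End K V}, Blk G' st e → IrrE G' e (-D) → (∀ w ∈ W, e w = w → w = 0) →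
      ∀ w ∈ W ⊔ U, e w = w → w = 0 := by
    intro e be hirr hWe w hw hew
    obtain ⟨a, ha, u, hu, rfl⟩ := Submodule.mem_sup.1 hw
    have hDe : ∀ v, e (D v) = D (e v) := fun v => LinearMap.congr_fun (be.comm D hD') v
    have e1 := congrArg D hew
    rw [← hDe, map_add, hW1 a ha, hU u hu, map_add] at e1
    rw [map_add] at hew
    have e2 : (2 : K) • e a = (2 : K) • a := by
      rw [map_neg] at e1
      have e3 : e a + e u + (e a + -(e u)) = a + u + (a + -u) := by rw [hew, e1]
      rw [two_smul, two_smul]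
      calc e a + e a = e a + e u + (e a + -(e u)) := by abel
      _ = a + u + (a + -u) := e3
      _ = a + a := by abel
    have e3 : e a = a := smul_right_injective V (two_ne_zero (α := K)) e2
    have ha0 : a = 0 := hWe a ha e3
    rw [ha0, map_zero, zero_add, zero_add] at hew
    have hu0 : u = 0 := by
      refine hkill be hirr u (hU u hu) hew fun x hx => ?_
      refine hWe _ (hxU x hx u hu) ?_
      rw [eps_kp be hx, hew]
    rw [ha0, hu0, add_zero]
  have hM := b.no_diag h (M := W ⊔ U) (fun y hy => hGQ hy) (hmain b' hirrn hW3) (by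
    intro w hw hεw
    refine hmain (b'.symm h') hirrn' (fun w hw hew => hW4 w hw ?_) w hw ?_
    · rw [LinearMap.sub_apply, Module.End.one_apply, sub_eq_self] at hew
      exact hew
    · rw [LinearMap.sub_apply, Module.End.one_apply, hεw, sub_zero])
  rw [← le_bot_iff, ← hM]
  exact le_sup_left

end noGr

end Pool.Agent.Y91.G
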