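import Mathlib
import Pool.Agent.Y91.G.Stm
import Pool.Agent.Y91.G.Add

/-!
# Two dual summands: rank one elements
-/

set_option linter.unusedSectionVars false

namespace Pool.Agent.Y91.G

open Module LinearMap Pool.Agent.W548.Odd Pool.Agent.Y91.JP Pool.Agent.Y91.P

section gen

variable {K : Type*} [Field K] [CharZero K] {V : Type*} [AddCommGroup V] [Module K V]
  [FiniteDimensional K V]

variable {G I : Submodule K (End K V)} {st : End K V →ₗ[K] End K V} (h : Setup G st)
  {ε : End K V} (b : Blk G st ε)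

include h b in
theorem exists_kp {D : End K V} (hD : D ∈ G) (hD2 : D * D = 1)
    (hne : ∀ s : K, D ≠ s • (ε - (1 - ε))) : ∃ u ∈ Kp G D, u ≠ 0 := by
  by_contra hcon
  push Not at hcon
  have hcon' : ∀ u ∈ Kp G (-D), u = 0 := by
    intro u hu
    obtain ⟨y, hy, h1, -⟩ := kn_partner h hD hD2 hu
    rw [← h1, hcon y hy, mul_zero, zero_mul]
  have hc : ∀ y ∈ G, D * y = y * D := by
    intro y hy
    have e1 := hcon _ ⟨h.idl.up hD hD2 hy, up_left hD2 y, up_right hD2 y⟩
    have e2 := hcon' _ (mem_Kn.2 ⟨h.idl.dn hD hD2 hy, dn_left hD2 y, dn_right hD2 y⟩)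
    have e3 : (2 : K) • (D * y - y * D) = 0 := by
      have : (2 : K) • (D * y - y * D) = (1 + D) * y * (1 - D) - (1 - D) * y * (1 + D) := by
        rw [two_smul]
        noncomm_ring
      rw [this, e1, e2, sub_zero]
    exact sub_eq_zero.1 ((smul_eq_zero.1 e3).resolve_left two_ne_zero)
  obtain ⟨s, hs⟩ := b.central h hD hc
  exact hne s hs

include b in
theorem rk_pos {D : End K V} (hD : D ∈ G) (hD2 : D * D = 1) :
    rk (ε * (1 + D)) = finrank K (Pos D ε) := by
  have h1 : Pos D ε = LinearMap.range (ε * (1 + D)) := by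
    ext v
    constructor
    · rintro ⟨hv, hεv⟩
      refine ⟨(2 : K)⁻¹ • v, ?_⟩
      change ε ((2 : K)⁻¹ • v + D ((2 : K)⁻¹ • v)) = v
      rw [map_smul, hv, ← two_smul K, smul_smul, mul_inv_cancel₀ two_ne_zero, one_smul, hεv]
    · rintro ⟨w, rfl⟩
      refine ⟨?_, LinearMap.congr_fun b.idem _⟩
      have e2 : D * (ε * (1 + D)) = ε * (1 + D) := by
        rw [← mul_assoc, ← b.comm D hD, mul_assoc, mul_add, mul_one, hD2, add_comm]
      exact LinearMap.congr_fun e2 w
  unfold rk
  rw [h1]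

include b in
theorem rk_eps {D : End K V} (hD : D ∈ G) (hD2 : D * D = 1) :
    rk ε = finrank K (Pos D ε) + finrank K (Pos (-D) ε) := by
  have h1 := finrank_pos b hD hD2
  have h2 := finrank_pos b (D := -D) (G.neg_mem hD) (by rw [neg_mul_neg, hD2])
  rw [mul_neg, map_neg] at h2
  have h3 : (2 : K) * (rk ε : K) = 2 * ((finrank K (Pos D ε) : K) +
      (finrank K (Pos (-D) ε) : K)) := by
    rw [← trace_idem b.idem]
    linear_combination -h1 - h2
  have h4 := mul_left_cancel₀ two_ne_zero h3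
  exact_mod_cast h4

/-- The traces of matrix units. -/
theorem MUE.tr_diag {A : Subalgebra K (End K V)} {d : ℕ} {e : Fin d → Fin d → End K V}
    (M : MUE A ε e) (i : Fin d) : (d : K) * trace K V (e i i) = trace K V ε := by
  have h1 : ∀ j, trace K V (e j j) = trace K V (e i i) := by
    intro j
    have e1 := M.mul j i i j
    have e2 := M.mul i j j i
    rw [if_pos rfl] at e1 e2
    rw [← e1, ← e2, LinearMap.trace_mul_comm]
  rw [← M.sum, map_sum, Finset.sum_congr rfl fun j _ => h1 j, Finset.sum_const, Finset.card_univ,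
    Fintype.card_fin, nsmul_eq_mul]

theorem MUE.tr_off {A : Subalgebra K (End K V)} {d : ℕ} {e : Fin d → Fin d → End K V}
    (M : MUE A ε e) {i j : Fin d} (hij : i ≠ j) : trace K V (e i j) = 0 := by
  have e1 := M.mul i i i j
  have e2 := M.mul i j i i
  rw [if_pos rfl] at e1
  rw [if_neg (fun h0 => hij h0.symm)] at e2
  rw [← e1, LinearMap.trace_mul_comm, e2, map_zero]

theorem MUE.tr_sum {A : Subalgebra K (End K V)} {d : ℕ} {e : Fin d → Fin d → End K V}
    (M : MUE A ε e) (c : Fin d → Fin d → K) :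
    (d : K) * trace K V (∑ i, ∑ j, c i j • e i j) = (∑ i, c i i) * trace K V ε := by
  rw [map_sum, Finset.mul_sum, Finset.sum_mul]
  refine Finset.sum_congr rfl fun i _ => ?_
  rw [map_sum, Finset.sum_eq_single i]
  · rw [map_smul, smul_eq_mul, ← M.tr_diag i]
    ring
  · intro j _ hj
    rw [map_smul, M.tr_off (Ne.symm hj), smul_zero]
  · intro hi
    exact absurd (Finset.mem_univ i) hi

end gen

variable {K : Type} [Field K] [CharZero K] {V : Type} [AddCommGroup V] [Module K V]
  [FiniteDimensional K V]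

variable {G I : Submodule K (End K V)} {st : End K V →ₗ[K] End K V}
  {ε : End K V}

/-- **Rank one elements**: an involution which generates the Lie algebra as an ideal up to the
centre. -/
theorem rank_oneE [IsAlgClosed K] (hsp : S_SPIN) (hse : S_SELF) (h : Setup G st) (b : Blk G st ε)
    (htr : TrSt st) {D : End K V} (hD : D ∈ G) (hD2 : D * D = 1)
    (hG : G ≤ JD G ε D) (hneθ : ∀ s : K, D ≠ s • (ε - (1 - ε))) (hno : NoGr G ε D)
    (hpow : trace K V (ε * D) = 0 → ∀ m : ℕ, 1 ≤ m → 2 ^ (m + 1) ≠ rk ε)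
    (hexc : finrank K (Pos D ε) ≠ finrank K (Pos (-D) ε) → ∀ n a : ℕ, 1 < a → a < n →
      ¬ (finrank K (Pos D ε) = n.choose a ∧
        finrank K (Pos (-D) ε) = n.choose (a - 1))) : ∃ c ∈ Kp G D, rk (ε * c) = 1 := by
  have b' := b.symm h
  have H := gen3 h b hD hD2 hG hneθ
  have hirr := irrE h b H
  have hirrn := irrE h b H.neg
  have hirr' := irrE h b' H.symm
  have hirrn' := irrE h b' H.symm.neg
  obtain ⟨u, hu, hu0⟩ := exists_kp h b hD hD2 hneθ
  obtain ⟨c, d, F, -⟩ := exists_prim h hD hD2 hu hu0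
  refine ⟨c, F.cm, ?_⟩
  by_cases hcon : ∀ x ∈ Kp G D, x - c * d * x - x * (d * c) + c * d * x * (d * c) = 0
  · by_cases hpq : finrank K (Pos D ε) = finrank K (Pos (-D) ε)
    · exact hse K V G st h ε b htr D c d (c * d) (d * c) F hD hD2 hirr hirrn hirr' hirrn' hcon
        hno hpq
    obtain ⟨n, a, ha1, han, hp, hq, hna⟩ := excE h b F htr hD hD2 hirr hirrn hcon
    rcases Nat.lt_or_ge 1 a with h1 | h1
    · rcases Nat.lt_or_ge a n with h2 | h2
      · exact absurd ⟨hp, hq⟩ (hexc hpq n a h1 h2)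
      · obtain rfl : a = n := by omega
        rw [Nat.choose_self, mul_one] at hna
        exact Nat.eq_of_mul_eq_mul_left (by omega : 0 < a) (by rw [hna, mul_one])
    · obtain rfl : a = 1 := by omega
      rw [Nat.choose_one_right, one_mul] at hna
      exact Nat.eq_of_mul_eq_mul_left (by omega : 0 < n) (by rw [hna, mul_one])
  · push Not at hcon
    obtain ⟨c2, d2, p2, q2, T⟩ := F.exists_two h hD hD2 hcon
    obtain ⟨a, FF⟩ := exists_fra' h T htr hD hD2 (connectedE h b T hirr)
    by_cases hpath : ∃ x ∈ Kp G D, ∃ y ∈ Kp G (-D),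
        c * d * x * (1 - d * c - q2) * y * (c * d) ≠ 0
    · exact rk_oneE h b FF rfl rfl hirr hirr' hno hpath
    · exfalso
      push Not at hpath
      obtain ⟨e1, e2⟩ := no_path h b FF rfl rfl hD hD2 hirr hirr' hpath
      obtain ⟨n, hn, hn2⟩ := hsp K V G st h ε b htr D _ _ _ _ _ _ _ _ _ FF hD hD2 hG hneθ e1 e2
      have e3 : trace K V (ε * D) = 0 := by
        by_contra hne
        obtain ⟨x, hx, y, hy, hxy⟩ := exists_pathE h b FF rfl rfl hD hD2 hirr hirr' hne
        exact hxy (hpath x hx y hy)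
      obtain ⟨m, rfl⟩ : ∃ m, n = m + 1 := ⟨n - 1, by omega⟩
      exact hpow e3 m (by omega) hn2

/-- **Rank one elements of Lie algebras generated by conjugate involutions.** -/
theorem rank_one_all [IsAlgClosed K] (hsp : S_SPIN) (hse : S_SELF) (h0 : Setup G st)
    (b0 : Blk0 G st ε) (htr : TrSt st) {S : Set (End K V)}
    (hS : ∀ D ∈ S, D ∈ G ∧ D * D = 1)
    (hgen : ∀ L : Submodule K (End K V), S ⊆ L → (∀ y ∈ L, ∀ z ∈ L, y * z - z * y ∈ L) → G ≤ L)
    {D₀ : End K V} (hD₀S : D₀ ∈ S)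
    (hconj : ∀ D ∈ S, ∃ τ : K ≃+* K, ∀ (d : ℕ) (e : Fin d → Fin d → End K V),
      MUE (Algebra.adjoin K (JD (Gp G ε) ε D₀ : Set (End K V))) ε e →
        ∃ e' : Fin d → Fin d → End K V,
          MUE (Algebra.adjoin K (JD (Gp G ε) ε D : Set (End K V))) ε e' ∧
          ∀ c : Fin d → Fin d → K, ε * D₀ = ∑ i, ∑ j, c i j • e i j →
            ε * D = ∑ i, ∑ j, τ (c i j) • e' i j)
    {p q : ℕ} (hp : finrank K (Pos D₀ ε) = p) (hq : finrank K (Pos (-D₀) ε) = q)
    (hpq1 : p + q ≠ 1) (h1 : ∀ d m : ℕ, 2 ≤ d → 1 ≤ m → d ^ (m + 1) = p + q → ¬ d ^ m ∣ p)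
    (h2 : p ≠ q → ∀ n a : ℕ, 1 < a → a < n → ¬ (p = n.choose a ∧ q = n.choose (a - 1))) :
    ∃ c ∈ Kp (Gp G ε) D₀, rk (ε * c) = 1 := by
  have h := b0.setup h0
  have b := b0.blk
  have hS' : ∀ D ∈ S, D ∈ Gp G ε ∧ D * D = 1 := fun D hD => ⟨mem_gp (hS D hD).1, (hS D hD).2⟩
  obtain ⟨hD, hD2⟩ := hS' D₀ hD₀S
  have hrk := rk_eps b hD hD2
  rw [hp, hq] at hrk
  have t1 := finrank_pos b hD hD2
  have t2 := finrank_pos b (D := -D₀) (Submodule.neg_mem _ hD) (by rw [neg_mul_neg, hD2])
  rw [mul_neg, map_neg, hq] at t2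
  rw [hp] at t1
  rw [trace_idem b.idem, hrk] at t1 t2
  push_cast at t1 t2
  have htD : trace K V (ε * D₀) = (p : K) - q := by linear_combination -t1
  have hrk0 : (rk ε : K) ≠ 0 := by
    have : rk ε ≠ 0 := fun h0 => b.ne (rk_eq_zero h0)
    exact_mod_cast this
  -- the traces
  have htrace : ∀ D ∈ S, trace K V (ε * D) = (p : K) - q := by
    intro D hDS
    obtain ⟨τ, hτ⟩ := hconj D hDS
    obtain ⟨d, hd, e, M⟩ := idl_mue h b (jd_idl h b hD) (th_mem_jd D₀)
    obtain ⟨e', M', hc'⟩ := hτ d e M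
    obtain ⟨c, hc⟩ := M.span D₀ (Algebra.subset_adjoin (mem_jd D₀))
    have hd0 : (d : K) ≠ 0 := by
      have : d ≠ 0 := hd.out
      exact_mod_cast this
    have e1 := M.tr_sum c
    have e2 := M'.tr_sum fun i j => τ (c i j)
    rw [← hc, htD, trace_idem b.idem] at e1
    rw [← hc' c hc, trace_idem b.idem] at e2
    have e3 := congrArg τ e1
    rw [map_mul, map_mul, map_sub, map_natCast, map_natCast, map_natCast, map_natCast,
      map_sum, ← e2] at e3
    exact (mul_left_cancel₀ hd0 e3).symm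
  -- the multiplicities are positive
  have hpos : 0 < p ∧ 0 < q := by
    by_contra hcon
    obtain ⟨s, hs2, hs⟩ : ∃ s : K, s * s = 1 ∧ (p : K) - q = s * (rk ε : K) := by
      rw [hrk]
      push_cast
      rcases Nat.eq_zero_or_pos p with h3 | h3
      · exact ⟨-1, by ring, by rw [h3, Nat.cast_zero]; ring⟩
      · rcases Nat.eq_zero_or_pos q with h4 | h4
        · exact ⟨1, by ring, by rw [h4, Nat.cast_zero]; ring⟩
        · exact absurd ⟨h3, h4⟩ hcon
    have hDth : ∀ D ∈ S, D = s • (ε - (1 - ε)) := by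
      intro D hDS
      obtain ⟨hD, hD2⟩ := hS' D hDS
      have hεD := b.comm D hD
      have k1 : ((2 : K)⁻¹ • (ε - s • (ε * D))) * ((2 : K)⁻¹ • (ε - s • (ε * D))) =
          (2 : K)⁻¹ • (ε - s • (ε * D)) := by
        have k2 : (ε - s • (ε * D)) * (ε - s • (ε * D)) = (2 : K) • (ε - s • (ε * D)) := by
          have k3 : ε * D * ε = ε * D := by rw [mul_assoc, ← hεD, ← mul_assoc, b.idem]
          have k4 : ε * (ε * D) = ε * D := by rw [← mul_assoc, b.idem]
          have k5 : ε * D * (ε * D) = ε := by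
            rw [← mul_assoc, k3, mul_assoc, hD2, mul_one]
          rw [mul_sub, sub_mul, sub_mul, b.idem, smul_mul_assoc, mul_smul_comm, smul_mul_assoc,
            mul_smul_comm, k3, k4, k5, smul_smul, hs2]
          module
        rw [smul_mul_smul_comm, k2, smul_smul]
        congr 1
        rw [mul_assoc, inv_mul_cancel₀ two_ne_zero, mul_one]
      have k2 := trace_idem k1
      rw [map_smul, map_sub, map_smul, htrace D hDS, hs, trace_idem b.idem, smul_eq_mul,
        smul_eq_mul, ← mul_assoc s s, hs2, one_mul, sub_self, mul_zero] at k2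
      have k3 : rk ((2 : K)⁻¹ • (ε - s • (ε * D))) = 0 := by exact_mod_cast k2.symm
      have k4 := (smul_eq_zero.1 (rk_eq_zero k3)).resolve_left (inv_ne_zero two_ne_zero)
      rw [← sub_eq_zero]
      refine b.zero_of h (Submodule.sub_mem _ hD (Submodule.smul_mem _ _ b.th)) ?_
      rw [mul_sub, mul_smul_comm, mul_sub, b.idem, b.e0, sub_zero]
      have k5 : s • (ε - s • (ε * D)) = s • ε - ε * D := by
        rw [smul_sub, smul_smul, hs2, one_smul]
      rw [k4, smul_zero] at k5
      rw [← neg_sub, ← k5, neg_zero]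
    have hGθ : G ≤ Submodule.span K {ε - (1 - ε)} := by
      refine hgen _ (fun D hDS => ?_) ?_
      · rw [hDth D hDS]
        exact Submodule.smul_mem _ _ (Submodule.mem_span_singleton_self _)
      · intro y hy z hz
        obtain ⟨a, rfl⟩ := Submodule.mem_span_singleton.1 hy
        obtain ⟨c, rfl⟩ := Submodule.mem_span_singleton.1 hz
        rw [smul_mul_smul_comm, smul_mul_smul_comm, mul_comm a c, sub_self]
        exact Submodule.zero_mem _
    obtain ⟨v', hv'⟩ : ∃ v, ε v ≠ 0 := by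
      by_contra hcon
      push Not at hcon
      exact b.ne (LinearMap.ext hcon)
    obtain ⟨v, hv⟩ : ∃ v, v = ε v' := ⟨_, rfl⟩
    have hεv : ε v = v := by
      rw [hv]
      exact LinearMap.congr_fun b.idem v'
    have hv0 : v ≠ 0 := by rwa [hv]
    obtain ⟨f, hf⟩ : ∃ f : Dual K V, f v ≠ 0 := by
      by_contra hcon
      push Not at hcon
      exact hv0 ((Module.forall_dual_apply_eq_zero_iff K v).1 hcon)
    obtain ⟨x, hx⟩ : ∃ x : End K V, x = (LinearMap.toSpanSingleton K V v).comp f := ⟨_, rfl⟩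
    have hxw : ∀ w, x w = f w • v := fun w => by rw [hx]; rfl
    obtain ⟨a, t, hat⟩ := b0.com (ε * x * ε) (by
      intro y hy
      obtain ⟨r, rfl⟩ := Submodule.mem_span_singleton.1 (hGθ hy)
      rw [mul_smul_comm, smul_mul_assoc]
      congr 1
      have k1 : ε * (ε - (1 - ε)) = ε := by rw [mul_sub, b.idem, b.e0, sub_zero]
      have k2 : (ε - (1 - ε)) * ε = ε := by rw [sub_mul, b.idem, b.e0', sub_zero]
      rw [mul_assoc, k1, ← mul_assoc, ← mul_assoc, k2])
    have k1 : ε * x * ε = a • ε := by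
      have k2 := congrArg (fun z => ε * z) hat
      simp only [mul_add, mul_smul_comm, b.idem, b.e0, smul_zero, add_zero] at k2
      rwa [← mul_assoc, ← mul_assoc, b.idem] at k2
    have k2 : a ≠ 0 := by
      intro ha
      have k3 := LinearMap.congr_fun k1 v
      change ε (x (ε v)) = (a • ε) v at k3
      rw [hεv, hxw, map_smul, hεv, ha, zero_smul, LinearMap.zero_apply] at k3
      rcases smul_eq_zero.1 k3 with k4 | k4
      · exact hf k4
      · exact hv0 k4
    have k3 : rk ε ≤ 1 := by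
      have k4 : rk (ε * x * ε) = rk ε := by rw [k1, rk_smul k2]
      rw [← k4]
      calc rk (ε * x * ε) ≤ rk (ε * x) := rk_mul_le_left _ _
      _ ≤ rk x := rk_mul_le_right _ _
      _ ≤ 1 := by
        unfold rk
        calc finrank K (LinearMap.range x) ≤ finrank K (Submodule.span K {v}) := by
              refine Submodule.finrank_mono ?_
              rintro _ ⟨w, rfl⟩
              rw [hxw]
              exact Submodule.smul_mem _ _ (Submodule.mem_span_singleton_self v)
        _ ≤ 1 := (finrank_span_singleton hv0).le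
    have k4 : rk ε ≠ 0 := fun h0 => b.ne (rk_eq_zero h0)
    exact hpq1 (by rw [← hrk]; omega)
  obtain ⟨hp0, hq0⟩ := hpos
  have hneθ : ∀ s : K, D₀ ≠ s • (ε - (1 - ε)) := by
    intro s hs
    have hv : ∀ v, ε v = v → D₀ v = s • v := by
      intro v hv
      rw [hs]
      change s • (ε v - (v - ε v)) = s • v
      rw [hv, sub_self, sub_zero]
    have e1 : Pos D₀ ε ≠ ⊥ := by
      intro h0
      rw [h0, finrank_bot] at hp
      omega
    have e2 : Pos (-D₀) ε ≠ ⊥ := by
      intro h0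
      rw [h0, finrank_bot] at hq
      omega
    obtain ⟨v, ⟨hv1, hv2⟩, hv0⟩ := Submodule.exists_mem_ne_zero_of_ne_bot e1
    obtain ⟨w, ⟨hw1, hw2⟩, hw0⟩ := Submodule.exists_mem_ne_zero_of_ne_bot e2
    have e3 : s = 1 := by
      have e4 : (s - 1) • v = 0 := by rw [sub_smul, one_smul, ← hv v hv2, hv1, sub_self]
      exact sub_eq_zero.1 ((smul_eq_zero.1 e4).resolve_right hv0)
    have e5 := hv w hw2
    rw [e3, one_smul] at e5
    rw [LinearMap.neg_apply, e5] at hw1
    have e6 : (2 : K) • w = 0 := by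
      rw [two_smul]
      nth_rewrite 1 [← hw1]
      exact neg_add_cancel _
    exact hw0 ((smul_eq_zero.1 e6).resolve_left two_ne_zero)
  have h3 : Gp G ε ≤ JD (Gp G ε) ε D₀ := by
    have k1 : ∀ L : Submodule K (End K V), S ⊆ L → ε - (1 - ε) ∈ L →
        (∀ y ∈ L, ∀ z ∈ L, y * z - z * y ∈ L) → Gp G ε ≤ L := by
      intro L hSL hθL hL
      refine sup_le (hgen L hSL hL) ?_
      rw [Submodule.span_le]
      rintro _ rfl
      exact hθL
    rcases single h b hS' k1 hD₀S hneθ (fun D hDS d e M => by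
      obtain ⟨τ, hτ⟩ := hconj D hDS
      obtain ⟨e', M', -⟩ := hτ d e M
      exact ⟨e', M'⟩) with h3 | ⟨d, m, hd, hm, hdm, hdv⟩
    · exact h3
    · rw [rk_pos b hD hD2, hp] at hdv
      exact absurd hdv (h1 d m hd hm (hdm.trans hrk))
  have H := gen3 h b hD hD2 h3 hneθ
  have b' := b.symm h
  have hirr := irrE h b H
  have hirrn := irrE h b H.neg
  have hirr' := irrE h b' H.symm
  have hirrn' := irrE h b' H.symm.neg
  have hno : NoGr (Gp G ε) ε D₀ := by
    by_cases hpq : p = q
    · refine noGr_of_zero b0 h0 (fun D hDS => (hS D hDS).1) hgen (fun D hDS => ?_) hD₀S hD2 h3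
        hneθ hirrn hirrn'
      rw [htrace D hDS, hpq, sub_self]
    · refine noGr_of_trace h b hD hD2 hirr hirr' htr ?_
      rw [htD]
      intro h4
      exact hpq (by exact_mod_cast sub_eq_zero.1 h4)
  refine rank_oneE hsp hse h b htr hD hD2 h3 hneθ hno (fun h0 m hm hdm => ?_)
    fun hpq n a ha1 han => ?_
  · have e1 : p = q := by
      rw [htD, sub_eq_zero] at h0
      exact_mod_cast h0
    rw [hrk, ← e1, pow_succ] at hdm
    have e2 : 2 ^ m = p := by omega
    exact h1 2 m le_rfl hm (by rw [pow_succ, ← e1]; omega) (by rw [e2])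
  · rw [hp, hq] at hpq ⊢
    exact h2 hpq n a ha1 han

end Pool.Agent.Y91.G
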