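import Mathlib
import Pool.Agent.Y91.G.Main
import Pool.Agent.Y91.P.Pink

/-!
# The restriction to the sum of two dual irreducible submodules
-/

set_option linter.unusedSectionVars false

namespace Pool.Agent.Y91.G

open Module LinearMap Pool.Agent.W548.Odd Pool.Agent.Y91.JP Pool.Agent.Y91.P

variable {K : Type*} [Field K] [CharZero K] {V : Type*} [AddCommGroup V] [Module K V]
  [FiniteDimensional K V]

variable {G : Submodule K (End K V)} {st : End K V →ₗ[K] End K V} {M : Submodule K V}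
  {p : V →ₗ[K] M}

section res

variable (h : Setup G st) (c : Cor G st M p)

include h c

/-- The restricted Lie algebra. -/
theorem cor_setup (hz0 : ∀ y ∈ G.map (rs M p), (∀ z ∈ G.map (rs M p), y * z = z * y) →
    trace K M (y * y) = 0 → y = 0) : Setup (G.map (rs M p)) (st' st M p) := by
  have hbr : ∀ y ∈ G.map (rs M p), ∀ z ∈ G.map (rs M p), y * z - z * y ∈ G.map (rs M p) := by
    rintro _ ⟨y, hy, rfl⟩ _ ⟨z, hz, rfl⟩
    exact ⟨_, h.br y hy z hz, c.rs_br h hy hz⟩
  have hsk : ∀ y ∈ G.map (rs M p), st' st M p y = -y := by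
    rintro _ ⟨y, hy, rfl⟩
    exact c.skew h hy
  have hgen : ∀ L : Submodule K (End K M), (∀ D ∈ G.map (rs M p), D * D = 1 → D ∈ L) →
      (∀ y ∈ L, ∀ z ∈ L, y * z - z * y ∈ L) → G.map (rs M p) ≤ L := by
    intro L h1 h2
    have h3 : G ≤ G ⊓ L.comap (rs M p) := by
      refine h.gen _ ?_ ?_
      · intro D hD hD2
        refine ⟨hD, h1 _ ⟨D, hD, rfl⟩ ?_⟩
        rw [← c.rs_mem_mul h hD, hD2, rs_one c.hp]
      · rintro y ⟨hy, hy'⟩ z ⟨hz, hz'⟩
        refine ⟨h.br y hy z hz, ?_⟩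
        change rs M p (y * z - z * y) ∈ L
        rw [c.rs_br h hy hz]
        exact h2 _ hy' _ hz'
    rintro _ ⟨y, hy, rfl⟩
    exact (h3 hy).2
  refine ⟨hbr, ?_, ?_, hsk, ?_, hgen, ?_⟩
  · intro a b
    have h1 : ex M p (st' st M p (a * b)) = ex M p (st' st M p b * st' st M p a) := by
      rw [c.ex_st' h, ex_mul c.hp, ex_mul c.hp, h.st_mul, c.ex_st' h, c.ex_st' h]
    have h2 := congrArg (rs M p) h1
    rwa [rs_ex c.hp, rs_ex c.hp] at h2
  · intro a
    rw [← rk_ex c.hp, c.ex_st' h, h.st_rk, rk_ex c.hp]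
  · -- nondegeneracy
    let R : Submodule K (End K V) :=
      { carrier := {y | y ∈ G ∧ ∀ z ∈ G, trace K M (rs M p y * rs M p z) = 0}
        zero_mem' := ⟨G.zero_mem, fun z _ => by rw [map_zero, zero_mul, map_zero]⟩
        add_mem' := fun {a b} ha hb => ⟨G.add_mem ha.1 hb.1, fun z hz => by
          rw [map_add, add_mul, map_add, ha.2 z hz, hb.2 z hz, add_zero]⟩
        smul_mem' := fun t a ha => ⟨G.smul_mem t ha.1, fun z hz => by
          rw [map_smul, smul_mul_assoc, map_smul, ha.2 z hz, smul_zero]⟩ }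
    have hR : IsIdl G R := by
      refine ⟨fun y hy => hy.1, fun y hy z hz => ⟨h.br y hy z hz.1, fun w hw => ?_⟩⟩
      have h1 := hz.2 _ (h.br w hw y hy)
      rw [c.rs_br h hw hy] at h1
      rw [c.rs_br h hy hz.1, sub_mul, map_sub]
      rw [mul_sub, map_sub] at h1
      have e1 : trace K M (rs M p y * rs M p z * rs M p w) =
          trace K M (rs M p z * (rs M p w * rs M p y)) := by
        rw [mul_assoc, LinearMap.trace_mul_comm, mul_assoc]
      rw [e1, mul_assoc]
      exact h1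
    have key : ∀ u ∈ R, u * u = 0 → rs M p u = 0 := by
      intro u hu hu2
      obtain ⟨w, hw, huw⟩ := h.regular hu.1 hu2
      have h1 := hu.2 w hw
      have h2 : rs M p u * rs M p w * (rs M p u) = rs M p u := by
        rw [← c.rs_mem_mul h hw, ← c.rs_mem_mul h hu.1, huw]
      have h3 : rs M p u * rs M p w * (rs M p u * rs M p w) = rs M p u * rs M p w := by
        rw [← mul_assoc, h2]
      rw [trace_idem h3] at h1
      have h4 : rk (rs M p u * rs M p w) = 0 := by exact_mod_cast h1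
      rw [← h2, rk_eq_zero h4, zero_mul]
    intro y' hy' hz'
    obtain ⟨y, hy, rfl⟩ := hy'
    have hyR : y ∈ R := ⟨hy, fun z hz => hz' _ ⟨z, hz, rfl⟩⟩
    have hcomm : ∀ D ∈ G, D * D = 1 → rs M p D * rs M p y = rs M p y * rs M p D := by
      intro D hD hD2
      have h1 := key _ (hR.up hD hD2 hyR)
        (sq_zero_of_up (up_left hD2 y) (up_right hD2 y))
      have h2 := key _ (hR.dn hD hD2 hyR)
        (sq_zero_of_dn (dn_left hD2 y) (dn_right hD2 y))
      have h3 : (2 : K) • (D * y - y * D) =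
          (1 + D) * y * (1 - D) - (1 - D) * y * (1 + D) := by
        rw [two_smul]
        noncomm_ring
      have h4 : rs M p ((2 : K) • (D * y - y * D)) = 0 := by
        rw [h3, map_sub, h1, h2, sub_zero]
      rw [map_smul, c.rs_br h hD hy] at h4
      exact sub_eq_zero.1 ((smul_eq_zero.1 h4).resolve_left two_ne_zero)
    have hcent : ∀ z ∈ G.map (rs M p), rs M p y * z = z * rs M p y := by
      have h5 : G ≤ G ⊓ (LinearMap.ker (LinearMap.mulLeft K (rs M p y) -
          LinearMap.mulRight K (rs M p y))).comap (rs M p) := by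
        refine h.gen _ ?_ ?_
        · intro D hD hD2
          refine ⟨hD, ?_⟩
          change rs M p y * rs M p D - rs M p D * rs M p y = 0
          rw [hcomm D hD hD2, sub_self]
        · rintro a ⟨ha, ha'⟩ b ⟨hb, hb'⟩
          refine ⟨h.br a ha b hb, ?_⟩
          change rs M p y * rs M p a - rs M p a * rs M p y = 0 at ha'
          change rs M p y * rs M p b - rs M p b * rs M p y = 0 at hb'
          change rs M p y * rs M p (a * b - b * a) - rs M p (a * b - b * a) * rs M p y = 0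
          rw [sub_eq_zero] at ha' hb' ⊢
          rw [c.rs_br h ha hb]
          exact comm_br ha' hb'
      rintro _ ⟨z, hz, rfl⟩
      have h6 : rs M p y * rs M p z - rs M p z * rs M p y = 0 := (h5 hz).2
      exact sub_eq_zero.1 h6
    exact hz0 _ ⟨y, hy, rfl⟩ hcent (hz' _ ⟨y, hy, rfl⟩)
  · intro W hW
    obtain ⟨π, hπ1, hπ2, hπ3⟩ := h.cr (W.map M.subtype) (by
      rintro y hy _ ⟨w, hw, rfl⟩
      refine ⟨rs M p y w, hW _ ⟨y, hy, rfl⟩ w hw, ?_⟩
      have h2 := LinearMap.congr_fun (c.comm y hy) (w : V)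
      rw [Module.End.mul_apply, Module.End.mul_apply, pr_of_mem c.hp w.2] at h2
      exact h2)
    have hπM : ∀ v, π v ∈ M := by
      intro v
      obtain ⟨w, -, hw⟩ := hπ2 v
      rw [← hw]
      exact w.2
    refine ⟨rs M p π, ?_, ?_, ?_⟩
    · rintro _ ⟨y, hy, rfl⟩
      rw [← c.rs_mem_mul h hy, hπ1 y hy]
      refine LinearMap.ext fun x => ?_
      rw [rs_apply, Module.End.mul_apply, Module.End.mul_apply, rs_apply, rs_apply,
        show ((p (π x) : M) : V) = π x from pr_of_mem c.hp (hπM _)]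
    · intro w
      obtain ⟨w', hw', hw2⟩ := hπ2 (w : V)
      have h2 : rs M p π w = w' := by
        rw [rs_apply, ← hw2]
        exact c.hp w'
      rw [h2]
      exact hw'
    · intro w hw
      rw [rs_apply, show π (w : V) = w from hπ3 _ ⟨w, hw, rfl⟩]
      exact c.hp w

end res

/-- The orthogonal projector. -/
theorem exists_cor2 (h : Setup G st) {ω : V →ₗ[K] V →ₗ[K] K} (hω : AltF st ω)
    (hM : ∀ y ∈ G, ∀ x ∈ M, y x ∈ M) (hnd0 : ∀ x ∈ M, (∀ y ∈ M, ω x y = 0) → x = 0) :
    ∃ p, Cor G st M p := by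
  obtain ⟨h1, h2, h3⟩ := id hω
  have hyw : ∀ y ∈ G, ∀ v w, ω (y v) w = -ω v (y w) := by
    intro y hy v w
    rw [h1, h.skew y hy]
    exact map_neg _ _
  have hnd : ∀ x : M, (∀ y : M, ω x y = 0) → x = 0 := by
    intro x hx
    exact Subtype.ext (hnd0 x x.2 fun y hy => hx ⟨y, hy⟩)
  let φ : M →ₗ[K] Dual K M := ω.domRestrict₁₂ M M
  have hφ : Function.Injective φ := by
    rw [injective_iff_map_eq_zero]
    intro x hx
    exact hnd x fun y => LinearMap.congr_fun hx y
  have hfin : finrank K M = finrank K (Dual K M) := (Subspace.dual_finrank_eq (K := K) (V := M)).symm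
  let Φ : M ≃ₗ[K] Dual K M := LinearEquiv.ofInjectiveOfFinrankEq φ hφ hfin
  have hΦ : ∀ x : M, Φ x = φ x := fun x => rfl
  let ψ : V →ₗ[K] Dual K M := ω.compl₂ M.subtype
  have hψ : ∀ v (y : M), ψ v y = ω v y := fun v y => rfl
  let p : V →ₗ[K] M := Φ.symm.toLinearMap ∘ₗ ψ
  have hp : ∀ v (y : M), ω (p v) y = ω v y := by
    intro v y
    have h4 : Φ (p v) = ψ v := Φ.apply_symm_apply _
    exact LinearMap.congr_fun h4 y
  have hpu : ∀ (v : V) (m : M), (∀ y : M, ω m y = ω v y) → p v = m := by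
    intro v m hm
    have h4 : p v - m = 0 := hnd _ fun y => by
      have : ((p v - m : M) : V) = (p v : V) - m := rfl
      rw [this, map_sub, LinearMap.sub_apply, hp, hm, sub_self]
    exact sub_eq_zero.1 h4
  have hpM : ∀ x : M, p x = x := fun x => hpu _ _ fun y => rfl
  refine ⟨p, hpM, ?_, ?_⟩
  · intro y hy
    refine LinearMap.ext fun v => ?_
    change ((p (y v) : M) : V) = y (p v)
    have h4 : p (y v) = ⟨y (p v), hM y hy _ (p v).2⟩ := by
      refine hpu _ _ fun z => ?_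
      change ω (y (p v)) z = ω (y v) z
      rw [hyw y hy, hyw y hy]
      have h5 := hp v ⟨y z, hM y hy _ z.2⟩
      rw [neg_inj]
      exact h5
    rw [h4]
  · refine LinearMap.ext fun w => ?_
    rw [← sub_eq_zero]
    refine h3 _ fun v => ?_
    rw [map_sub, ← h1, sub_eq_zero]
    change ω (p v : V) w = ω v (p w)
    have e1 : ω (p v : V) w = ω (p v : V) (p w) := by
      rw [h2, ← hp w (p v), h2, neg_neg]
    rw [e1, hp]


theorem st'_rs2 (h : Setup G st) (c : Cor G st M p) (x : End K V) :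
    st' st M p (rs M p x) = rs M p (st x) := by
  change rs M p (st (ex M p (rs M p x))) = rs M p (st x)
  rw [ex_rs c.hp, h.st_mul, h.st_mul, c.st]
  refine LinearMap.ext fun v => ?_
  rw [rs_apply, rs_apply, Module.End.mul_apply, Module.End.mul_apply, pr_of_mem c.hp v.2, pr_apply,
    c.hp]

/-- Two dual irreducible submodules. -/
structure Pair (G : Submodule K (End K V)) (st : End K V →ₗ[K] End K V) (e : End K V)
    (U U' : Submodule K V) : Prop where
  idem : e * e = e
  st1 : st 1 = 1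
  st : st e = 1 - e
  com : ∀ T : End K V, (∀ y ∈ G, T * y = y * T) → T * e = e * T
  eG : ∀ y ∈ G, e * y = y * e
  hU : IrrS G U
  hU' : IrrS G U'
  eU : ∀ u ∈ U, e u = u
  eU' : ∀ u ∈ U', e u = 0

/-- Schur's lemma. -/
theorem schur [IsAlgClosed K] {U : Submodule K V} (hU : IrrS G U) {T : End K V}
    (hT : ∀ y ∈ G, T * y = y * T) (hTU : ∀ u ∈ U, T u ∈ U) : ∃ a : K, ∀ u ∈ U, T u = a • u := by
  have hnt : Nontrivial U := Submodule.nontrivial_iff_ne_bot.2 hU.ne
  obtain ⟨a, ha⟩ := Module.End.exists_eigenvalue (T.restrict hTU)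
  obtain ⟨v, hv⟩ := ha.exists_hasEigenvector
  let W : Submodule K V :=
    { carrier := {u | u ∈ U ∧ T u = a • u}
      zero_mem' := ⟨U.zero_mem, by rw [map_zero, smul_zero]⟩
      add_mem' := fun {x y} hx hy => ⟨U.add_mem hx.1 hy.1, by
        rw [map_add, hx.2, hy.2, smul_add]⟩
      smul_mem' := fun c x hx => ⟨U.smul_mem c hx.1, by
        rw [map_smul, hx.2, smul_comm]⟩ }
  rcases hU.min W (by
    rintro y hy x ⟨hx, hx'⟩
    refine ⟨hU.st y hy x hx, ?_⟩
    have h1 := LinearMap.congr_fun (hT y hy) x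
    rw [Module.End.mul_apply, Module.End.mul_apply, hx', map_smul] at h1
    exact h1) (fun x hx => hx.1) with h1 | h1
  · exfalso
    have h2 : (v : V) ∈ W := ⟨v.2, by
      have h3 := congrArg Subtype.val (Module.End.mem_eigenspace_iff.1 hv.1)
      exact h3⟩
    rw [h1] at h2
    exact hv.2 (Subtype.ext ((Submodule.mem_bot K).1 h2))
  · refine ⟨a, fun u hu => ?_⟩
    rw [← h1] at hu
    exact hu.2

section pair

variable {e : End K V} {U U' : Submodule K V} {p : V →ₗ[K] (U ⊔ U' : Submodule K V)}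
  (h : Setup G st) (P : Pair G st e U U') (c : Cor G st (U ⊔ U') p)

include P

theorem Pair.stable {y : End K V} (hy : y ∈ G) {x : V} (hx : x ∈ U ⊔ U') : y x ∈ U ⊔ U' := by
  obtain ⟨a, ha, b, hb, rfl⟩ := Submodule.mem_sup.1 hx
  rw [map_add]
  exact Submodule.add_mem_sup (P.hU.st y hy a ha) (P.hU'.st y hy b hb)

include c

theorem Pair.pr_e : pr (U ⊔ U') p * e = e * pr (U ⊔ U') p := P.com _ c.comm

theorem Pair.rs_e (x : (U ⊔ U' : Submodule K V)) : ((rs (U ⊔ U') p e x :
    (U ⊔ U' : Submodule K V)) : V) = e x := by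
  have h1 := LinearMap.congr_fun (P.pr_e c) (x : V)
  rw [Module.End.mul_apply, Module.End.mul_apply, pr_of_mem c.hp x.2] at h1
  exact h1

omit P in
theorem rs_of_comm {x : End K V} (hx : pr (U ⊔ U') p * x = x * pr (U ⊔ U') p)
    (v : (U ⊔ U' : Submodule K V)) : ((rs (U ⊔ U') p x v :
    (U ⊔ U' : Submodule K V)) : V) = x v := by
  have h1 := LinearMap.congr_fun hx (v : V)
  rw [Module.End.mul_apply, Module.End.mul_apply, pr_of_mem c.hp v.2] at h1
  exact h1

include h

/-- The restriction to the sum. -/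
theorem Pair.blk0 [IsAlgClosed K] :
    Blk0 (G.map (rs (U ⊔ U') p)) (st' st (U ⊔ U') p) (rs (U ⊔ U') p e) where
  idem := by rw [← rs_mul c.hp (P.pr_e c), P.idem]
  comm := by
    rintro _ ⟨y, hy, rfl⟩
    rw [← rs_mul c.hp (c.comm y hy), P.eG y hy, rs_mul c.hp (P.pr_e c)]
  st1 := by
    have h1 := st'_rs2 h c 1
    rw [rs_one c.hp, P.st1, rs_one c.hp] at h1
    exact h1
  st := by rw [st'_rs2 h c, P.st, map_sub, rs_one c.hp]
  com := by
    intro f hf
    obtain ⟨M, hM⟩ : ∃ M, M = U ⊔ U' := ⟨_, rfl⟩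
    -- the extension
    have hT : ∀ y ∈ G, ex (U ⊔ U') p f * y = y * ex (U ⊔ U') p f := by
      intro y hy
      have e1 : ex (U ⊔ U') p f * y = ex (U ⊔ U') p (f * rs (U ⊔ U') p y) := by
        rw [ex_mul c.hp, ex_rs c.hp, mul_assoc (pr (U ⊔ U') p), ← c.comm y hy,
          ← mul_assoc (pr (U ⊔ U') p), pr_sq c.hp, ← mul_assoc, ex_pr c.hp]
      have e2 : y * ex (U ⊔ U') p f = ex (U ⊔ U') p (rs (U ⊔ U') p y * f) := by
        rw [ex_mul c.hp, ex_rs c.hp, c.comm y hy, mul_assoc, mul_assoc, pr_ex c.hp, pr_ex c.hp]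
      rw [e1, e2, hf _ ⟨y, hy, rfl⟩]
    have hTe := P.com _ hT
    have hv : ∀ v : (U ⊔ U' : Submodule K V), ex (U ⊔ U') p f v = f v := by
      intro v
      rw [ex_apply, c.hp]
    have hTM : ∀ v, ex (U ⊔ U') p f v ∈ U ⊔ U' := fun v => (f (p v)).2
    have hMU : ∀ v ∈ U ⊔ U', e v = v → v ∈ U := by
      intro v hv hev
      obtain ⟨a, ha, b, hb, rfl⟩ := Submodule.mem_sup.1 hv
      rw [map_add, P.eU a ha, P.eU' b hb, add_zero] at hev
      rw [← hev]
      exact ha
    have hMU' : ∀ v ∈ U ⊔ U', e v = 0 → v ∈ U' := by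
      intro v hv hev
      obtain ⟨a, ha, b, hb, rfl⟩ := Submodule.mem_sup.1 hv
      rw [map_add, P.eU a ha, P.eU' b hb, add_zero] at hev
      rw [hev, zero_add]
      exact hb
    have hc : ∀ v, ex (U ⊔ U') p f (e v) = e (ex (U ⊔ U') p f v) :=
      fun v => LinearMap.congr_fun hTe v
    obtain ⟨a, ha⟩ := schur P.hU hT fun u hu => hMU _ (hTM u) (by rw [← hc, P.eU u hu])
    obtain ⟨b, hb⟩ := schur P.hU' hT fun u hu => hMU' _ (hTM u) (by
      rw [← hc, P.eU' u hu, map_zero])
    refine ⟨a, b, LinearMap.ext fun v => Subtype.ext ?_⟩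
    obtain ⟨u, hu, w, hw, huw⟩ := Submodule.mem_sup.1 v.2
    have e1 : ((f v : (U ⊔ U' : Submodule K V)) : V) = a • u + b • w := by
      rw [← hv, ← huw, map_add, ha u hu, hb w hw]
    have e2 : e (v : V) = u := by rw [← huw, map_add, P.eU u hu, P.eU' w hw, add_zero]
    rw [e1]
    change _ = a • ((rs (U ⊔ U') p e v : (U ⊔ U' : Submodule K V)) : V) +
      b • ((v : V) - ((rs (U ⊔ U') p e v : (U ⊔ U' : Submodule K V)) : V))
    rw [P.rs_e c, e2, ← huw, add_sub_cancel_left]
  ne := by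
    intro h0
    obtain ⟨u, hu, hu0⟩ := Submodule.exists_mem_ne_zero_of_ne_bot P.hU.ne
    apply hu0
    have h1 := P.rs_e c ⟨u, Submodule.mem_sup_left hu⟩
    rw [h0] at h1
    rw [← P.eU u hu]
    exact h1.symm
  ne' := by
    intro h0
    obtain ⟨u, hu, hu0⟩ := Submodule.exists_mem_ne_zero_of_ne_bot P.hU'.ne
    apply hu0
    have h1 := P.rs_e c ⟨u, Submodule.mem_sup_right hu⟩
    rw [← sub_eq_zero.1 h0] at h1
    change u = e u at h1
    rw [P.eU' u hu] at h1
    exact h1

theorem Pair.setup [IsAlgClosed K] : Setup (G.map (rs (U ⊔ U') p)) (st' st (U ⊔ U') p) := by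
  have b := P.blk0 h c
  refine cor_setup h c fun y hy hc htr => ?_
  obtain ⟨z, hz, rfl⟩ := hy
  obtain ⟨s, h4⟩ := b.central0 (c.skew h hz) hc
  rw [h4, smul_mul_smul_comm, b.th_sq, map_smul, LinearMap.trace_one, smul_eq_mul] at htr
  have hV : (finrank K (U ⊔ U' : Submodule K V) : K) ≠ 0 := by
    have h0 : finrank K (U ⊔ U' : Submodule K V) ≠ 0 := by
      intro h0
      apply b.ne
      have := finrank_zero_iff.1 h0
      exact Subsingleton.elim _ _
    exact_mod_cast h0
  have hs := (mul_eq_zero.1 htr).resolve_right hV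
  rw [h4, mul_self_eq_zero.1 hs, zero_smul]

end pair

end Pool.Agent.Y91.G
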