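import Mathlib
import Pool.Agent.Y91.G.Pic

/-!
# Transfer of matrix units to a summand
-/

set_option linter.unusedSectionVars false

namespace Pool.Agent.Y91.G

open Module LinearMap Pool.Agent.W548.Odd Pool.Agent.Y91.JP Pool.Agent.Y91.P

variable {K : Type*} [Field K] [CharZero K] {V : Type*} [AddCommGroup V] [Module K V]
  [FiniteDimensional K V]

variable {G : Submodule K (End K V)} {st : End K V →ₗ[K] End K V} {M : Submodule K V}
  {p : V →ₗ[K] M} (h : Setup G st) (c : Cor G st M p) {e : End K V}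
  (he : pr M p * e = e * pr M p) (heG : ∀ y ∈ G, e * y = y * e)

include c he

theorem pr_gp {a : End K V} (ha : a ∈ Gp G e) : pr M p * a = a * pr M p := by
  obtain ⟨z, hz, t, rfl⟩ := exists_gp ha
  simp only [mul_add, add_mul, c.comm z hz, mul_smul_comm, smul_mul_assoc, mul_sub, sub_mul, he,
    mul_one, one_mul]

theorem pr_agp {a : End K V} (ha : a ∈ AG (Gp G e)) : pr M p * a = a * pr M p :=
  comm_adjoin (fun _ hx => pr_gp c he hx) ha

variable {st2 : End K M →ₗ[K] End K M}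
  (h' : Setup (Gp (G.map (rs M p)) (rs M p e)) st2)

theorem rs_mul_agp (x : End K V) {a : End K V} (ha : a ∈ AG (Gp G e)) :
    rs M p (x * a) = rs M p x * rs M p a := rs_mul c.hp (pr_agp c he ha)

theorem rs_coe_agp {a : End K V} (ha : a ∈ AG (Gp G e)) (x : M) :
    ((rs M p a x : M) : V) = a x := by
  have h1 := LinearMap.congr_fun (pr_agp c he ha) (x : V)
  rw [Module.End.mul_apply, Module.End.mul_apply, pr_of_mem c.hp x.2] at h1
  exact h1

include h h'

theorem rs_gn {D : End K V} (hD : D ∈ G) {x : End K V} (hx : x ∈ gn G D) :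
    rs M p x ∈ gn (Gp (G.map (rs M p)) (rs M p e)) (rs M p D) := by
  have hI := gn_idl h' (mem_gp (ε := rs M p e) (Submodule.mem_map_of_mem (f := rs M p) hD))
  let J : Submodule K (End K V) :=
    { carrier := {x | x ∈ G ∧ rs M p x ∈ gn (Gp (G.map (rs M p)) (rs M p e)) (rs M p D)}
      zero_mem' := ⟨G.zero_mem, by rw [map_zero]; exact Submodule.zero_mem _⟩
      add_mem' := fun {a b} ha hb => ⟨G.add_mem ha.1 hb.1, by
        rw [map_add]
        exact Submodule.add_mem _ ha.2 hb.2⟩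
      smul_mem' := fun t a ha => ⟨G.smul_mem t ha.1, by
        rw [map_smul]
        exact Submodule.smul_mem _ _ ha.2⟩ }
  have hJ : IsIdl G J := by
    refine ⟨fun x hx => hx.1, ?_⟩
    rintro y hy z ⟨hz, hz'⟩
    refine ⟨h.br y hy z hz, ?_⟩
    rw [c.rs_br h hy hz]
    exact hI.br _ (mem_gp (Submodule.mem_map_of_mem hy)) _ hz'
  exact (gn_le hJ ⟨hD, mem_gn⟩ hx).2

omit h' in
include heG in
theorem gn_rs {D : End K V} (hD : D ∈ G) :
    gn (Gp (G.map (rs M p)) (rs M p e)) (rs M p D) ≤ (gn G D).map (rs M p) := by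
  have hI := gn_idl h hD
  refine gn_le ⟨?_, ?_⟩ (Submodule.mem_map_of_mem mem_gn)
  · rintro _ ⟨x, hx, rfl⟩
    exact mem_gp ⟨x, hI.le hx, rfl⟩
  · rintro y0 hy0 _ ⟨z, hz, rfl⟩
    obtain ⟨_, ⟨y, hy, rfl⟩, t, rfl⟩ := exists_gp hy0
    have e1 : rs M p e * rs M p z = rs M p z * rs M p e := by
      rw [← rs_mul c.hp (c.comm z (hI.le hz)), ← rs_mul c.hp he, heG z (hI.le hz)]
    have e2 : (rs M p y + t • (rs M p e - (1 - rs M p e))) * rs M p z -
        rs M p z * (rs M p y + t • (rs M p e - (1 - rs M p e))) =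
          rs M p y * rs M p z - rs M p z * rs M p y := by
      simp only [add_mul, mul_add, smul_mul_assoc, mul_smul_comm, sub_mul, mul_sub, one_mul,
        mul_one, e1]
      abel
    rw [e2, ← c.rs_br h hy (hI.le hz)]
    exact ⟨_, hI.br y hy z hz, rfl⟩

theorem rs_adj {D : End K V} (hD : D ∈ G) {x : End K V}
    (hx : x ∈ Algebra.adjoin K (JD G e D : Set (End K V))) :
    rs M p x ∈ Algebra.adjoin K
      (JD (Gp (G.map (rs M p)) (rs M p e)) (rs M p e) (rs M p D) : Set (End K M)) := by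
  have hle : JD G e D ≤ Gp G e := sup_le_sup (gn_idl h hD).le le_rfl
  have hsub : ∀ {y}, y ∈ Algebra.adjoin K (JD G e D : Set (End K V)) → y ∈ AG (Gp G e) :=
    fun hy => Algebra.adjoin_mono hle hy
  induction hx using Algebra.adjoin_induction with
  | mem x hx =>
    obtain ⟨u, hu, v, hv, rfl⟩ := Submodule.mem_sup.1 hx
    obtain ⟨t, rfl⟩ := Submodule.mem_span_singleton.1 hv
    apply Algebra.subset_adjoin
    rw [map_add, map_smul, map_sub, map_sub, rs_one c.hp]
    exact Submodule.add_mem_sup (rs_gn h c he h' hD hu)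
      (Submodule.smul_mem _ _ (Submodule.mem_span_singleton_self _))
  | algebraMap r =>
    rw [Algebra.algebraMap_eq_smul_one, map_smul, rs_one c.hp]
    exact Subalgebra.smul_mem _ (one_mem _) _
  | add x y _ _ hx hy =>
    rw [map_add]
    exact add_mem hx hy
  | mul x y _ hy' hx hy =>
    rw [rs_mul_agp c he _ (hsub hy')]
    exact mul_mem hx hy

omit h' in
include heG in
theorem adj_rs {D : End K V} (hD : D ∈ G) {x : End K M}
    (hx : x ∈ Algebra.adjoin K
      (JD (Gp (G.map (rs M p)) (rs M p e)) (rs M p e) (rs M p D) : Set (End K M))) :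
    ∃ a ∈ Algebra.adjoin K (JD G e D : Set (End K V)), rs M p a = x := by
  have hle : JD G e D ≤ Gp G e := sup_le_sup (gn_idl h hD).le le_rfl
  have hsub : ∀ {y}, y ∈ Algebra.adjoin K (JD G e D : Set (End K V)) → y ∈ AG (Gp G e) :=
    fun hy => Algebra.adjoin_mono hle hy
  induction hx using Algebra.adjoin_induction with
  | mem x hx =>
    obtain ⟨u, hu, v, hv, rfl⟩ := Submodule.mem_sup.1 hx
    obtain ⟨t, rfl⟩ := Submodule.mem_span_singleton.1 hv
    obtain ⟨w, hw, rfl⟩ := gn_rs h c he heG hD hu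
    refine ⟨w + t • (e - (1 - e)), Algebra.subset_adjoin (Submodule.add_mem_sup hw
      (Submodule.smul_mem _ _ (Submodule.mem_span_singleton_self _))), ?_⟩
    rw [map_add, map_smul, map_sub, map_sub, rs_one c.hp]
  | algebraMap r =>
    refine ⟨r • 1, Subalgebra.smul_mem _ (one_mem _) _, ?_⟩
    rw [map_smul, rs_one c.hp, Algebra.algebraMap_eq_smul_one]
  | add x y _ _ hx hy =>
    obtain ⟨a, ha, rfl⟩ := hx
    obtain ⟨b, hb, rfl⟩ := hy
    exact ⟨a + b, add_mem ha hb, map_add _ _ _⟩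
  | mul x y _ _ hx hy =>
    obtain ⟨a, ha, rfl⟩ := hx
    obtain ⟨b, hb, rfl⟩ := hy
    exact ⟨a * b, mul_mem ha hb, rs_mul_agp c he a (hsub hb)⟩

include heG

/-- Transfer of matrix units. -/
theorem mue_transfer (hinj : ∀ a ∈ AG (Gp G e), (∀ x ∈ M, a x = 0) → a = 0)
    {D₀ D : End K V} {s : End K V ≃+* End K V} {τ : K ≃+* K} (T : Tr G st D₀ D s τ)
    (hD₀ : D₀ ∈ G) (hs : s e = e) (d : ℕ) (f : Fin d → Fin d → End K M)
    (Mu : MUE (Algebra.adjoin K
      (JD (Gp (G.map (rs M p)) (rs M p e)) (rs M p e) (rs M p D₀) : Set (End K M)))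
        (rs M p e) f) :
    ∃ f' : Fin d → Fin d → End K M, MUE (Algebra.adjoin K
      (JD (Gp (G.map (rs M p)) (rs M p e)) (rs M p e) (rs M p D) : Set (End K M)))
        (rs M p e) f' ∧
      ∀ t : Fin d → Fin d → K, rs M p e * rs M p D₀ = ∑ i, ∑ j, t i j • f i j →
        rs M p e * rs M p D = ∑ i, ∑ j, τ (t i j) • f' i j := by
  have hD : D ∈ G := by
    rw [← T.map]
    exact T.mem _ hD₀
  have heA : e ∈ AG (Gp G e) := eps_mem (Algebra.subset_adjoin th_mem_gp)
  have hsub : ∀ {D}, D ∈ G → ∀ {y}, y ∈ Algebra.adjoin K (JD G e D : Set (End K V)) →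
      y ∈ AG (Gp G e) := by
    intro D hD y hy
    exact Algebra.adjoin_mono (sup_le_sup (gn_idl h hD).le le_rfl : JD G e D ≤ Gp G e) hy
  have hrs : ∀ a ∈ AG (Gp G e), ∀ a' ∈ AG (Gp G e), rs M p a = rs M p a' → a = a' := by
    intro a ha a' ha' haa
    rw [← sub_eq_zero]
    refine hinj _ (sub_mem ha ha') fun x hx => ?_
    have h1 := rs_coe_agp c he ha ⟨x, hx⟩
    have h2 := rs_coe_agp c he ha' ⟨x, hx⟩
    rw [haa, h2] at h1
    rw [LinearMap.sub_apply, ← h1, sub_self]
  choose a ha haf using fun i j => adj_rs h c he heG hD₀ (Mu.mem i j)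
  have haA : ∀ i j, a i j ∈ AG (Gp G e) := fun i j => hsub hD₀ (ha i j)
  have key : ∀ (x : End K V) (t : Fin d → Fin d → K), x ∈ AG (Gp G e) →
      rs M p x = ∑ i, ∑ j, t i j • f i j → x = ∑ i, ∑ j, t i j • a i j := by
    intro x t hx hxt
    refine hrs _ hx _ (sum_mem fun i _ => sum_mem fun j _ => Subalgebra.smul_mem _ (haA i j) _) ?_
    rw [hxt, map_sum]
    refine Finset.sum_congr rfl fun i _ => ?_
    rw [map_sum]
    refine Finset.sum_congr rfl fun j _ => ?_
    rw [map_smul, haf]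
  have Ma : MUE (Algebra.adjoin K (JD G e D₀ : Set (End K V))) e a := by
    refine ⟨ha, fun i j k l => ?_, ?_, fun x hx => ?_⟩
    · refine hrs _ (mul_mem (haA i j) (haA k l)) _ ?_ ?_
      · split_ifs
        · exact haA i l
        · exact zero_mem _
      · rw [rs_mul_agp c he _ (haA k l), haf, haf, Mu.mul, apply_ite (rs M p), haf, map_zero]
    · refine hrs _ (sum_mem fun i _ => haA i i) _ heA ?_
      rw [map_sum, ← Mu.sum]
      exact Finset.sum_congr rfl fun i _ => haf i i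
    · obtain ⟨t, ht⟩ := Mu.span _ (rs_adj h c he h' hD₀ hx)
      refine ⟨t, key _ _ (mul_mem heA (hsub hD₀ hx)) ?_⟩
      rw [rs_mul_agp c he _ (hsub hD₀ hx), ht]
  have Mb := tr_mue h T hD₀ hs Ma
  have hbA : ∀ i j, s (a i j) ∈ AG (Gp G e) := fun i j => hsub hD (Mb.mem i j)
  refine ⟨fun i j => rs M p (s (a i j)), ⟨fun i j => rs_adj h c he h' hD (Mb.mem i j),
    fun i j k l => ?_, ?_, fun x hx => ?_⟩, fun t ht => ?_⟩
  · rw [← rs_mul_agp c he _ (hbA k l), Mb.mul, apply_ite (rs M p), map_zero]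
  · rw [← map_sum, Mb.sum]
  · obtain ⟨y, hy, rfl⟩ := adj_rs h c he heG hD hx
    obtain ⟨t, ht⟩ := Mb.span y hy
    refine ⟨t, ?_⟩
    rw [← rs_mul_agp c he _ (hsub hD hy), ht, map_sum]
    refine Finset.sum_congr rfl fun i _ => ?_
    rw [map_sum]
    refine Finset.sum_congr rfl fun j _ => ?_
    rw [map_smul]
  · have hD₀A : D₀ ∈ AG (Gp G e) := Algebra.subset_adjoin (mem_gp hD₀)
    have hDA : D ∈ AG (Gp G e) := Algebra.subset_adjoin (mem_gp hD)
    rw [← rs_mul_agp c he _ hD₀A] at ht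
    have h1 := congrArg s (key _ _ (mul_mem heA hD₀A) ht)
    rw [map_mul, hs, T.map, map_sum] at h1
    rw [← rs_mul_agp c he _ hDA, h1, map_sum]
    refine Finset.sum_congr rfl fun i _ => ?_
    rw [map_sum, map_sum]
    refine Finset.sum_congr rfl fun j _ => ?_
    rw [T.smul, map_smul]

end Pool.Agent.Y91.G
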