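import Mathlib
import Pool.Agent.Y91.G.Fai
import Pool.Agent.Y91.G.Trm

/-!
# Imaginary quadratic centre: the pair of dual irreducible submodules
-/

set_option linter.unusedSectionVars false

namespace Pool.Agent.Y91.G

open Matrix Module Pool.Agent.Y90 Pool.Agent.W437.HC Pool.Agent.W437.HD Pool.Agent.W548.Odd
  Pool.Agent.Y91.JP Pool.Agent.Y91.P
open Pool.Agent.Y4.Q (ImQ)

variable {g : ℕ} {Z : Matrix (Fin g) (Fin g) ℂ} {D : ℚ}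
  {c : Matrix (Fin g ⊕ Fin g) (Fin g ⊕ Fin g) ℚ}

/-- The projection to an eigenspace of the centre. -/
noncomputable def eK (c : Matrix (Fin g ⊕ Fin g) (Fin g ⊕ Fin g) ℚ) (k : ℂ) :
    End ℂ (Fin g ⊕ Fin g → ℂ) :=
  (2 : ℂ)⁻¹ • (1 + k⁻¹ • ph (Fin g ⊕ Fin g) (qm c))

theorem k_ne (hc : ImQ Z D c) {k : ℂ} (hk : k * k = -(D : ℂ)) : k ≠ 0 := by
  rintro rfl
  rw [mul_zero] at hk
  have h1 : D = 0 := by
    have h2 : (D : ℂ) = 0 := by linear_combination hk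
    exact_mod_cast h2
  have h2 := hc.1
  rw [h1] at h2
  exact lt_irrefl _ h2

theorem qc_sq (hc : ImQ Z D c) :
    qm c * qm c = -((D : ℂ) • (1 : Matrix (Fin g ⊕ Fin g) (Fin g ⊕ Fin g) ℂ)) := by
  rw [← qm_mul, hc.2.2.1, qm_neg, Pool.Agent.Y4.Q.qm_smul', Pool.Agent.Y4.Q.qm_one']

theorem ph_sq (hc : ImQ Z D c) {k : ℂ} (hk : k * k = -(D : ℂ)) :
    (k⁻¹ • ph (Fin g ⊕ Fin g) (qm c)) * (k⁻¹ • ph (Fin g ⊕ Fin g) (qm c)) = 1 := by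
  have hk0 := k_ne hc hk
  rw [smul_mul_smul_comm, ← map_mul, qc_sq hc, map_neg, map_smul, map_one, smul_neg, smul_smul,
    ← neg_smul]
  have h1 : -(k⁻¹ * k⁻¹ * (D : ℂ)) = 1 := by
    have h2 : (D : ℂ) = -(k * k) := by rw [hk, neg_neg]
    rw [h2]
    field_simp
  rw [h1, one_smul]

theorem eK_idem (hc : ImQ Z D c) {k : ℂ} (hk : k * k = -(D : ℂ)) : eK c k * eK c k = eK c k := by
  have h1 := ph_sq hc hk
  unfold eK
  obtain ⟨q, hq⟩ : ∃ q, q = k⁻¹ • ph (Fin g ⊕ Fin g) (qm c) := ⟨_, rfl⟩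
  rw [← hq] at h1 ⊢
  have h2 : (1 + q) * (1 + q) = (2 : ℂ) • (1 + q) := by
    rw [two_smul]
    calc (1 + q) * (1 + q) = 1 + q + q + q * q := by noncomm_ring
    _ = _ := by rw [h1]; abel
  rw [smul_mul_smul_comm, h2, smul_smul]
  congr 1
  rw [mul_assoc, inv_mul_cancel₀ two_ne_zero, mul_one]

theorem eK_sub (k : ℂ) : 1 - eK c k = (2 : ℂ)⁻¹ • (1 - k⁻¹ • ph (Fin g ⊕ Fin g) (qm c)) := by
  unfold eK
  obtain ⟨q, hq⟩ : ∃ q, q = k⁻¹ • ph (Fin g ⊕ Fin g) (qm c) := ⟨_, rfl⟩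
  rw [← hq]
  have h1 : (2 : ℂ)⁻¹ • ((1 : End ℂ (Fin g ⊕ Fin g → ℂ)) - q) + (2 : ℂ)⁻¹ • (1 + q) = 1 := by
    have h2 : ((1 : End ℂ (Fin g ⊕ Fin g → ℂ)) - q) + (1 + q) = (2 : ℂ) • 1 := by
      rw [two_smul]
      abel
    have h3 : (2 : ℂ)⁻¹ • ((1 : End ℂ (Fin g ⊕ Fin g → ℂ)) - q) + (2 : ℂ)⁻¹ • (1 + q) =
        (2 : ℂ)⁻¹ • (((1 : End ℂ (Fin g ⊕ Fin g → ℂ)) - q) + (1 + q)) := (smul_add _ _ _).symm
    rw [h3, h2, smul_smul, inv_mul_cancel₀ two_ne_zero, one_smul]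
  exact sub_eq_iff_eq_add.2 h1.symm

theorem st_qc (h : PM Z) (hg : 0 < g) (hc : ImQ Z D c) :
    stE (Om g ℂ) (ph (Fin g ⊕ Fin g) (qm c)) = -ph (Fin g ⊕ Fin g) (qm c) := by
  rw [stE_ph, ← Pool.Agent.Y4.Q.qm_ros, hc.ros_eq h hg, qm_neg, map_neg]

theorem st_oneE (h : PM Z) : stE (Om g ℂ) 1 = 1 :=
  st_one h.setup (D := ph _ (DZ Z)) (mem_GG.2 DZ_mem) (by rw [← map_mul, DZ_sq h.det, map_one])

theorem st_eK (h : PM Z) (hg : 0 < g) (hc : ImQ Z D c) (k : ℂ) :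
    stE (Om g ℂ) (eK c k) = 1 - eK c k := by
  rw [eK_sub]
  unfold eK
  rw [map_smul, map_add, map_smul, st_qc h hg hc, st_oneE h, smul_neg, sub_eq_add_neg]

theorem eK_comm (hc : ImQ Z D c) (k : ℂ) {y : End ℂ (Fin g ⊕ Fin g → ℂ)}
    (hy : y ∈ GG (LZ Z)) : eK c k * y = y * eK c k := by
  obtain ⟨A, hA, rfl⟩ := exists_GG hy
  unfold eK
  rw [smul_mul_assoc, mul_smul_comm, add_mul, mul_add, one_mul, mul_one, smul_mul_assoc,
    mul_smul_comm, ← map_mul, ← map_mul, qm_comm_LZ hc.2.1 A hA]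

theorem cm_comm (hc : ImQ Z D c) : ∀ X, InCm {DZ Z} X → X * qm c = qm c * X := by
  refine Cm_induction ?_ ?_ ?_ ?_
  · intro u hu
    rw [← qm_mul, ← qm_mul, hc.2.2.2.1 u (hu _ DZ_mem)]
  · rw [Matrix.zero_mul, Matrix.mul_zero]
  · intro X Y hX hY
    rw [Matrix.add_mul, Matrix.mul_add, hX, hY]
  · intro a X hX
    rw [Matrix.smul_mul, Matrix.mul_smul, hX]

theorem com_eK (hc : ImQ Z D c) (k : ℂ) {T : End ℂ (Fin g ⊕ Fin g → ℂ)}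
    (hT : ∀ y ∈ GG (LZ Z), T * y = y * T) : T * eK c k = eK c k * T := by
  obtain ⟨A, rfl⟩ := (ph (Fin g ⊕ Fin g)).surjective T
  have h1 : A * qm c = qm c * A := by
    refine cm_comm hc A fun X hX => ?_
    apply (ph (Fin g ⊕ Fin g)).injective
    rw [map_mul, map_mul]
    exact hT _ (mem_GG.2 hX)
  unfold eK
  rw [smul_mul_assoc, mul_smul_comm, add_mul, mul_add, one_mul, mul_one, smul_mul_assoc,
    mul_smul_comm, ← map_mul, ← map_mul, h1]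

theorem eK_apply (k : ℂ) (v : Fin g ⊕ Fin g → ℂ) :
    eK c k v = (2 : ℂ)⁻¹ • (v + k⁻¹ • (qm c *ᵥ v)) := rfl

theorem eK_of (hc : ImQ Z D c) {k : ℂ} (hk : k * k = -(D : ℂ)) {v : Fin g ⊕ Fin g → ℂ}
    (hv : qm c *ᵥ v = k • v) : eK c k v = v := by
  rw [eK_apply, hv, smul_smul, inv_mul_cancel₀ (k_ne hc hk), one_smul, ← two_smul ℂ, smul_smul,
    inv_mul_cancel₀ two_ne_zero, one_smul]

theorem eK_of' (hc : ImQ Z D c) {k : ℂ} (hk : k * k = -(D : ℂ)) {v : Fin g ⊕ Fin g → ℂ}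
    (hv : qm c *ᵥ v = (-k) • v) : eK c k v = 0 := by
  rw [eK_apply, hv, smul_smul, mul_neg, inv_mul_cancel₀ (k_ne hc hk), neg_smul, one_smul,
    add_neg_cancel, smul_zero]

theorem qc_eK (hc : ImQ Z D c) {k : ℂ} (hk : k * k = -(D : ℂ)) (v : Fin g ⊕ Fin g → ℂ) :
    qm c *ᵥ (eK c k v) = k • eK c k v := by
  have hk0 := k_ne hc hk
  rw [eK_apply, mulVec_smul, mulVec_add, mulVec_smul, mulVec_mulVec, qc_sq hc, neg_mulVec,
    smul_mulVec, one_mulVec, smul_comm k]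
  congr 1
  rw [smul_add, smul_smul, mul_inv_cancel₀ hk0, one_smul, smul_neg, smul_smul, add_comm,
    ← neg_smul]
  congr 2
  have h2 : (D : ℂ) = -(k * k) := by rw [hk, neg_neg]
  rw [h2]
  field_simp

theorem qc_eK' (hc : ImQ Z D c) {k : ℂ} (hk : k * k = -(D : ℂ)) (v : Fin g ⊕ Fin g → ℂ) :
    qm c *ᵥ (v - eK c k v) = (-k) • (v - eK c k v) := by
  have hk0 := k_ne hc hk
  have h1 := qc_eK hc hk v
  have h2 : qm c *ᵥ v = k • (2 : ℂ) • eK c k v - k • v := by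
    rw [eK_apply, smul_smul (2 : ℂ), mul_inv_cancel₀ two_ne_zero, one_smul, smul_add, smul_smul k,
      mul_inv_cancel₀ hk0, one_smul, add_sub_cancel_left]
  rw [mulVec_sub, h1, h2]
  module

end Pool.Agent.Y91.G
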