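import Mathlib
import Pool.Agent.Y91.G.Mtx

/-!
# Imaginary quadratic centre: existence of the dual submodule
-/

set_option linter.unusedSectionVars false

namespace Pool.Agent.Y91.G

open Matrix Module Pool.Agent.Y90 Pool.Agent.W437.HC Pool.Agent.W437.HD Pool.Agent.W548.Odd
  Pool.Agent.Y91.JP Pool.Agent.Y91.P
open Pool.Agent.Y4.Q (ImQ)

variable {g : ℕ} {Z : Matrix (Fin g) (Fin g) ℂ} {D : ℚ}
  {c : Matrix (Fin g ⊕ Fin g) (Fin g ⊕ Fin g) ℚ}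

/-- The eigenspaces are isotropic. -/
theorem om_eig (h : PM Z) (hg : 0 < g) (hc : ImQ Z D c) {k : ℂ} (hk : k ≠ 0)
    {u v : Fin g ⊕ Fin g → ℂ} (hu : qm c *ᵥ u = k • u) (hv : qm c *ᵥ v = k • v) :
    Pool.Agent.Y90.om g u v = 0 := by
  have h1 := hc.om_skew h hg u v
  rw [hu, hv, map_smul, map_smul, LinearMap.smul_apply, smul_eq_mul] at h1
  have h2 : (2 * k) * Pool.Agent.Y90.om g u v = 0 := by linear_combination h1
  exact (mul_eq_zero.1 h2).resolve_left (mul_ne_zero two_ne_zero hk)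

/-- The dual submodule. -/
theorem exists_dual (h : PM Z) (hg : 0 < g) (hc : ImQ Z D c) {k : ℂ} (hk : k * k = -(D : ℂ))
    {U : Submodule ℂ (Fin g ⊕ Fin g → ℂ)} (hU : IrS (LZ Z) U)
    (hkU : ∀ u ∈ U, qm c *ᵥ u = k • u) :
    ∃ U', IrS (LZ Z) U' ∧ (∀ u ∈ U', qm c *ᵥ u = (-k) • u) ∧
      ∃ u ∈ U, ∃ v ∈ U', Pool.Agent.Y90.om g u v ≠ 0 := by
  have hk0 := k_ne hc hk
  obtain ⟨u, hu, hu0⟩ := Submodule.exists_mem_ne_zero_of_ne_bot hU.1
  obtain ⟨W, hW, v, hv, huv⟩ : ∃ W, IrS (LZ Z) W ∧ ∃ v ∈ W, Pool.Agent.Y90.om g u v ≠ 0 := by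
    by_contra hcon
    push Not at hcon
    apply hu0
    refine om_nd u fun v => ?_
    have h1 : sSup {U | IrS (LZ Z) U} ≤ LinearMap.ker (Pool.Agent.Y90.om g u) :=
      sSup_le fun U' hU' => hcon U' hU'
    rw [h.cred.span] at h1
    exact h1 (Submodule.mem_top (x := v))
  obtain ⟨T, hTd⟩ : ∃ T : (Fin g ⊕ Fin g → ℂ) →ₗ[ℂ] (Fin g ⊕ Fin g → ℂ), T = 1 - eK c k :=
    ⟨_, rfl⟩
  have hTv : ∀ v, T v = v - eK c k v := fun v => by rw [hTd]; rfl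
  have hT : Eqv Z T := by
    intro X hX v
    have h1 := LinearMap.congr_fun (eK_comm hc k (mem_GG.2 hX)) v
    change eK c k (X *ᵥ v) = X *ᵥ (eK c k v) at h1
    rw [hTv, hTv, h1, mulVec_sub]
  have h1 : Pool.Agent.Y90.om g u (T v) = Pool.Agent.Y90.om g u v := by
    rw [hTv, map_sub, om_eig h hg hc hk0 (hkU u hu) (qc_eK hc hk v), sub_zero]
  have h0 := hT.inj hW ⟨v, hv, fun h2 => by
    rw [h2, map_zero] at h1
    exact huv h1.symm⟩
  refine ⟨W.map T, hT.irS hW h0, ?_, u, hu, T v, ⟨v, hv, rfl⟩, by rw [h1]; exact huv⟩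
  rintro _ ⟨w, -, rfl⟩
  rw [hTv]
  exact qc_eK' hc hk w

/-- The form is nondegenerate on the sum. -/
theorem nondeg_sum (h : PM Z) (hg : 0 < g) (hc : ImQ Z D c) {k : ℂ} (hk : k ≠ 0)
    {U U' : Submodule ℂ (Fin g ⊕ Fin g → ℂ)} (hU : IrS (LZ Z) U) (hU' : IrS (LZ Z) U')
    (hkU : ∀ u ∈ U, qm c *ᵥ u = k • u) (hkU' : ∀ u ∈ U', qm c *ᵥ u = (-k) • u)
    (huv : ∃ u ∈ U, ∃ v ∈ U', Pool.Agent.Y90.om g u v ≠ 0) :
    ∀ x ∈ U ⊔ U', (∀ y ∈ U ⊔ U', Pool.Agent.Y90.om g x y = 0) → x = 0 := by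
  have hker : ∀ {A B : Submodule ℂ (Fin g ⊕ Fin g → ℂ)}, IrS (LZ Z) A → IrS (LZ Z) B →
      (∃ u ∈ A, ∃ v ∈ B, Pool.Agent.Y90.om g u v ≠ 0) →
        ∀ a ∈ A, (∀ b ∈ B, Pool.Agent.Y90.om g a b = 0) → a = 0 := by
    intro A B hA hB hAB a ha hab
    let R : Submodule ℂ (Fin g ⊕ Fin g → ℂ) :=
      { carrier := {a | a ∈ A ∧ ∀ b ∈ B, Pool.Agent.Y90.om g a b = 0}
        zero_mem' := ⟨A.zero_mem, fun b _ => by rw [map_zero, LinearMap.zero_apply]⟩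
        add_mem' := fun {x y} hx hy => ⟨A.add_mem hx.1 hy.1, fun b hb => by
          rw [map_add, LinearMap.add_apply, hx.2 b hb, hy.2 b hb, add_zero]⟩
        smul_mem' := fun t x hx => ⟨A.smul_mem t hx.1, fun b hb => by
          rw [map_smul, LinearMap.smul_apply, hx.2 b hb, smul_zero]⟩ }
    rcases hA.2.2 R (fun x hx => hx.1) (by
      rintro X hX x ⟨hx, hx'⟩
      refine ⟨hA.2.1 X hX x hx, fun b hb => ?_⟩
      have h1 := h.om_sp hX x b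
      rw [hx' _ (hB.2.1 X hX b hb), add_zero] at h1
      exact h1) with h1 | h1
    · have h2 : a ∈ R := ⟨ha, hab⟩
      rw [h1] at h2
      exact h2
    · exfalso
      obtain ⟨u, hu, v, hv, huv⟩ := hAB
      rw [← h1] at hu
      exact huv (hu.2 v hv)
  intro x hx hxy
  obtain ⟨a, ha, b, hb, rfl⟩ := Submodule.mem_sup.1 hx
  have ha0 : a = 0 := hker hU hU' huv a ha fun y hy => by
    have h1 := hxy y (Submodule.mem_sup_right hy)
    rwa [map_add, LinearMap.add_apply,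
      om_eig h hg hc (neg_ne_zero.2 hk) (hkU' b hb) (hkU' y hy), add_zero] at h1
  have hb0 : b = 0 := hker hU' hU (by
      obtain ⟨u, hu, v, hv, huv⟩ := huv
      refine ⟨v, hv, u, hu, ?_⟩
      rw [om_anti, neg_ne_zero]
      exact huv) b hb fun y hy => by
    have h1 := hxy y (Submodule.mem_sup_left hy)
    rwa [map_add, LinearMap.add_apply, om_eig h hg hc hk (hkU a ha) (hkU y hy), zero_add] at h1
  rw [ha0, hb0, add_zero]

end Pool.Agent.Y91.G
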