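import Mathlib
import Pool.Agent.Y91.G.Dua
import Pool.Agent.Y185.G.Self
import Pool.Agent.Y442.G.Spin

/-!
# Rank one elements: the centre is an imaginary quadratic field
-/

set_option linter.unusedSectionVars false

namespace Pool.Agent.Y91.G

open Matrix Module Pool.Agent.Y90 Pool.Agent.W437.HC Pool.Agent.W437.HD Pool.Agent.W548.Odd
  Pool.Agent.Y91.JP Pool.Agent.Y91.P
open Pool.Agent.Y4.Q (ImQ)

variable {g : ℕ} {Z : Matrix (Fin g) (Fin g) ℂ} {D : ℚ}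
  {c : Matrix (Fin g ⊕ Fin g) (Fin g ⊕ Fin g) ℚ}

theorem cj_eK {k : ℂ} {σ : ℂ ≃+* ℂ} (hσ : σ k = k) :
    cjE (Fin g ⊕ Fin g) σ (eK c k) = eK c k := by
  have T := tr_ph (Z := (0 : Matrix (Fin g) (Fin g) ℂ)) σ
  have h1 : cjE (Fin g ⊕ Fin g) σ (ph (Fin g ⊕ Fin g) (qm c)) = ph (Fin g ⊕ Fin g) (qm c) := by
    rw [cjE_ph]
    congr 1
    exact qm_aut c (σ : ℂ →+* ℂ)
  unfold eK
  rw [T.smul, map_add, map_one, T.smul, h1, map_inv₀, map_inv₀, hσ, map_ofNat]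

theorem conj_k {k : ℂ} (hc : ImQ Z D c) (hk : k * k = -(D : ℂ)) : cc k = -k := by
  rw [cc_apply]
  have hD : (0 : ℝ) < D := by exact_mod_cast hc.1
  have h1 : k.re * k.re - k.im * k.im = -(D : ℝ) := by
    have := congrArg Complex.re hk
    simpa using this
  have h2 : k.re * k.im + k.im * k.re = 0 := by
    have := congrArg Complex.im hk
    simpa using this
  have h3 : k.re = 0 := by
    by_contra h0
    have h4 : k.im = 0 := by
      have h5 : k.re * k.im = 0 := by linarith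
      exact (mul_eq_zero.1 h5).resolve_left h0
    rw [h4] at h1
    nlinarith [mul_self_nonneg k.re]
  apply Complex.ext
  · simp [h3]
  · simp

theorem aut_k {k : ℂ} (hk : k * k = -(D : ℂ)) (σ : ℂ ≃+* ℂ) : σ k = k ∨ σ k = -k := by
  have h1 : σ k * σ k = k * k := by
    rw [← map_mul, hk, map_neg, map_ratCast]
  exact mul_self_eq_mul_self_iff.1 h1

theorem up_fact {K R : Type*} [Field K] [Ring R] [Algebra K R] {e d c z : R} {t : K}
    (h : e * d = d * e) (hd : d * d = 1) (hz : z + t • (e - (1 - e)) = c) (h1 : d * c = c)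
    (h2 : c * d = -c) : z + d * z - z * d - d * z * d = (4 : K) • c := by
  have e1 : (1 + d) * (e - (1 - e)) * (1 - d) = 0 := by
    have k1 : (1 + d) * (e - (1 - e)) = (e - (1 - e)) * (1 + d) := by
      simp only [mul_sub, sub_mul, mul_add, add_mul, one_mul, mul_one, h]
      abel
    have k2 : (1 + d) * (1 - d) = 0 := by
      calc (1 + d) * (1 - d) = 1 - d * d := by noncomm_ring
      _ = 0 := by rw [hd, sub_self]
    rw [k1, mul_assoc, k2, mul_zero]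
  have e2 : z = c - t • (e - (1 - e)) := by rw [← hz, add_sub_cancel_right]
  have e3 : (1 + d) * c * (1 - d) = (4 : K) • c := by
    have k1 : (1 + d) * c * (1 - d) = c + d * c - c * d - d * (c * d) := by noncomm_ring
    rw [k1, h2, mul_neg, h1]
    module
  have e4 : z + d * z - z * d - d * z * d = (1 + d) * z * (1 - d) := by noncomm_ring
  have e5 : (1 + d) * (c - t • (e - (1 - e))) * (1 - d) =
      (1 + d) * c * (1 - d) - t • ((1 + d) * (e - (1 - e)) * (1 - d)) := by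
    rw [mul_sub (1 + d), sub_mul _ _ (1 - d), mul_smul_comm, smul_mul_assoc]
  rw [e4, e2, e5, e1, smul_zero, sub_zero, e3]

theorem lift_fact {K : Type*} [Field K] [CharZero K] {V : Type*} [AddCommGroup V] [Module K V]
    [FiniteDimensional K V] {G : Submodule K (End K V)} {st : End K V →ₗ[K] End K V}
    {M : Submodule K V} {p : V →ₗ[K] M} (h : Setup G st) (c : Cor G st M p) {D1 A : End K V}
    (hD : D1 ∈ G) (hA : A ∈ G) (hD2 : D1 * D1 = 1) {e' c' : End K M}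
    (he : e' * rs M p D1 = rs M p D1 * e') {t : K}
    (hz : rs M p A + t • (e' - (1 - e')) = c') (h1 : rs M p D1 * c' = c')
    (h2 : c' * rs M p D1 = -c') : rs M p ((1 + D1) * A * (1 - D1)) = (4 : K) • c' := by
  have hD₀2 : rs M p D1 * rs M p D1 = 1 := by rw [← c.rs_mem_mul h hD, hD2, rs_one c.hp]
  rw [updown_eq, map_sub, map_sub, map_add, c.rs_mem_mul h hA, c.rs_mem_mul h hD,
    c.rs_mem_mul h hD, c.rs_mem_mul h hA]
  exact up_fact he hD₀2 hz h1 h2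

/-- **Rank one elements for an imaginary quadratic centre.** -/
theorem rk1_imq (h : PM Z) (hg : 0 < g) (hc : ImQ Z D c)
    {U : Submodule ℂ (Fin g ⊕ Fin g → ℂ)} (hU : IrS (LZ Z) U) {k : ℂ}
    (hkU : ∀ u ∈ U, qm c *ᵥ u = k • u)
    (hpq1 : pd Z U + qd Z U ≠ 1)
    (h1 : ∀ d m : ℕ, 2 ≤ d → 1 ≤ m → d ^ (m + 1) = pd Z U + qd Z U → ¬ d ^ m ∣ pd Z U)
    (h2 : pd Z U ≠ qd Z U → ∀ n a : ℕ, 1 < a → a < n →
      ¬ (pd Z U = n.choose a ∧ qd Z U = n.choose (a - 1))) : Rk1 Z U := by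
  have hOm2 : Om g ℂ * Om g ℂ = -1 := Om_sq ℂ
  have hOmT : (Om g ℂ)ᵀ = -Om g ℂ := Om_transpose ℂ
  have hω := altF hOmT hOm2
  have hS := h.setup
  obtain ⟨u, hu, hu0⟩ := Submodule.exists_mem_ne_zero_of_ne_bot hU.1
  have hk : k * k = -(D : ℂ) := by
    have e1 : qm c *ᵥ (qm c *ᵥ u) = (k * k) • u := by
      rw [hkU u hu, mulVec_smul, hkU u hu, smul_smul]
    rw [mulVec_mulVec, qc_sq hc, neg_mulVec, smul_mulVec, one_mulVec, ← neg_smul] at e1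
    have e2 : (-(D : ℂ) - k * k) • u = 0 := by rw [sub_smul, e1, sub_self]
    exact (sub_eq_zero.1 ((smul_eq_zero.1 e2).resolve_right hu0)).symm
  have hk0 := k_ne hc hk
  obtain ⟨U', hU', hkU', huv⟩ := exists_dual h hg hc hk hU hkU
  have P : Pair (GG (LZ Z)) (stE (Om g ℂ)) (eK c k) U U' :=
    { idem := eK_idem hc hk
      st1 := st_oneE h
      st := st_eK h hg hc k
      com := fun T hT => com_eK hc k hT
      eG := fun y hy => eK_comm hc k hy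
      hU := irrS_of_irS hU
      hU' := irrS_of_irS hU'
      eU := fun u hu => eK_of hc hk (hkU u hu)
      eU' := fun u hu => eK_of' hc hk (hkU' u hu) }
  obtain ⟨p, cr⟩ := exists_cor2 hS hω (fun y hy x hx => P.stable hy hx)
    (nondeg_sum h hg hc hk0 hU hU' hkU hkU' huv)
  have b0 := P.blk0 hS cr
  have h0 := P.setup hS cr
  have htr := cr.trSt hS (trSt hOm2)
  obtain ⟨M, hM⟩ : ∃ M, M = U ⊔ U' := ⟨_, rfl⟩
  have hσ : ∀ σ : ℂ ≃+* ℂ, ph (Fin g ⊕ Fin g) (DS Z σ) * ph (Fin g ⊕ Fin g) (DS Z σ) = 1 := by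
    intro σ
    rw [← map_mul, DS_sq h.det, map_one]
  have hσG : ∀ σ : ℂ ≃+* ℂ, ph (Fin g ⊕ Fin g) (DS Z σ) ∈ GG (LZ Z) := fun σ =>
    mem_GG.2 (DS_mem σ)
  have hDZ : DS Z (RingEquiv.refl ℂ) = DZ Z := by
    ext i j
    rfl
  have hDG : ph (Fin g ⊕ Fin g) (DZ Z) ∈ GG (LZ Z) := mem_GG.2 DZ_mem
  have hD2 : ph (Fin g ⊕ Fin g) (DZ Z) * ph (Fin g ⊕ Fin g) (DZ Z) = 1 := by
    rw [← map_mul, DZ_sq h.det, map_one]
  have hSS : ∀ E ∈ {E | ∃ σ : ℂ ≃+* ℂ, σ k = k ∧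
      E = rs (U ⊔ U') p (ph (Fin g ⊕ Fin g) (DS Z σ))},
      E ∈ (GG (LZ Z)).map (rs (U ⊔ U') p) ∧ E * E = 1 := by
    rintro _ ⟨σ, -, rfl⟩
    exact ⟨⟨_, hσG σ, rfl⟩, by rw [← cr.rs_mem_mul hS (hσG σ), hσ, rs_one cr.hp]⟩
  obtain ⟨u', hu', hu0'⟩ := Submodule.exists_mem_ne_zero_of_ne_bot hU'.1
  have hinj := faithful_imq h hc (U := U ⊔ U') (fun X hX x hx => P.stable (mem_GG.2 hX) hx) hk0
    (Submodule.mem_sup_left hu) hu0 (hkU u hu) (Submodule.mem_sup_right hu') hu0' (hkU' u' hu')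
    (e := eK c k) (fun T hT => com_eK hc k hT)
  obtain ⟨D₀, hD₀⟩ : ∃ D₀, D₀ = rs (U ⊔ U') p (ph (Fin g ⊕ Fin g) (DZ Z)) := ⟨_, rfl⟩
  have hD₀v : ∀ v : (U ⊔ U' : Submodule ℂ (Fin g ⊕ Fin g → ℂ)), ((D₀ v :
      (U ⊔ U' : Submodule ℂ (Fin g ⊕ Fin g → ℂ))) : Fin g ⊕ Fin g → ℂ) = DZ Z *ᵥ (v : _ → ℂ) := by
    intro v
    rw [hD₀]
    exact rs_of_comm cr (cr.comm _ hDG) v
  have hUe : ∀ v ∈ U ⊔ U', eK c k v = v → v ∈ U := by
    intro v hv hev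
    obtain ⟨a, ha, b, hb, rfl⟩ := Submodule.mem_sup.1 hv
    rw [map_add, P.eU a ha, P.eU' b hb, add_zero] at hev
    rw [← hev]
    exact ha
  have hpos : ∀ (s : ℂ) (E : End ℂ (U ⊔ U' : Submodule ℂ (Fin g ⊕ Fin g → ℂ))),
      (∀ v : (U ⊔ U' : Submodule ℂ (Fin g ⊕ Fin g → ℂ)), E v = v ↔
        DZ Z *ᵥ (v : _ → ℂ) = s • (v : Fin g ⊕ Fin g → ℂ)) →
      finrank ℂ (Pos E (rs (U ⊔ U') p (eK c k))) =
        finrank ℂ (U ⊓ eig Z s : Submodule ℂ (Fin g ⊕ Fin g → ℂ)) := by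
    intro s E hE
    have e1 : (Pos E (rs (U ⊔ U') p (eK c k))).map (U ⊔ U').subtype = U ⊓ eig Z s := by
      ext v
      constructor
      · rintro ⟨v, ⟨hv1, hv2⟩, rfl⟩
        refine ⟨hUe _ v.2 ?_, (hE v).1 hv1⟩
        have e2 := congrArg Subtype.val hv2
        rw [P.rs_e cr] at e2
        exact e2
      · rintro ⟨hv1, hv2⟩
        refine ⟨⟨v, Submodule.mem_sup_left hv1⟩, ⟨(hE _).2 hv2, Subtype.ext ?_⟩, rfl⟩
        rw [P.rs_e cr]
        exact P.eU v hv1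
    rw [← e1]
    exact (Submodule.finrank_map_subtype_eq _ _).symm
  have hp : finrank ℂ (Pos D₀ (rs (U ⊔ U') p (eK c k))) = pd Z U := by
    refine hpos 1 D₀ fun v => ?_
    rw [one_smul, ← hD₀v]
    exact Subtype.ext_iff
  have hq : finrank ℂ (Pos (-D₀) (rs (U ⊔ U') p (eK c k))) = qd Z U := by
    refine hpos (-1) (-D₀) fun v => ?_
    rw [← hD₀v, neg_smul, one_smul, LinearMap.neg_apply, neg_eq_iff_eq_neg]
    exact Subtype.ext_iff
  have hrefl : D₀ ∈ {E | ∃ σ : ℂ ≃+* ℂ, σ k = k ∧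
      E = rs (U ⊔ U') p (ph (Fin g ⊕ Fin g) (DS Z σ))} :=
    ⟨RingEquiv.refl ℂ, rfl, by rw [hDZ, hD₀]⟩
  obtain ⟨c', hc', hr⟩ := rank_one_all (K := ℂ) Pool.Agent.Y442.G.spin Pool.Agent.Y185.G.self h0 b0
    htr hSS (by
      intro L hL hbr
      have h1 : LZ Z ≤ LZ Z ⊓ (L.comap (rs (U ⊔ U') p)).comap
          (ph (Fin g ⊕ Fin g)).toLinearMap := by
        refine LZ_le (fun σ => ⟨DS_mem σ, ?_⟩) ?_
        · rcases aut_k hk σ with h3 | h3
          · exact hL ⟨σ, h3, rfl⟩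
          · have h4 : DS Z σ = (-1 : ℂ) • DS Z (cc.trans σ) := by
              rw [← DS_map]
              have h5 : DS Z cc = -DZ Z := DZ_conj
              rw [h5]
              ext i j
              simp [DS]
            change rs (U ⊔ U') p (ph (Fin g ⊕ Fin g) (DS Z σ)) ∈ L
            rw [h4, map_smul, map_smul]
            exact L.smul_mem _ (hL ⟨cc.trans σ, by
              change σ (cc k) = k
              rw [conj_k hc hk, map_neg, h3, neg_neg], rfl⟩)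
        · rintro A ⟨hA, hA'⟩ C ⟨hC, hC'⟩
          refine ⟨LZ_br hA hC, ?_⟩
          have h2 := hbr _ hA' _ hC'
          change rs (U ⊔ U') p (ph (Fin g ⊕ Fin g) (A * C - C * A)) ∈ L
          rw [map_sub, map_mul, map_mul, cr.rs_br hS (mem_GG.2 hA) (mem_GG.2 hC)]
          exact h2
      rintro _ ⟨y, hy, rfl⟩
      obtain ⟨A, hA, rfl⟩ := exists_GG hy
      exact (h1 hA).2) hrefl (by
      rintro _ ⟨σ, hσk, rfl⟩
      refine ⟨σ, fun d e Mu => ?_⟩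
      rw [hD₀] at Mu ⊢
      exact mue_transfer hS cr (P.pr_e cr) P.eG (b0.setup h0) hinj (tr_ph σ) hDG (cj_eK hσk) d e
        Mu) hp hq hpq1 h1 h2
  obtain ⟨hcG, hc1, hc2⟩ := hc'
  obtain ⟨_, ⟨z, hz, rfl⟩, t, hzt⟩ := exists_gp hcG
  obtain ⟨A, hA, rfl⟩ := exists_GG hz
  -- the lift
  have hup := up_mem h hA
  obtain ⟨D1, hD1⟩ : ∃ D1, D1 = ph (Fin g ⊕ Fin g) (DZ Z) := ⟨_, rfl⟩
  have hNe : ph (Fin g ⊕ Fin g) ((1 / 4 : ℂ) • ((1 + DZ Z) * A * (1 - DZ Z))) =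
      (1 / 4 : ℂ) • ((1 + D1) * ph (Fin g ⊕ Fin g) A * (1 - D1)) := by
    rw [map_smul, map_mul, map_mul, map_add, map_sub, map_one, ← hD1]
  rw [← hD1] at hD₀ hDG hD2
  obtain ⟨ε', hε'⟩ : ∃ ε', ε' = rs (U ⊔ U') p (eK c k) := ⟨_, rfl⟩
  rw [← hε'] at hzt hr
  have hε'D : ε' * rs (U ⊔ U') p D1 = rs (U ⊔ U') p D1 * ε' := by
    rw [hε']
    exact b0.comm _ ⟨_, hDG, rfl⟩
  rw [hD₀] at hc1 hc2
  have hN : rs (U ⊔ U') p (ph (Fin g ⊕ Fin g) ((1 / 4 : ℂ) • ((1 + DZ Z) * A * (1 - DZ Z)))) =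
      c' := by
    rw [hNe, map_smul, lift_fact hS cr hDG hz hD2 hε'D hzt.symm hc1 hc2, smul_smul]
    norm_num
  refine ⟨DZ Z, Or.inl rfl, _, hup, ?_, ?_, ?_⟩
  · apply (ph (Fin g ⊕ Fin g)).injective
    rw [map_mul, hNe, ← hD1, mul_smul_comm, up_left hD2]
  · apply (ph (Fin g ⊕ Fin g)).injective
    rw [map_mul, map_neg, hNe, ← hD1, smul_mul_assoc, up_right hD2, smul_neg]
  · obtain ⟨N, hNd⟩ : ∃ N, N = (1 / 4 : ℂ) • ((1 + DZ Z) * A * (1 - DZ Z)) := ⟨_, rfl⟩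
    rw [← hNd] at hN hup ⊢
    have hNv : ∀ v : (U ⊔ U' : Submodule ℂ (Fin g ⊕ Fin g → ℂ)), ((c' v :
        (U ⊔ U' : Submodule ℂ (Fin g ⊕ Fin g → ℂ))) : Fin g ⊕ Fin g → ℂ) =
          N *ᵥ (v : _ → ℂ) := by
      intro v
      rw [← hN]
      exact rs_of_comm cr (cr.comm _ (mem_GG.2 hup)) v
    have e1 : (LinearMap.range (ε' * c')).map (U ⊔ U').subtype = U.map (mulVecLin N) := by
      apply le_antisymm
      · rintro _ ⟨_, ⟨v, rfl⟩, rfl⟩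
        obtain ⟨a, ha, b, hb, hab⟩ := Submodule.mem_sup.1 v.2
        refine ⟨a, ha, ?_⟩
        change N *ᵥ a = ((ε' (c' v) : (U ⊔ U' : Submodule ℂ (Fin g ⊕ Fin g → ℂ))) :
          Fin g ⊕ Fin g → ℂ)
        have k1 : eK c k (N *ᵥ a) = N *ᵥ a := P.eU _ (P.hU.st _ (mem_GG.2 hup) a ha)
        have k2 : eK c k (N *ᵥ b) = 0 := P.eU' _ (P.hU'.st _ (mem_GG.2 hup) b hb)
        rw [hε', P.rs_e cr, hNv, ← hab, mulVec_add, map_add, k1, k2, add_zero]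
      · rintro _ ⟨a, ha, rfl⟩
        refine ⟨(ε' * c') ⟨a, Submodule.mem_sup_left ha⟩, ⟨_, rfl⟩, ?_⟩
        change ((ε' (c' ⟨a, Submodule.mem_sup_left ha⟩) :
          (U ⊔ U' : Submodule ℂ (Fin g ⊕ Fin g → ℂ))) : Fin g ⊕ Fin g → ℂ) = N *ᵥ a
        rw [hε', P.rs_e cr, hNv]
        exact P.eU _ (P.hU.st _ (mem_GG.2 hup) a ha)
    rw [← e1]
    have e2 := Submodule.finrank_map_subtype_eq (U ⊔ U') (LinearMap.range (ε' * c'))
    rw [e2]
    exact hr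

/-- The statement of project P. -/
theorem jUni : Pool.Agent.Y4.Q.JUni := by
  intro g Z h _ hg D c hc U hU _ k hkU hx
  exact rk1_imq h hg hc hU hkU (fun h1 => hx.1 1 2 le_rfl (by rw [h1, one_pow]))
    (fun d m _ hm hdm => absurd hdm (hx.1 d (m + 1) (by omega)))
    fun hpq n a ha1 han => (hx.2 hpq n a ha1 han).1

end Pool.Agent.Y91.G
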