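import Mathlib
import Pool.Agent.Y91.G.Pic

/-!
# Irreducible submodules which are not self-dual
-/

set_option linter.unusedSectionVars false

namespace Pool.Agent.Y91.G

open Module LinearMap Pool.Agent.W548.Odd Pool.Agent.Y91.JP Pool.Agent.Y91.P

variable {K : Type*} [Field K] [CharZero K] {V : Type*} [AddCommGroup V] [Module K V]
  [FiniteDimensional K V]

variable {G : Submodule K (End K V)} {st : End K V →ₗ[K] End K V}

/-- A submodule, its projection and the dual submodule. -/
structure Dual2 (G : Submodule K (End K V)) (st : End K V →ₗ[K] End K V) (e : End K V)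
    (U U' : Submodule K V) : Prop where
  st1 : st 1 = 1
  st2 : st (st e) = e
  idem : e * e = e
  eG : ∀ y ∈ G, e * y = y * e
  est : e * st e = 0
  ste : st e * e = 0
  ranU : ∀ v, v ∈ U ↔ e v = v
  ranU' : ∀ v, v ∈ U' ↔ st e v = v
  hU : IrrS G U
  hU' : IrrS G U'
  off : ∀ T : End K V, (∀ y ∈ G, T * y = y * T) → (∀ u ∈ U, T u ∈ U') → ∀ u ∈ U, T u = 0
  off' : ∀ T : End K V, (∀ y ∈ G, T * y = y * T) → (∀ u ∈ U', T u ∈ U) → ∀ u ∈ U', T u = 0

/-- The inverse of an equivariant isomorphism between irreducible submodules. -/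
theorem exists_inv {U U' : Submodule K V} (hU : IrrS G U) (hU' : IrrS G U') {e T : End K V}
    (hT : ∀ y ∈ G, T * y = y * T) (heG : ∀ y ∈ G, e * y = y * e) (he : ∀ v, e v ∈ U)
    (he' : ∀ v ∈ U, e v = v) (hTU : ∀ u ∈ U', T u ∈ U) (h0 : ∃ u ∈ U', T u ≠ 0) :
    ∃ S : End K V, (∀ y ∈ G, S * y = y * S) ∧ (∀ v, S v ∈ U') ∧ ∀ u ∈ U', S (T u) = u := by
  have hTy : ∀ y ∈ G, ∀ v, T (y v) = y (T v) := fun y hy v => LinearMap.congr_fun (hT y hy) v
  have hey : ∀ y ∈ G, ∀ v, e (y v) = y (e v) := fun y hy v => LinearMap.congr_fun (heG y hy) v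
  have hinj : ∀ u ∈ U', T u = 0 → u = 0 := by
    intro u hu hu0
    rcases hU'.min (U' ⊓ LinearMap.ker T) (by
      rintro y hy x ⟨hx, hx'⟩
      have hx'' : T x = 0 := hx'
      refine ⟨hU'.st y hy x hx, ?_⟩
      change T (y x) = 0
      rw [hTy y hy, hx'', map_zero]) inf_le_left with h1 | h1
    · have h2 : u ∈ U' ⊓ LinearMap.ker T := ⟨hu, hu0⟩
      rw [h1] at h2
      exact h2
    · exfalso
      obtain ⟨w, hw, hw0⟩ := h0
      rw [← h1] at hw
      exact hw0 hw.2
  have hsurj : U'.map T = U := by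
    rcases hU.min (U'.map T) (by
      rintro y hy _ ⟨x, hx, rfl⟩
      exact ⟨y x, hU'.st y hy x hx, hTy y hy x⟩) (by
      rintro _ ⟨x, hx, rfl⟩
      exact hTU x hx) with h1 | h1
    · exfalso
      obtain ⟨w, hw, hw0⟩ := h0
      apply hw0
      have h2 : T w ∈ U'.map T := ⟨w, hw, rfl⟩
      rw [h1] at h2
      exact h2
    · exact h1
  let f : U' →ₗ[K] U := (T.comp U'.subtype).codRestrict U fun u => hTU u u.2
  have hf : Function.Bijective f := by
    constructor
    · rw [injective_iff_map_eq_zero]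
      intro u hu
      exact Subtype.ext (hinj u u.2 (congrArg Subtype.val hu))
    · rintro ⟨v, hv⟩
      rw [← hsurj] at hv
      obtain ⟨w, hw, hwv⟩ := hv
      exact ⟨⟨w, hw⟩, Subtype.ext hwv⟩
  let F : U' ≃ₗ[K] U := LinearEquiv.ofBijective f hf
  have hF : ∀ u : U', ((F u : U) : V) = T u := fun u => rfl
  let ee : V →ₗ[K] U := e.codRestrict U he
  let S : End K V := U'.subtype ∘ₗ F.symm.toLinearMap ∘ₗ ee
  have hS : ∀ v, S v = ((F.symm (ee v) : U') : V) := fun v => rfl
  have hee : ∀ v, ((ee v : U) : V) = e v := fun v => rfl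
  refine ⟨S, fun y hy => LinearMap.ext fun v => ?_, fun v => (F.symm (ee v)).2, fun u hu => ?_⟩
  · change S (y v) = y (S v)
    have h1 : F.symm (ee (y v)) = ⟨y (S v), hU'.st y hy _ (F.symm (ee v)).2⟩ := by
      rw [LinearEquiv.symm_apply_eq]
      apply Subtype.ext
      rw [hF, hee, hey y hy]
      change y (e v) = T (y (S v))
      rw [hTy y hy, hS, ← hF, LinearEquiv.apply_symm_apply, hee]
    rw [hS, h1]
  · rw [hS]
    have h1 : ee (T u) = F ⟨u, hu⟩ := by
      apply Subtype.ext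
      rw [hee, hF]
      exact he' _ (hTU u hu)
    rw [h1, LinearEquiv.symm_apply_apply]

/-- The dual submodule of an irreducible submodule which is not self-dual. -/
theorem exists_dual2 (h : Setup G st) (h1 : st 1 = 1) {ω : V →ₗ[K] V →ₗ[K] K} (hω : AltF st ω)
    {U : Submodule K V} (hU : IrrS G U)
    (hns : ∀ T : End K V, (∀ y ∈ G, T * y = y * T) → ∀ u ∈ U, ∀ v ∈ U, ω u (T v) = 0) :
    ∃ e U', Dual2 G st e U U' := by
  obtain ⟨e, eG, eU, eU'⟩ := h.cr U hU.st
  have hst2 : ∀ x, st (st x) = x := by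
    intro x
    refine LinearMap.ext fun w => ?_
    rw [← sub_eq_zero]
    refine hω.nd _ fun v => ?_
    rw [map_sub, ← hω.adj, sub_eq_zero, hω.anti, ← hω.adj, hω.anti, neg_neg]
  have hnd' : ∀ v, (∀ w, ω v w = 0) → v = 0 := fun v hv => hω.nd v fun w => by
    rw [hω.anti, hv, neg_zero]
  have idem : e * e = e := LinearMap.ext fun v => eU' _ (eU v)
  have idem' : st e * st e = st e := by rw [← h.st_mul, idem]
  have seG : ∀ y ∈ G, st e * y = y * st e := by
    intro y hy
    have e1 := congrArg st (eG y hy)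
    rw [h.st_mul, h.st_mul, h.skew y hy, neg_mul, mul_neg, neg_inj] at e1
    exact e1.symm
  have hyw : ∀ y ∈ G, ∀ v w, ω (y v) w = -ω v (y w) := by
    intro y hy v w
    rw [hω.adj, h.skew y hy]
    exact map_neg _ _
  -- the dual submodule
  let U' : Submodule K V := LinearMap.range (st e)
  have hmem : ∀ v, v ∈ U' ↔ st e v = v := by
    intro v
    constructor
    · rintro ⟨w, rfl⟩
      exact LinearMap.congr_fun idem' w
    · intro hv
      exact ⟨v, hv⟩
  have hmemU : ∀ v, v ∈ U ↔ e v = v := fun v => ⟨eU' v, fun hv => by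
    rw [← hv]
    exact eU v⟩
  have hpair : ∀ u ∈ U, (∀ w ∈ U', ω u w = 0) → u = 0 := by
    intro u hu huw
    refine hnd' u fun w => ?_
    have e1 := huw _ ⟨w, rfl⟩
    rw [← hω.adj, eU' u hu] at e1
    exact e1
  have hpair' : ∀ w ∈ U', (∀ u ∈ U, ω u w = 0) → w = 0 := by
    intro w hw huw
    refine hω.nd w fun v => ?_
    have e1 := huw _ (eU v)
    rw [hω.adj, (hmem w).1 hw] at e1
    exact e1
  have hrk : finrank K U' = finrank K U := by
    have e1 : finrank K U' = rk (st e) := rfl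
    have e2 : LinearMap.range e = U := by
      ext v
      constructor
      · rintro ⟨w, rfl⟩
        exact eU w
      · intro hv
        exact ⟨v, eU' v hv⟩
    rw [e1, h.st_rk]
    unfold rk
    rw [e2]
  obtain ⟨u0, hu0, hu00⟩ := Submodule.exists_mem_ne_zero_of_ne_bot hU.ne
  have hU' : IrrS G U' := by
    refine ⟨?_, ?_, ?_⟩
    · rintro y hy _ ⟨x, rfl⟩
      exact ⟨y x, LinearMap.congr_fun (seG y hy) x⟩
    · intro h0
      apply hu00
      refine hpair u0 hu0 fun w hw => ?_
      rw [h0] at hw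
      rw [(Submodule.mem_bot K).1 hw, map_zero]
    · intro W hW hWU
      let A : Submodule K V :=
        { carrier := {u | u ∈ U ∧ ∀ w ∈ W, ω u w = 0}
          zero_mem' := ⟨U.zero_mem, fun w _ => by rw [map_zero, LinearMap.zero_apply]⟩
          add_mem' := fun {x y} hx hy => ⟨U.add_mem hx.1 hy.1, fun w hw => by
            rw [map_add, LinearMap.add_apply, hx.2 w hw, hy.2 w hw, add_zero]⟩
          smul_mem' := fun t x hx => ⟨U.smul_mem t hx.1, fun w hw => by
            rw [map_smul, LinearMap.smul_apply, hx.2 w hw, smul_zero]⟩ }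
      rcases hU.min A (by
        rintro y hy x ⟨hx, hx'⟩
        refine ⟨hU.st y hy x hx, fun w hw => ?_⟩
        rw [hyw y hy, hx' _ (hW y hy w hw), neg_zero]) (fun x hx => hx.1) with h2 | h2
      · right
        refine Submodule.eq_of_le_of_finrank_le hWU ?_
        rw [hrk]
        let φ : U →ₗ[K] Dual K W := (ω.domRestrict₁₂ U W)
        have hφ : Function.Injective φ := by
          rw [injective_iff_map_eq_zero]
          intro u hu
          have h3 : (u : V) ∈ A := ⟨u.2, fun w hw => LinearMap.congr_fun hu ⟨w, hw⟩⟩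
          rw [h2] at h3
          exact Subtype.ext ((Submodule.mem_bot K).1 h3)
        calc finrank K U ≤ finrank K (Dual K W) := LinearMap.finrank_le_finrank_of_injective hφ
        _ = finrank K W := Subspace.dual_finrank_eq
      · left
        rw [Submodule.eq_bot_iff]
        intro w hw
        refine hpair' w (hWU hw) fun u hu => ?_
        rw [← h2] at hu
        exact hu.2 w hw
  have off : ∀ T : End K V, (∀ y ∈ G, T * y = y * T) → (∀ u ∈ U, T u ∈ U') →
      ∀ u ∈ U, T u = 0 := fun T hT hTU u hu => hpair' _ (hTU u hu) fun v hv => hns T hT v hv u hu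
  have off' : ∀ T : End K V, (∀ y ∈ G, T * y = y * T) → (∀ u ∈ U', T u ∈ U) →
      ∀ u ∈ U', T u = 0 := by
    intro T hT hTU
    by_contra hcon
    push Not at hcon
    obtain ⟨S, hS, hSU, hST⟩ := exists_inv hU hU' hT eG eU eU' hTU hcon
    obtain ⟨u, hu, hTu⟩ := hcon
    apply hTu
    have h2 := off S hS (fun v _ => hSU v) (T u) (hTU u hu)
    rw [hST u hu] at h2
    rw [h2, map_zero]
  refine ⟨e, U', h1, hst2 e, idem, eG, ?_, ?_, hmemU, hmem, hU, hU', off, off'⟩
  · refine LinearMap.ext fun v => ?_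
    exact off' e eG (fun u _ => eU u) (st e v) ⟨v, rfl⟩
  · refine LinearMap.ext fun v => ?_
    exact off (st e) seG (fun u _ => ⟨u, rfl⟩) (e v) (eU v)

section dual2

variable {e : End K V} {U U' : Submodule K V} (h : Setup G st) (P : Dual2 G st e U U')

include P

theorem Dual2.e_self {u : V} (hu : u ∈ U) : e u = u := (P.ranU u).1 hu

theorem Dual2.e_dual {u : V} (hu : u ∈ U') : e u = 0 := by
  rw [← (P.ranU' u).1 hu]
  exact LinearMap.congr_fun P.est u

theorem Dual2.se_self {u : V} (hu : u ∈ U) : st e u = 0 := by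
  rw [← (P.ranU u).1 hu]
  exact LinearMap.congr_fun P.ste u

theorem Dual2.se_dual {u : V} (hu : u ∈ U') : st e u = u := (P.ranU' u).1 hu

theorem Dual2.e_mem (v : V) : e v ∈ U := (P.ranU _).2 (LinearMap.congr_fun P.idem v)

include h

theorem Dual2.seG {y : End K V} (hy : y ∈ G) : st e * y = y * st e := by
  have e1 := congrArg st (P.eG y hy)
  rw [h.st_mul, h.st_mul, h.skew y hy, neg_mul, mul_neg, neg_inj] at e1
  exact e1.symm

theorem Dual2.se_mem (v : V) : st e v ∈ U' := (P.ranU' _).2 (by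
  have h1 : st e * st e = st e := by rw [← h.st_mul, P.idem]
  exact LinearMap.congr_fun h1 v)

theorem Dual2.exists_cor : ∃ p : V →ₗ[K] (U ⊔ U' : Submodule K V), Cor G st (U ⊔ U') p ∧
    ∀ v, ((p v : (U ⊔ U' : Submodule K V)) : V) = e v + st e v := by
  let p : V →ₗ[K] (U ⊔ U' : Submodule K V) := (e + st e).codRestrict (U ⊔ U') fun v =>
    Submodule.add_mem_sup (P.e_mem v) (P.se_mem h v)
  have hp : ∀ v, ((p v : (U ⊔ U' : Submodule K V)) : V) = e v + st e v := fun v => rfl
  have hpr : pr (U ⊔ U') p = e + st e := LinearMap.ext fun v => hp v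
  refine ⟨p, ⟨?_, ?_, ?_⟩, hp⟩
  · rintro ⟨x, hx⟩
    apply Subtype.ext
    rw [hp]
    obtain ⟨a, ha, b, hb, rfl⟩ := Submodule.mem_sup.1 hx
    change e (a + b) + st e (a + b) = a + b
    rw [map_add, map_add, P.e_self ha, P.e_dual hb, P.se_self ha, P.se_dual hb, add_zero, zero_add]
  · intro y hy
    rw [hpr, add_mul, mul_add, P.eG y hy, P.seG h hy]
  · rw [hpr, map_add, P.st2, add_comm]

variable {p : V →ₗ[K] (U ⊔ U' : Submodule K V)} (c : Cor G st (U ⊔ U') p)
  (hp : ∀ v, ((p v : (U ⊔ U' : Submodule K V)) : V) = e v + st e v)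

include c hp

omit h in
theorem Dual2.pr_e : pr (U ⊔ U') p * e = e * pr (U ⊔ U') p := by
  have hpr : pr (U ⊔ U') p = e + st e := LinearMap.ext fun v => hp v
  rw [hpr, add_mul, mul_add, P.est, P.ste]

omit h in
theorem Dual2.rs_e (x : (U ⊔ U' : Submodule K V)) : ((rs (U ⊔ U') p e x :
    (U ⊔ U' : Submodule K V)) : V) = e x := rs_of_comm c (P.pr_e c hp) x

/-- The restriction to the sum. -/
theorem Dual2.blk0 [IsAlgClosed K] :
    Blk0 (G.map (rs (U ⊔ U') p)) (st' st (U ⊔ U') p) (rs (U ⊔ U') p e) where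
  idem := by rw [← rs_mul c.hp (P.pr_e c hp), P.idem]
  comm := by
    rintro _ ⟨y, hy, rfl⟩
    rw [← rs_mul c.hp (c.comm y hy), P.eG y hy, rs_mul c.hp (P.pr_e c hp)]
  st1 := by
    have h1 := st'_rs2 h c 1
    rw [rs_one c.hp, P.st1, rs_one c.hp] at h1
    exact h1
  st := by
    rw [st'_rs2 h c, eq_sub_iff_add_eq]
    refine LinearMap.ext fun v => ?_
    change p (st e v) + p (e v) = v
    rw [← map_add]
    have h1 : st e (v : V) + e v = v := by
      have h2 := hp v
      rw [c.hp] at h2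
      rw [add_comm]
      exact h2.symm
    rw [h1, c.hp]
  com := by
    intro f hf
    -- the extension
    have hT : ∀ y ∈ G, ex (U ⊔ U') p f * y = y * ex (U ⊔ U') p f := by
      intro y hy
      have e1 : ex (U ⊔ U') p f * y = ex (U ⊔ U') p (f * rs (U ⊔ U') p y) := by
        rw [ex_mul c.hp, ex_rs c.hp, mul_assoc (pr (U ⊔ U') p), ← c.comm y hy,
          ← mul_assoc (pr (U ⊔ U') p), pr_sq c.hp, ← mul_assoc, ex_pr c.hp]
      have e2 : y * ex (U ⊔ U') p f = ex (U ⊔ U') p (rs (U ⊔ U') p y * f) := by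
        rw [ex_mul c.hp, ex_rs c.hp, c.comm y hy, mul_assoc, mul_assoc, pr_ex c.hp, pr_ex c.hp]
      rw [e1, e2, hf _ ⟨y, hy, rfl⟩]
    have hv : ∀ v : (U ⊔ U' : Submodule K V), ex (U ⊔ U') p f v = f v := by
      intro v
      rw [ex_apply, c.hp]
    have hTM : ∀ v, e (ex (U ⊔ U') p f v) + st e (ex (U ⊔ U') p f v) = ex (U ⊔ U') p f v := by
      intro v
      have h2 := hp (f (p v))
      rw [c.hp] at h2
      exact h2.symm
    have hTU : ∀ u ∈ U, ex (U ⊔ U') p f u ∈ U := by
      intro u hu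
      have h2 := P.off (st e * ex (U ⊔ U') p f) (fun y hy => by
        rw [mul_assoc, hT y hy, ← mul_assoc, P.seG h hy, mul_assoc]) (fun u _ => P.se_mem h _) u hu
      have h3 : st e (ex (U ⊔ U') p f u) = 0 := h2
      have h4 := hTM u
      rw [h3, add_zero] at h4
      rw [← h4]
      exact P.e_mem _
    have hTU' : ∀ u ∈ U', ex (U ⊔ U') p f u ∈ U' := by
      intro u hu
      have h2 := P.off' (e * ex (U ⊔ U') p f) (fun y hy => by
        rw [mul_assoc, hT y hy, ← mul_assoc, P.eG y hy, mul_assoc]) (fun u _ => P.e_mem _) u hu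
      have h3 : e (ex (U ⊔ U') p f u) = 0 := h2
      have h4 := hTM u
      rw [h3, zero_add] at h4
      rw [← h4]
      exact P.se_mem h _
    obtain ⟨a, ha⟩ := schur P.hU hT hTU
    obtain ⟨b, hb⟩ := schur P.hU' hT hTU'
    refine ⟨a, b, LinearMap.ext fun v => Subtype.ext ?_⟩
    obtain ⟨u, hu, w, hw, huw⟩ := Submodule.mem_sup.1 v.2
    have e1 : ((f v : (U ⊔ U' : Submodule K V)) : V) = a • u + b • w := by
      rw [← hv, ← huw, map_add, ha u hu, hb w hw]
    have e2 : e (v : V) = u := by rw [← huw, map_add, P.e_self hu, P.e_dual hw, add_zero]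
    rw [e1]
    change _ = a • ((rs (U ⊔ U') p e v : (U ⊔ U' : Submodule K V)) : V) +
      b • ((v : V) - ((rs (U ⊔ U') p e v : (U ⊔ U' : Submodule K V)) : V))
    rw [P.rs_e c hp, e2, ← huw, add_sub_cancel_left]
  ne := by
    intro h0
    obtain ⟨u, hu, hu0⟩ := Submodule.exists_mem_ne_zero_of_ne_bot P.hU.ne
    apply hu0
    have h1 := P.rs_e c hp ⟨u, Submodule.mem_sup_left hu⟩
    rw [h0] at h1
    rw [← P.e_self hu]
    exact h1.symm
  ne' := by
    intro h0
    obtain ⟨u, hu, hu0⟩ := Submodule.exists_mem_ne_zero_of_ne_bot P.hU'.ne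
    apply hu0
    have h1 := P.rs_e c hp ⟨u, Submodule.mem_sup_right hu⟩
    rw [← sub_eq_zero.1 h0] at h1
    change u = e u at h1
    rw [P.e_dual hu] at h1
    exact h1

theorem Dual2.setup [IsAlgClosed K] : Setup (G.map (rs (U ⊔ U') p)) (st' st (U ⊔ U') p) := by
  have b := P.blk0 h c hp
  refine cor_setup h c fun y hy hc htr => ?_
  obtain ⟨z, hz, rfl⟩ := hy
  obtain ⟨s, h4⟩ := b.central0 (c.skew h hz) hc
  rw [h4, smul_mul_smul_comm, b.th_sq, map_smul, LinearMap.trace_one, smul_eq_mul] at htr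
  have hV : (finrank K (U ⊔ U' : Submodule K V) : K) ≠ 0 := by
    have h0 : finrank K (U ⊔ U' : Submodule K V) ≠ 0 := by
      intro h0
      apply b.ne
      have := finrank_zero_iff.1 h0
      exact Subsingleton.elim _ _
    exact_mod_cast h0
  have hs := (mul_eq_zero.1 htr).resolve_right hV
  rw [h4, mul_self_eq_zero.1 hs, zero_smul]

end dual2

end Pool.Agent.Y91.G
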