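import Mathlib
import Pool.Agent.Y91.G.JUni
import Pool.Agent.Y91.G.Sdu
import Pool.Agent.Y4.G.Gcd

/-!
# Rank one elements: irreducible submodules which are not self-dual, greatest common divisors of the
multiplicities
-/

set_option linter.unusedSectionVars false

namespace Pool.Agent.Y91.G

open Module Pool.Agent.W548.Odd Pool.Agent.Y91.JP Pool.Agent.Y91.P
open Pool.Agent.Y4.G (gd single_gcd)

section gen

variable {K : Type} [Field K] [CharZero K] {V : Type} [AddCommGroup V] [Module K V]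
  [FiniteDimensional K V]

variable {G I : Submodule K (End K V)} {st : End K V →ₗ[K] End K V}
  {ε : End K V}

theorem rk_neg_pos (b : Blk G st ε) {D : End K V} (hD : D ∈ G) (hD2 : D * D = 1) :
    rk (ε * (1 - D)) = finrank K (Pos (-D) ε) := by
  have h1 := rk_pos b (D := -D) (G.neg_mem hD) (by rw [neg_mul_neg, hD2])
  rwa [← sub_eq_add_neg] at h1

/-- An involution with a zero multiplicity is a scalar. -/
theorem scal_of_pos (h : Setup G st) (b : Blk G st ε) {D : End K V} (hD : D ∈ G)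
    (hD2 : D * D = 1) (h0 : finrank K (Pos D ε) = 0 ∨ finrank K (Pos (-D) ε) = 0) :
    ∃ s : K, D = s • (ε - (1 - ε)) := by
  rcases h0 with h0 | h0
  · rw [← rk_pos b hD hD2] at h0
    have h1 := rk_eq_zero h0
    refine ⟨-1, ?_⟩
    rw [← sub_eq_zero]
    refine b.zero_of h (Submodule.sub_mem _ hD (Submodule.smul_mem _ _ b.th)) ?_
    rw [mul_sub, mul_smul_comm, mul_sub, b.idem, b.e0, sub_zero, neg_smul, one_smul,
      sub_neg_eq_add, ← h1, mul_add, mul_one, add_comm]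
  · rw [← rk_neg_pos b hD hD2] at h0
    have h1 := rk_eq_zero h0
    refine ⟨1, ?_⟩
    rw [← sub_eq_zero]
    refine b.zero_of h (Submodule.sub_mem _ hD (Submodule.smul_mem _ _ b.th)) ?_
    rw [mul_sub, mul_smul_comm, mul_sub, b.idem, b.e0, sub_zero, one_smul]
    rw [mul_sub, mul_one, sub_eq_zero] at h1
    rw [← h1, sub_self]

/-- **Rank one elements**: the greatest common divisors of the multiplicities exclude tensor
decompositions. -/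
theorem rank_one_gcd [IsAlgClosed K] (hsp : S_SPIN) (hse : S_SELF) (h0 : Setup G st)
    (b0 : Blk0 G st ε) (htr : TrSt st) {S : Set (End K V)}
    (hS : ∀ D ∈ S, D ∈ G ∧ D * D = 1)
    (hgen : ∀ L : Submodule K (End K V), S ⊆ L → (∀ y ∈ L, ∀ z ∈ L, y * z - z * y ∈ L) → G ≤ L)
    {D₀ : End K V} (hD₀S : D₀ ∈ S)
    {p q : ℕ} (hp : finrank K (Pos D₀ ε) = p) (hq : finrank K (Pos (-D₀) ε) = q)
    (hp0 : 0 < p) (hq0 : 0 < q)
    (hgcd : ∀ D ∈ S, 0 < finrank K (Pos D ε) → 0 < finrank K (Pos (-D) ε) →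
      ¬ (p + q) ∣ Nat.gcd p q * Nat.gcd (finrank K (Pos D ε)) (finrank K (Pos (-D) ε)))
    (hcase : (p ≠ q ∧ ∀ n a : ℕ, 1 < a → a < n → ¬ (p = n.choose a ∧ q = n.choose (a - 1))) ∨
      (p = q ∧ (∀ m : ℕ, 1 ≤ m → p ≠ 2 ^ m) ∧
        ∀ D ∈ S, finrank K (Pos D ε) = finrank K (Pos (-D) ε))) :
    ∃ c ∈ Kp (Gp G ε) D₀, rk (ε * c) = 1 := by
  have h := b0.setup h0
  have b := b0.blk
  have hS' : ∀ D ∈ S, D ∈ Gp G ε ∧ D * D = 1 := fun D hD => ⟨mem_gp (hS D hD).1, (hS D hD).2⟩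
  obtain ⟨hD, hD2⟩ := hS' D₀ hD₀S
  have hrk := rk_eps b hD hD2
  rw [hp, hq] at hrk
  have htD : ∀ D ∈ S, LinearMap.trace K V (ε * D) = (finrank K (Pos D ε) : K) - finrank K (Pos (-D) ε) := by
    intro D hDS
    obtain ⟨hD, hD2⟩ := hS' D hDS
    have t1 := finrank_pos b hD hD2
    have t2 := rk_eps b hD hD2
    rw [trace_idem b.idem, t2] at t1
    push_cast at t1
    linear_combination -t1
  have hneθ : ∀ s : K, D₀ ≠ s • (ε - (1 - ε)) := by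
    intro s hs
    have hv : ∀ v, ε v = v → D₀ v = s • v := by
      intro v hv
      rw [hs]
      change s • (ε v - (v - ε v)) = s • v
      rw [hv, sub_self, sub_zero]
    have e1 : Pos D₀ ε ≠ ⊥ := by
      intro h0
      rw [h0, finrank_bot] at hp
      omega
    have e2 : Pos (-D₀) ε ≠ ⊥ := by
      intro h0
      rw [h0, finrank_bot] at hq
      omega
    obtain ⟨v, ⟨hv1, hv2⟩, hv0⟩ := Submodule.exists_mem_ne_zero_of_ne_bot e1
    obtain ⟨w, ⟨hw1, hw2⟩, hw0⟩ := Submodule.exists_mem_ne_zero_of_ne_bot e2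
    have e3 : s = 1 := by
      have e4 : (s - 1) • v = 0 := by rw [sub_smul, one_smul, ← hv v hv2, hv1, sub_self]
      exact sub_eq_zero.1 ((smul_eq_zero.1 e4).resolve_right hv0)
    have e5 := hv w hw2
    rw [e3, one_smul] at e5
    rw [LinearMap.neg_apply, e5] at hw1
    have e6 : (2 : K) • w = 0 := by
      rw [two_smul]
      nth_rewrite 1 [← hw1]
      exact neg_add_cancel _
    exact hw0 ((smul_eq_zero.1 e6).resolve_left two_ne_zero)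
  have h3 : Gp G ε ≤ JD (Gp G ε) ε D₀ := by
    refine single_gcd h b hS' ?_ hD hD2 ?_
    · intro L hSL hθL hL
      refine sup_le (hgen L hSL hL) ?_
      rw [Submodule.span_le]
      rintro _ rfl
      exact hθL
    · intro D hDS hns hdv
      obtain ⟨hD', hD2'⟩ := hS' D hDS
      have k1 : 0 < finrank K (Pos D ε) ∧ 0 < finrank K (Pos (-D) ε) := by
        by_contra hcon
        obtain ⟨s, hs⟩ := scal_of_pos h b hD' hD2' (by omega)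
        exact hns s hs
      refine hgcd D hDS k1.1 k1.2 ?_
      unfold gd at hdv
      rwa [rk_pos b hD hD2, rk_neg_pos b hD hD2, rk_pos b hD' hD2', rk_neg_pos b hD' hD2', hrk,
        hp, hq] at hdv
  have H := gen3 h b hD hD2 h3 hneθ
  have b' := b.symm h
  have hirr := irrE h b H
  have hirrn := irrE h b H.neg
  have hirr' := irrE h b' H.symm
  have hirrn' := irrE h b' H.symm.neg
  have htD₀ := htD D₀ hD₀S
  rw [hp, hq] at htD₀
  rcases hcase with ⟨hpq, hexc⟩ | ⟨hpq, hspin, hall⟩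
  · refine rank_oneE hsp hse h b htr hD hD2 h3 hneθ ?_ ?_ fun _ n a ha1 han => ?_
    · refine noGr_of_trace h b hD hD2 hirr hirr' htr ?_
      rw [htD₀]
      intro h4
      exact hpq (by exact_mod_cast sub_eq_zero.1 h4)
    · intro h4
      rw [htD₀] at h4
      exact absurd (by exact_mod_cast sub_eq_zero.1 h4) hpq
    · rw [hp, hq]
      exact hexc n a ha1 han
  · refine rank_oneE hsp hse h b htr hD hD2 h3 hneθ ?_ ?_ fun h4 => ?_
    · refine noGr_of_zero b0 h0 (fun D hDS => (hS D hDS).1) hgen (fun D hDS => ?_) hD₀S hD2 h3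
        hneθ hirrn hirrn'
      rw [htD D hDS, hall D hDS, sub_self]
    · intro _ m hm hdm
      rw [hrk, ← hpq, pow_succ] at hdm
      exact hspin m hm (by omega)
    · rw [hp, hq] at h4
      exact absurd hpq h4

end gen

open Matrix Pool.Agent.Y90 Pool.Agent.W437.HC Pool.Agent.W437.HD

variable {g : ℕ} {Z : Matrix (Fin g) (Fin g) ℂ}

theorem mem_cj_eig' {σ : ℂ ≃+* ℂ} {s : ℂ} (hs : σ s = s) {v : Fin g ⊕ Fin g → ℂ} :
    v ∈ cjS σ (eig Z s) ↔ DS Z σ *ᵥ v = s • v := by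
  refine ⟨mem_cj_eig hs, fun hv => ?_⟩
  rw [mem_cjS, mem_eig]
  have h1 := map_mulVec_aut σ.symm (DS Z σ) v
  have h2 : (DS Z σ).map σ.symm = DZ Z := by
    ext i j
    simp [DS]
  rw [h2, hv] at h1
  rw [← h1]
  funext i
  have hs' : σ.symm s = s := by
    apply σ.injective
    rw [RingEquiv.apply_symm_apply, hs]
  change σ.symm (s * v i) = s * σ.symm (v i)
  rw [map_mul, hs']

/-- **Rank one elements on irreducible submodules which are not self-dual.** -/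
theorem rk1_gcd (h : PM Z) {U : Submodule ℂ (Fin g ⊕ Fin g → ℂ)} (hU : IrS (LZ Z) U)
    (hn : ¬SDu Z U) (hp0 : 0 < pd Z U) (hq0 : 0 < qd Z U)
    (hgcd : ∀ σ : ℂ ≃+* ℂ, 0 < pd Z (cjS σ U) → 0 < qd Z (cjS σ U) →
      ¬ (pd Z U + qd Z U) ∣ Nat.gcd (pd Z U) (qd Z U) *
        Nat.gcd (pd Z (cjS σ U)) (qd Z (cjS σ U)))
    (hcase : (pd Z U ≠ qd Z U ∧ ∀ n a : ℕ, 1 < a → a < n →
        ¬ (pd Z U = n.choose a ∧ qd Z U = n.choose (a - 1))) ∨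
      (pd Z U = qd Z U ∧ (∀ m : ℕ, 1 ≤ m → pd Z U ≠ 2 ^ m) ∧
        ∀ σ : ℂ ≃+* ℂ, pd Z (cjS σ U) = qd Z (cjS σ U))) : Rk1 Z U := by
  have hOm2 : Om g ℂ * Om g ℂ = -1 := Om_sq ℂ
  have hOmT : (Om g ℂ)ᵀ = -Om g ℂ := Om_transpose ℂ
  have hω := altF hOmT hOm2
  have hS := h.setup
  obtain ⟨e, U', P⟩ := exists_dual2 hS (st_oneE h) hω (irrS_of_irS hU) (by
    intro T hT u hu v hv
    by_contra hcon
    refine hn ⟨(Pool.Agent.Y90.om g).compl₂ T, ⟨u, hu, v, hv, hcon⟩, fun X hX u hu v hv => ?_⟩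
    have h1 : T (X *ᵥ v) = X *ᵥ (T v) := LinearMap.congr_fun (hT _ (mem_GG.2 hX)) v
    change Pool.Agent.Y90.om g (X *ᵥ u) (T v) + Pool.Agent.Y90.om g u (T (X *ᵥ v)) = 0
    rw [h1]
    exact h.om_sp hX u (T v))
  obtain ⟨p, cr, hpe⟩ := P.exists_cor hS
  have b0 := P.blk0 hS cr hpe
  have h0 := P.setup hS cr hpe
  have htr := cr.trSt hS (trSt hOm2)
  have hσ : ∀ σ : ℂ ≃+* ℂ, ph (Fin g ⊕ Fin g) (DS Z σ) * ph (Fin g ⊕ Fin g) (DS Z σ) = 1 := by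
    intro σ
    rw [← map_mul, DS_sq h.det, map_one]
  have hσG : ∀ σ : ℂ ≃+* ℂ, ph (Fin g ⊕ Fin g) (DS Z σ) ∈ GG (LZ Z) := fun σ =>
    mem_GG.2 (DS_mem σ)
  have hDZ : DS Z (RingEquiv.refl ℂ) = DZ Z := by
    ext i j
    rfl
  have hDG : ph (Fin g ⊕ Fin g) (DZ Z) ∈ GG (LZ Z) := mem_GG.2 DZ_mem
  have hD2 : ph (Fin g ⊕ Fin g) (DZ Z) * ph (Fin g ⊕ Fin g) (DZ Z) = 1 := by
    rw [← map_mul, DZ_sq h.det, map_one]
  have hSS : ∀ E ∈ {E | ∃ σ : ℂ ≃+* ℂ, E = rs (U ⊔ U') p (ph (Fin g ⊕ Fin g) (DS Z σ))},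
      E ∈ (GG (LZ Z)).map (rs (U ⊔ U') p) ∧ E * E = 1 := by
    rintro _ ⟨σ, rfl⟩
    exact ⟨⟨_, hσG σ, rfl⟩, by rw [← cr.rs_mem_mul hS (hσG σ), hσ, rs_one cr.hp]⟩
  obtain ⟨D₀, hD₀⟩ : ∃ D₀, D₀ = rs (U ⊔ U') p (ph (Fin g ⊕ Fin g) (DZ Z)) := ⟨_, rfl⟩
  have hUe : ∀ v ∈ U ⊔ U', e v = v → v ∈ U := by
    intro v _ hev
    exact (P.ranU v).2 hev
  have hpos : ∀ (σ : ℂ ≃+* ℂ) (s : ℂ), σ s = s →
      ∀ (E : End ℂ (U ⊔ U' : Submodule ℂ (Fin g ⊕ Fin g → ℂ))),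
      (∀ v : (U ⊔ U' : Submodule ℂ (Fin g ⊕ Fin g → ℂ)), E v = v ↔
        DS Z σ *ᵥ (v : _ → ℂ) = s • (v : Fin g ⊕ Fin g → ℂ)) →
      finrank ℂ (Pos E (rs (U ⊔ U') p e)) =
        finrank ℂ (cjS σ.symm U ⊓ eig Z s : Submodule ℂ (Fin g ⊕ Fin g → ℂ)) := by
    intro σ s hs E hE
    have e1 : (Pos E (rs (U ⊔ U') p e)).map (U ⊔ U').subtype =
        cjS σ (cjS σ.symm U ⊓ eig Z s) := by
      rw [cjS_inf, cjS_symm']
      ext v
      constructor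
      · rintro ⟨v, ⟨hv1, hv2⟩, rfl⟩
        refine ⟨hUe _ v.2 ?_, (mem_cj_eig' hs).2 ((hE v).1 hv1)⟩
        have e2 := congrArg Subtype.val hv2
        rw [P.rs_e cr hpe] at e2
        exact e2
      · rintro ⟨hv1, hv2⟩
        refine ⟨⟨v, Submodule.mem_sup_left hv1⟩, ⟨(hE _).2 ((mem_cj_eig' hs).1 hv2),
          Subtype.ext ?_⟩, rfl⟩
        rw [P.rs_e cr hpe]
        exact P.e_self hv1
    rw [← finrank_cjS σ, ← e1]
    exact (Submodule.finrank_map_subtype_eq _ _).symm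
  have hEv : ∀ (σ : ℂ ≃+* ℂ) (v : (U ⊔ U' : Submodule ℂ (Fin g ⊕ Fin g → ℂ))),
      ((rs (U ⊔ U') p (ph (Fin g ⊕ Fin g) (DS Z σ)) v :
        (U ⊔ U' : Submodule ℂ (Fin g ⊕ Fin g → ℂ))) : Fin g ⊕ Fin g → ℂ) =
          DS Z σ *ᵥ (v : _ → ℂ) := fun σ v => rs_of_comm cr (cr.comm _ (hσG σ)) v
  have hpp : ∀ σ : ℂ ≃+* ℂ, finrank ℂ (Pos (rs (U ⊔ U') p (ph (Fin g ⊕ Fin g) (DS Z σ)))
      (rs (U ⊔ U') p e)) = pd Z (cjS σ.symm U) := by
    intro σ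
    refine hpos σ 1 (map_one σ) _ fun v => ?_
    rw [one_smul, ← hEv]
    exact Subtype.ext_iff
  have hqq : ∀ σ : ℂ ≃+* ℂ, finrank ℂ (Pos (-rs (U ⊔ U') p (ph (Fin g ⊕ Fin g) (DS Z σ)))
      (rs (U ⊔ U') p e)) = qd Z (cjS σ.symm U) := by
    intro σ
    refine hpos σ (-1) (by rw [map_neg, map_one]) _ fun v => ?_
    rw [← hEv, neg_smul, one_smul, LinearMap.neg_apply, neg_eq_iff_eq_neg]
    exact Subtype.ext_iff
  have hrf : cjS (RingEquiv.refl ℂ).symm U = U := by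
    ext v
    rfl
  have hp1 : finrank ℂ (Pos D₀ (rs (U ⊔ U') p e)) = pd Z U := by
    have h1 := hpp (RingEquiv.refl ℂ)
    rw [hrf, hDZ, ← hD₀] at h1
    exact h1
  have hq1 : finrank ℂ (Pos (-D₀) (rs (U ⊔ U') p e)) = qd Z U := by
    have h1 := hqq (RingEquiv.refl ℂ)
    rw [hrf, hDZ, ← hD₀] at h1
    exact h1
  have hrefl : D₀ ∈ {E | ∃ σ : ℂ ≃+* ℂ, E = rs (U ⊔ U') p (ph (Fin g ⊕ Fin g) (DS Z σ))} :=
    ⟨RingEquiv.refl ℂ, by rw [hDZ, hD₀]⟩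
  obtain ⟨c', hc', hr⟩ := rank_one_gcd (K := ℂ) Pool.Agent.Y442.G.spin Pool.Agent.Y185.G.self h0 b0
    htr hSS (by
      intro L hL hbr
      have h1 : LZ Z ≤ LZ Z ⊓ (L.comap (rs (U ⊔ U') p)).comap
          (ph (Fin g ⊕ Fin g)).toLinearMap := by
        refine LZ_le (fun σ => ⟨DS_mem σ, hL ⟨σ, rfl⟩⟩) ?_
        rintro A ⟨hA, hA'⟩ C ⟨hC, hC'⟩
        refine ⟨LZ_br hA hC, ?_⟩
        have h2 := hbr _ hA' _ hC'
        change rs (U ⊔ U') p (ph (Fin g ⊕ Fin g) (A * C - C * A)) ∈ L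
        rw [map_sub, map_mul, map_mul, cr.rs_br hS (mem_GG.2 hA) (mem_GG.2 hC)]
        exact h2
      rintro _ ⟨y, hy, rfl⟩
      obtain ⟨A, hA, rfl⟩ := exists_GG hy
      exact (h1 hA).2) hrefl hp1 hq1 hp0 hq0 (by
      rintro _ ⟨σ, rfl⟩
      rw [hpp, hqq]
      exact hgcd σ.symm) (by
      rcases hcase with h1 | ⟨h1, h2, h3⟩
      · exact Or.inl h1
      · refine Or.inr ⟨h1, h2, ?_⟩
        rintro _ ⟨σ, rfl⟩
        rw [hpp, hqq]
        exact h3 σ.symm)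
  obtain ⟨hcG, hc1, hc2⟩ := hc'
  obtain ⟨_, ⟨z, hz, rfl⟩, t, hzt⟩ := exists_gp hcG
  obtain ⟨A, hA, rfl⟩ := exists_GG hz
  -- the lift
  have hup := up_mem h hA
  obtain ⟨D1, hD1⟩ : ∃ D1, D1 = ph (Fin g ⊕ Fin g) (DZ Z) := ⟨_, rfl⟩
  have hNe : ph (Fin g ⊕ Fin g) ((1 / 4 : ℂ) • ((1 + DZ Z) * A * (1 - DZ Z))) =
      (1 / 4 : ℂ) • ((1 + D1) * ph (Fin g ⊕ Fin g) A * (1 - D1)) := by
    rw [map_smul, map_mul, map_mul, map_add, map_sub, map_one, ← hD1]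
  rw [← hD1] at hD₀ hDG hD2
  obtain ⟨ε', hε'⟩ : ∃ ε', ε' = rs (U ⊔ U') p e := ⟨_, rfl⟩
  rw [← hε'] at hzt hr
  have hε'D : ε' * rs (U ⊔ U') p D1 = rs (U ⊔ U') p D1 * ε' := by
    rw [hε']
    exact b0.comm _ ⟨_, hDG, rfl⟩
  rw [hD₀] at hc1 hc2
  have hN : rs (U ⊔ U') p (ph (Fin g ⊕ Fin g) ((1 / 4 : ℂ) • ((1 + DZ Z) * A * (1 - DZ Z)))) =
      c' := by
    rw [hNe, map_smul, lift_fact hS cr hDG hz hD2 hε'D hzt.symm hc1 hc2, smul_smul]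
    norm_num
  refine ⟨DZ Z, Or.inl rfl, _, hup, ?_, ?_, ?_⟩
  · apply (ph (Fin g ⊕ Fin g)).injective
    rw [map_mul, hNe, ← hD1, mul_smul_comm, up_left hD2]
  · apply (ph (Fin g ⊕ Fin g)).injective
    rw [map_mul, map_neg, hNe, ← hD1, smul_mul_assoc, up_right hD2, smul_neg]
  · obtain ⟨N, hNd⟩ : ∃ N, N = (1 / 4 : ℂ) • ((1 + DZ Z) * A * (1 - DZ Z)) := ⟨_, rfl⟩
    rw [← hNd] at hN hup ⊢
    have hNv : ∀ v : (U ⊔ U' : Submodule ℂ (Fin g ⊕ Fin g → ℂ)), ((c' v :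
        (U ⊔ U' : Submodule ℂ (Fin g ⊕ Fin g → ℂ))) : Fin g ⊕ Fin g → ℂ) =
          N *ᵥ (v : _ → ℂ) := by
      intro v
      rw [← hN]
      exact rs_of_comm cr (cr.comm _ (mem_GG.2 hup)) v
    have e1 : (LinearMap.range (ε' * c')).map (U ⊔ U').subtype = U.map (mulVecLin N) := by
      apply le_antisymm
      · rintro _ ⟨_, ⟨v, rfl⟩, rfl⟩
        obtain ⟨a, ha, b, hb, hab⟩ := Submodule.mem_sup.1 v.2
        refine ⟨a, ha, ?_⟩
        change N *ᵥ a = ((ε' (c' v) : (U ⊔ U' : Submodule ℂ (Fin g ⊕ Fin g → ℂ))) :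
          Fin g ⊕ Fin g → ℂ)
        have k1 : e (N *ᵥ a) = N *ᵥ a := P.e_self (P.hU.st _ (mem_GG.2 hup) a ha)
        have k2 : e (N *ᵥ b) = 0 := P.e_dual (P.hU'.st _ (mem_GG.2 hup) b hb)
        rw [hε', P.rs_e cr hpe, hNv, ← hab, mulVec_add, map_add, k1, k2, add_zero]
      · rintro _ ⟨a, ha, rfl⟩
        refine ⟨(ε' * c') ⟨a, Submodule.mem_sup_left ha⟩, ⟨_, rfl⟩, ?_⟩
        change ((ε' (c' ⟨a, Submodule.mem_sup_left ha⟩) :
          (U ⊔ U' : Submodule ℂ (Fin g ⊕ Fin g → ℂ))) : Fin g ⊕ Fin g → ℂ) = N *ᵥ a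
        rw [hε', P.rs_e cr hpe, hNv]
        exact P.e_self (P.hU.st _ (mem_GG.2 hup) a ha)
    rw [← e1]
    have e2 := Submodule.finrank_map_subtype_eq (U ⊔ U') (LinearMap.range (ε' * c'))
    rw [e2]
    exact hr

end Pool.Agent.Y91.G
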